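import Mathlib

/-! Iterates of an affine map, elementary part (helper35): copies of lemmas of `ItA/NoFour` and `PolD/Greedy2`, here
without the analytic imports. -/

set_option autoImplicit false

namespace Pool.Agent.S43

open Finset

/-- the affine map `y ↦ a + y d` -/
def af (a : ℤ) (d : ℕ) (y : ℤ) : ℤ := a + y * d

theorem af_iter (a : ℤ) (d m : ℕ) (y : ℤ) : (af a d)^[m] y = d ^ m * y + (af a d)^[m] 0 := by
  induction m with
  | zero => simp
  | succ m ih =>
    rw [Function.iterate_succ_apply', Function.iterate_succ_apply', ih]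
    unfold af
    ring

theorem af_zero (a : ℤ) (d m : ℕ) : (af a d)^[m] 0 = a * ((∑ k ∈ range m, d ^ k : ℕ) : ℤ) := by
  induction m with
  | zero => simp
  | succ m ih =>
    rw [Function.iterate_succ_apply', ih, Finset.sum_range_succ']
    unfold af
    push_cast
    rw [mul_add, Finset.mul_sum, Finset.mul_sum, Finset.sum_mul]
    have : ∀ k ∈ range m, a * (d : ℤ) ^ (k + 1) = a * (d : ℤ) ^ k * d := fun k _ => by ring
    rw [Finset.sum_congr rfl this]
    ring

theorem af_zero_ne (a : ℤ) (ha : a ≠ 0) (d m : ℕ) (hm : 1 ≤ m) : (af a d)^[m] 0 ≠ 0 := by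
  rw [af_zero]
  refine mul_ne_zero ha ?_
  have h1 : 0 < ∑ k ∈ range m, d ^ k := by
    obtain ⟨m', rfl⟩ : ∃ m', m = m' + 1 := ⟨m - 1, by omega⟩
    rw [Finset.sum_range_succ', pow_zero]
    omega
  exact_mod_cast h1.ne'

/-- the `m`-th iterate maps infinitely many primes to primes -/
def GdI (a : ℤ) (d m : ℕ) : Prop :=
  {q : ℕ | q.Prime ∧ ∃ p : ℕ, p.Prime ∧ (p : ℤ) = (af a d)^[m] q}.Infinite

theorem int_to_nat (p : ℕ) (hp : 0 < p) (z : ℤ) (N : ℕ) : ∃ n : ℕ, (p : ℤ) ∣ ((n : ℤ) + N) - z := by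
  have hpz : (0 : ℤ) < p := by exact_mod_cast hp
  refine ⟨((z - N) % p).toNat, ?_⟩
  have h1 : (0 : ℤ) ≤ (z - N) % p := Int.emod_nonneg _ hpz.ne'
  rw [Int.toNat_of_nonneg h1]
  have h2 : (z - N) % p + N - z = -((z - N) - (z - N) % p) := by ring
  rw [h2, dvd_neg]
  exact Int.dvd_self_sub_emod

theorem af_cong (a : ℤ) (d m p : ℕ) (y z : ℤ) (h : (p : ℤ) ∣ y - z) :
    (p : ℤ) ∣ (af a d)^[m] y - (af a d)^[m] z := by
  rw [af_iter a d m y, af_iter a d m z]
  have h1 : (d : ℤ) ^ m * y + (af a d)^[m] 0 - (d ^ m * z + (af a d)^[m] 0) = d ^ m * (y - z) := by ring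
  rw [h1]
  exact Dvd.dvd.mul_left h _

/-- admissibility: for every prime there is a class in which no iterate of index `τ ∈ I` is divisible by `p` -/
theorem adm2 (a : ℤ) (d : ℕ) (hgcd : Int.gcd a d = 1) (h2 : 2 ∣ a * d) (p : ℕ) (hp : p.Prime)
    (I : Finset ℕ) (hI : p ≠ 2 → (p : ℤ) ∣ (d : ℤ) - 1 → ¬ (p : ℤ) ∣ a → ∃ e : ℤ, ∀ t ∈ I, ¬ (p : ℤ) ∣ (t : ℤ) - e) :
    ∃ z : ℤ, ∀ t ∈ I, ¬ (p : ℤ) ∣ (af a d)^[t] z := by
  have hpp : Prime (p : ℤ) := Nat.prime_iff_prime_int.mp hp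
  have hcop : ¬ ((p : ℤ) ∣ a ∧ (p : ℤ) ∣ d) := by
    rintro ⟨h3, h4⟩
    have h5 : p ∣ Int.gcd a d := Int.dvd_gcd h3 h4
    rw [hgcd] at h5
    exact hp.one_lt.ne' (Nat.dvd_one.mp h5)
  by_cases hd : (p : ℤ) ∣ d
  · have ha : ¬ (p : ℤ) ∣ a := fun h => hcop ⟨h, hd⟩
    refine ⟨1, fun t _ ht => ?_⟩
    rcases Nat.eq_zero_or_pos t with h0 | h0
    · subst h0
      rw [Function.iterate_zero, id_eq] at ht
      exact hpp.not_isUnit (isUnit_of_dvd_one ht)
    · obtain ⟨t', rfl⟩ : ∃ t', t = t' + 1 := ⟨t - 1, by omega⟩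
      rw [Function.iterate_succ_apply'] at ht
      unfold af at ht
      exact ha ((dvd_add_left (Dvd.dvd.mul_left hd _)).mp ht)
  by_cases ha : (p : ℤ) ∣ a
  · refine ⟨1, fun t _ ht => ?_⟩
    rw [af_iter, af_zero, mul_one] at ht
    have h3 := (dvd_add_left (Dvd.dvd.mul_right ha _)).mp ht
    exact hd (hpp.dvd_of_dvd_pow h3)
  by_cases hd1 : (p : ℤ) ∣ (d : ℤ) - 1
  · have hp2 : p ≠ 2 := by
      rintro rfl
      rcases Int.prime_two.dvd_or_dvd h2 with h | h
      · exact ha h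
      · exact hd h
    obtain ⟨e, he⟩ := hI hp2 hd1 ha
    have h3 : ∀ (m : ℕ) (z : ℤ), (p : ℤ) ∣ (af a d)^[m] z - (z + m * a) := by
      intro m z
      induction m with
      | zero => simp
      | succ m ih =>
        rw [Function.iterate_succ_apply']
        have h4 : af a d ((af a d)^[m] z) - (z + ((m + 1 : ℕ) : ℤ) * a) =
            ((af a d)^[m] z - (z + m * a)) * d + ((d : ℤ) - 1) * (z + m * a) := by
          unfold af
          push_cast
          ring
        rw [h4]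
        exact dvd_add (Dvd.dvd.mul_right ih _) (Dvd.dvd.mul_right hd1 _)
    refine ⟨-(e * a), fun t ht hdv => ?_⟩
    have h4 := dvd_sub hdv (h3 t (-(e * a)))
    have h5 : (af a d)^[t] (-(e * a)) - ((af a d)^[t] (-(e * a)) - (-(e * a) + t * a)) =
        ((t : ℤ) - e) * a := by ring
    rw [h5] at h4
    rcases hpp.dvd_or_dvd h4 with h6 | h6
    · exact he t ht h6
    · exact ha h6
  · -- a fixed point
    have hc : IsCoprime (1 - (d : ℤ)) (p : ℤ) := by
      refine ((hpp.coprime_iff_not_dvd).2 fun h => hd1 ?_).symm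
      have : (d : ℤ) - 1 = -(1 - (d : ℤ)) := by ring
      rw [this, dvd_neg]
      exact h
    obtain ⟨u, v, huv⟩ := hc
    -- z = u a : (1 - d) z ≡ a
    have h3 : ∀ m : ℕ, (p : ℤ) ∣ (af a d)^[m] (u * a) - u * a := by
      intro m
      induction m with
      | zero => simp
      | succ m ih =>
        rw [Function.iterate_succ_apply']
        have h4 : af a d ((af a d)^[m] (u * a)) - u * a =
            ((af a d)^[m] (u * a) - u * a) * d + (v * a) * p := by
          unfold af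
          linear_combination a * (-huv)
        rw [h4]
        exact dvd_add (Dvd.dvd.mul_right ih _) (Dvd.intro_left _ rfl)
    refine ⟨u * a, fun t _ ht => ?_⟩
    have h4 := dvd_sub ht (h3 t)
    rw [sub_sub_cancel] at h4
    rcases hpp.dvd_or_dvd h4 with h5 | h5
    · have h6 : (p : ℤ) ∣ 1 := by
        rw [← huv]
        exact dvd_add (Dvd.dvd.mul_right h5 _) (Dvd.intro_left _ rfl)
      exact hpp.not_isUnit (isUnit_of_dvd_one h6)
    · exact ha h5

theorem big {ι : Type} (I : Finset ι) (p : ℕ) (hp : p.Prime) (hr : I.card < p) (s : ι → ℕ) (h : ι → ℤ)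
    (hs : ∀ i ∈ I, ¬ p ∣ s i) : ∃ n : ℕ, ∀ i ∈ I, ¬ (p : ℤ) ∣ s i * n + h i := by
  classical
  have hone : ∀ i ∈ I, ((range p).filter fun n : ℕ => (p : ℤ) ∣ s i * n + h i).card ≤ 1 := by
    intro i hi
    rw [card_le_one]
    intro a ha b hb
    rw [mem_filter, mem_range] at ha hb
    have h1 : (p : ℤ) ∣ s i * ((a : ℤ) - b) := by
      have := dvd_sub ha.2 hb.2
      have h2 : (s i : ℤ) * a + h i - (s i * b + h i) = s i * ((a : ℤ) - b) := by ring
      rwa [h2] at this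
    have hps : ¬ (p : ℤ) ∣ s i := fun hc => hs i hi (by exact_mod_cast hc)
    have hpp : Prime (p : ℤ) := Nat.prime_iff_prime_int.mp hp
    rcases hpp.dvd_or_dvd h1 with h2 | h2
    · exact absurd h2 hps
    · have h3 : a ≡ b [MOD p] := ((Nat.modEq_iff_dvd).mpr (by
        have : (b : ℤ) - a = -((a : ℤ) - b) := by ring
        rw [this]
        exact (dvd_neg).mpr h2))
      exact Nat.ModEq.eq_of_lt_of_lt h3 ha.1 hb.1
  have hU : (I.biUnion
      fun i => (range p).filter fun n : ℕ => (p : ℤ) ∣ s i * n + h i).card < (range p).card := by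
    refine lt_of_le_of_lt card_biUnion_le ?_
    refine lt_of_le_of_lt (sum_le_card_nsmul _ _ 1 hone) ?_
    simpa using hr
  obtain ⟨n, hn, hn'⟩ := exists_mem_notMem_of_card_lt_card hU
  refine ⟨n, fun i hi hd => hn' ?_⟩
  exact mem_biUnion.mpr ⟨i, hi, mem_filter.mpr ⟨hn, hd⟩⟩

end Pool.Agent.S43
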