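import Pool.Agent.SL.Asym
import Pool.Agent.MT.Shell

/-! Part A of the sieve for linear forms (helper35, after helper83's `MT/Asym`, `MT/ShAsym` and helper64's `SL/Asym`): the
asymptotics with two functions, the majorants. -/

set_option autoImplicit false

namespace Pool.Agent.S43

open Finset Filter Topology Pool.Agent.MT Pool.Agent.SL

variable {k : ℕ}

theorem S2_asym2 (s h : Fin k → ℕ) (D M b : ℕ) (hD : 2 ≤ D) (hM : 1 ≤ M) (hL : Large s h D) (m : Fin k) (r r' C : ℝ)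
    (Y Y' : (Fin k → ℕ) → ℝ) (hY : Grid M r Y) (hY' : Grid M r' Y')
    (hC0 : 0 < C) (hC : ∀ N, D < N → PP (qq D N) ≤ C * XX D N)
    (hEH : ∀ v, Y v ≠ 0 → ∀ v', Y' v' ≠ 0 →
      EH s h (primorial D) b m (fun i => ((v i : ℝ) + 1) / M) (fun i => ((v' i : ℝ) + 1) / M))
    (ε : ℝ) (hε : 0 < ε) :
    ∀ᶠ N : ℕ in atTop, |S2 s h b m (lamY D N M Y) (lamY D N M Y') - N / (primorial D : ℕ) * XX D N ^ k * Real.log N *
      T2 M (fun _ => 1 / (M : ℝ)) m Y Y'| ≤ N / (primorial D : ℕ) * XX D N ^ k * Real.log N *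
        (r * r' * (C ^ (k + 1) * (Real.exp (6 * (k : ℝ) ^ 2 / D) + Real.exp (2 ^ (k + 2) / D) - 2)) + ε) := by
  classical
  have hW : (0 : ℝ) < (primorial D : ℕ) := by exact_mod_cast primorial_pos D
  have hφ : (0 : ℝ) < (primorial D).totient := by exact_mod_cast Nat.totient_pos.2 (primorial_pos D)
  have hs : 0 ≤ r := hY.s_nonneg
  have hs' : 0 ≤ r' := hY'.s_nonneg
  have hEH' : ∀ t ∈ boxes M Y, ∀ t' ∈ boxes M Y', EH s h (primorial D) b m t t' := by
    intro t ht t' ht'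
    obtain ⟨v, ⟨_, hv⟩, rfl⟩ := mem_boxes.1 ht
    obtain ⟨v', ⟨_, hv'⟩, rfl⟩ := mem_boxes.1 ht'
    exact hEH v hv v' hv'
  have e1 := (T2_lim D M hD hM m Y Y').eventually (Metric.ball_mem_nhds _ (show (0 : ℝ) < ε / 2 by linarith))
  set n0 : ℝ := ((boxes M Y).card : ℝ) * (boxes M Y').card with hn0
  -- the box errors
  have e2 := box_sum s h (primorial D) b m (boxes M Y) (boxes M Y') hEH' (2 * k)
  have e3 : Tendsto (fun N : ℕ => Real.log N ^ (k + 1)) atTop atTop :=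
    (tendsto_pow_atTop (by omega)).comp (Real.tendsto_log_atTop.comp tendsto_natCast_atTop_atTop)
  have e4 := e3.eventually_ge_atTop (r * r' * C ^ (2 * k) * n0 /
    ((ε / 2) / (primorial D : ℕ) * ((primorial D).totient / (primorial D : ℕ) : ℝ) ^ k))
  filter_upwards [e1, e2, e4, eventually_gt_atTop D, eventually_ge_atTop 2] with N h1 h2 h4 hN hN2
  have hN0 : (0 : ℝ) < N := by exact_mod_cast (by omega : 0 < N)
  have hlog : 0 < Real.log N := Real.log_pos (by exact_mod_cast hN2)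
  have hX := XX_pos D N hN2
  have hXl := XX_le_log D N (by omega)
  have hP := hC N hN
  have hP1 := PP_ge (qq D N) (MT.qq_ge D N hD)
  have hB : 0 < N / ((primorial D : ℕ) : ℝ) := div_pos hN0 hW
  have hXk : 0 < XX D N ^ k := pow_pos hX k
  have hX1 := XX_scale D N k
  have a1 := S2_err s h D N b hD hL m (boxes M Y) (boxes M Y') (boxes_le hM) (boxes_le hM)
    (r * PP (qq D N) ^ k) (r' * PP (qq D N) ^ k) (lamY D N M Y) (lamY D N M Y')
    (lamY_le D N M hD r Y hY) (lamY_le D N M hD r' Y' hY')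
    (lamY_boxes D N M hD hN2 hM r Y hY) (lamY_boxes D N M hD hN2 hM r' Y' hY')
  have a2 := alg2 m (qq D N) (MT.qq_ge D N hD) (cell M) M r r' Y Y' hY hY'
  rw [T2_scale M _ m Y Y' _ hX.ne'] at a2
  have hPk : PP (qq D N) ^ (k + 1) ≤ C ^ (k + 1) * XX D N ^ (k + 1) := by
    rw [← mul_pow]; exact pow_le_pow_left₀ (by linarith) hP _
  -- error of the algebraic part
  have a5 : r * r' * (PP (qq D N) ^ (k + 1) * (Real.exp (3 * (k : ℝ) ^ 2 * EE (qq D N)) +
      Real.exp (2 ^ (k + 1) * EE (qq D N)) - 2)) ≤ XX D N ^ (k + 1) *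
      (r * r' * (C ^ (k + 1) * (Real.exp (6 * (k : ℝ) ^ 2 / D) + Real.exp (2 ^ (k + 2) / D) - 2))) := by
    have c1 := EE_exp D N hD (3 * (k : ℝ) ^ 2) (by positivity)
    have c1' := EE_exp D N hD ((2 : ℝ) ^ (k + 1)) (by positivity)
    have c2 : 3 * (k : ℝ) ^ 2 * (2 / D) = 6 * (k : ℝ) ^ 2 / D := by ring
    have c2' : (2 : ℝ) ^ (k + 1) * (2 / D) = 2 ^ (k + 2) / D := by ring
    rw [c2] at c1
    rw [c2'] at c1'
    have hE := EE_nonneg (qq D N)
    have c3 : 0 ≤ Real.exp (3 * (k : ℝ) ^ 2 * EE (qq D N)) + Real.exp (2 ^ (k + 1) * EE (qq D N)) - 2 := by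
      have d1 := Real.add_one_le_exp (3 * (k : ℝ) ^ 2 * EE (qq D N))
      have d2 := Real.add_one_le_exp (2 ^ (k + 1) * EE (qq D N))
      have d3 : 0 ≤ 3 * (k : ℝ) ^ 2 * EE (qq D N) := by positivity
      have d4 : 0 ≤ 2 ^ (k + 1) * EE (qq D N) := by positivity
      linarith
    calc _ ≤ r * r' * (C ^ (k + 1) * XX D N ^ (k + 1) *
          (Real.exp (6 * (k : ℝ) ^ 2 / D) + Real.exp (2 ^ (k + 2) / D) - 2)) := by
          refine mul_le_mul_of_nonneg_left ?_ (by positivity)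
          exact mul_le_mul hPk (by linarith) c3 (by positivity)
      _ = _ := by ring
  -- box error
  have a6 : (r * PP (qq D N) ^ k) * (r' * PP (qq D N) ^ k) * ∑ t ∈ boxes M Y, ∑ t' ∈ boxes M Y',
      BoxErr s h (primorial D) b N m t t' ≤
      N / (primorial D : ℕ) * XX D N ^ k * Real.log N * (ε / 2) := by
    have hP2 : PP (qq D N) ^ (2 * k) ≤ C ^ (2 * k) * Real.log N ^ (2 * k) := by
      rw [← mul_pow]
      exact pow_le_pow_left₀ (by linarith) (hP.trans (mul_le_mul_of_nonneg_left hXl hC0.le)) _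
    have hn0' : 0 ≤ n0 := by rw [hn0]; positivity
    calc _ ≤ (r * PP (qq D N) ^ k) * (r' * PP (qq D N) ^ k) * (n0 * (N / Real.log N ^ (2 * k))) :=
          mul_le_mul_of_nonneg_left h2 (by positivity)
      _ = r * r' * PP (qq D N) ^ (2 * k) * (n0 * (N / Real.log N ^ (2 * k))) := by ring
      _ ≤ r * r' * (C ^ (2 * k) * Real.log N ^ (2 * k)) * (n0 * (N / Real.log N ^ (2 * k))) := by
          refine mul_le_mul_of_nonneg_right (mul_le_mul_of_nonneg_left hP2 (by positivity)) (by positivity)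
      _ = (r * r' * C ^ (2 * k) * n0) * N := by field_simp
      _ ≤ (Real.log N ^ (k + 1) * ((ε / 2) / (primorial D : ℕ) *
            ((primorial D).totient / (primorial D : ℕ) : ℝ) ^ k)) * N := by
          refine mul_le_mul_of_nonneg_right ?_ hN0.le
          rwa [div_le_iff₀ (by positivity)] at h4
      _ = _ := by
          unfold XX
          rw [mul_pow, pow_succ]
          ring
  have hBφ : 0 < N / ((primorial D).totient : ℝ) := div_pos hN0 hφ
  have h1' : |T2 M (fun j => VV (qq D N) (cell M) j / XX D N) m Y Y' - T2 M (fun _ => 1 / (M : ℝ)) m Y Y'| ≤ ε / 2 := by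
    rw [Real.dist_eq] at h1
    exact h1.le
  have a7 : |N / ((primorial D).totient : ℝ) * form (fun p => K2 m (qq D N p)) (lamY D N M Y) (lamY D N M Y') -
      N / (primorial D : ℕ) * XX D N ^ k * Real.log N * T2 M (fun _ => 1 / (M : ℝ)) m Y Y'| ≤
      N / (primorial D : ℕ) * XX D N ^ k * Real.log N *
        (r * r' * (C ^ (k + 1) * (Real.exp (6 * (k : ℝ) ^ 2 / D) + Real.exp (2 ^ (k + 2) / D) - 2)) + ε / 2) := by
    rw [← hX1]
    have d1 : N / ((primorial D).totient : ℝ) * form (fun p => K2 m (qq D N p)) (lamY D N M Y) (lamY D N M Y') -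
        N / ((primorial D).totient : ℝ) * XX D N ^ (k + 1) * T2 M (fun _ => 1 / (M : ℝ)) m Y Y' =
        N / ((primorial D).totient : ℝ) * ((form (fun p => K2 m (qq D N p)) (lamY D N M Y) (lamY D N M Y') -
          XX D N ^ (k + 1) * T2 M (fun j => VV (qq D N) (cell M) j / XX D N) m Y Y') +
          XX D N ^ (k + 1) * (T2 M (fun j => VV (qq D N) (cell M) j / XX D N) m Y Y' -
            T2 M (fun _ => 1 / (M : ℝ)) m Y Y')) := by ring
    rw [d1, abs_mul, abs_of_pos hBφ, mul_assoc (N / ((primorial D).totient : ℝ))]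
    refine mul_le_mul_of_nonneg_left ?_ hBφ.le
    refine (abs_add_le _ _).trans ?_
    rw [mul_add]
    refine add_le_add (a2.trans a5) ?_
    rw [abs_mul, abs_of_pos (pow_pos hX _)]
    exact mul_le_mul_of_nonneg_left h1' (pow_pos hX _).le
  calc _ ≤ |S2 s h b m (lamY D N M Y) (lamY D N M Y') - N / ((primorial D).totient : ℝ) *
        form (fun p => K2 m (qq D N p)) (lamY D N M Y) (lamY D N M Y')| + |N / ((primorial D).totient : ℝ) *
        form (fun p => K2 m (qq D N p)) (lamY D N M Y) (lamY D N M Y') -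
        N / (primorial D : ℕ) * XX D N ^ k * Real.log N * T2 M (fun _ => 1 / (M : ℝ)) m Y Y'| := abs_sub_le _ _ _
    _ ≤ _ := add_le_add (a1.trans a6) a7
    _ = _ := by ring

theorem quad_errW (s h : Fin k → ℕ) (D N b : ℕ) (hL : SL.Large s h D) (x y : (Pr D N → Col k) → ℝ) :
    |∑ n ∈ rng (primorial D) b N, (∑ a, x a * SL.ind s h a n) * (∑ a, y a * SL.ind s h a n) -
      N / (primorial D : ℕ) * form (fun p => K1 (qq D N p)) x y| ≤ (∑ a, |x a|) * (∑ a, |y a|) := by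
  have h1 : ∑ n ∈ rng (primorial D) b N, (∑ a, x a * SL.ind s h a n) * (∑ a, y a * SL.ind s h a n) =
      ∑ a : Pr D N → Col k, ∑ a' : Pr D N → Col k,
      x a * y a' * ∑ n ∈ rng (primorial D) b N, SL.ind s h a n * SL.ind s h a' n := by
    have hn : ∀ n, (∑ a : Pr D N → Col k, x a * SL.ind s h a n) * (∑ a : Pr D N → Col k, y a * SL.ind s h a n) =
        ∑ a : Pr D N → Col k, ∑ a' : Pr D N → Col k, x a * y a' * (SL.ind s h a n * SL.ind s h a' n) := by
      intro n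
      rw [sum_mul_sum]
      exact sum_congr rfl fun a _ => sum_congr rfl fun a' _ => by ring
    simp only [hn, mul_sum]
    rw [sum_comm]
    refine sum_congr rfl fun a _ => ?_
    rw [sum_comm]
  have h2 : N / (primorial D : ℕ) * form (fun p => K1 (qq D N p)) x y =
      ∑ a : Pr D N → Col k, ∑ a' : Pr D N → Col k,
      x a * y a' * (N / (primorial D : ℕ) * ∏ p, K1 (qq D N p) (a p) (a' p)) := by
    unfold form
    rw [mul_sum]
    refine sum_congr rfl fun a _ => ?_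
    rw [mul_sum]
    refine sum_congr rfl fun a' _ => by ring
  rw [h1, h2, ← sum_sub_distrib, sum_mul_sum]
  refine le_trans (abs_sum_le_sum_abs _ _) (sum_le_sum fun a _ => ?_)
  rw [← sum_sub_distrib]
  refine le_trans (abs_sum_le_sum_abs _ _) (sum_le_sum fun a' _ => ?_)
  rw [← mul_sub, abs_mul, abs_mul]
  calc |x a| * |y a'| * _ ≤ |x a| * |y a'| * 1 :=
        mul_le_mul_of_nonneg_left (SL.count_K1 s h D N b hL a a') (by positivity)
    _ = _ := mul_one _

/-- the divisor sum of `Y` -/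
noncomputable def LamS (s h : Fin k → ℕ) (D N M : ℕ) (Y : (Fin k → ℕ) → ℝ) (n : ℕ) : ℝ :=
  LamW s h (lamY D N M Y) n

/-- the majorant sum `Z0 · Λ^{(m)}(n) ρ(s_m n + h_m)` -/
noncomputable def Lam3 (s h : Fin k → ℕ) (D N M : ℕ) (m : Fin k) (Y : (Fin k → ℕ) → ℝ) (L : ℕ) (n : ℕ) : ℝ :=
  ∑ a : Pr D N → Col k, lam3 m (qq D N) (cell M) Y L a * SL.ind s h a n

theorem Lam3_prime (s h : Fin k → ℕ) (D N M : ℕ) (m : Fin k) (hsm : 0 < s m) (Y : (Fin k → ℕ) → ℝ) (L n : ℕ)
    (hn : N ≤ n) (hp : (s m * n + h m).Prime) :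
    Lam3 s h D N M m Y L n = Z0 (qq D N) (cell M) L * LamS s h D N M Y n := by
  unfold Lam3 LamS LamW
  rw [Finset.mul_sum]
  refine Finset.sum_congr rfl fun a _ => ?_
  by_cases ha : ∀ p, a p ≠ some m
  · rw [SHPT_lam3 m (qq D N) (cell M) Y L a ha, lamY]
    ring
  · push Not at ha
    obtain ⟨p, hpa⟩ := ha
    have h0 : SL.ind s h a n = 0 := by
      unfold SL.ind
      rw [if_neg]
      intro hall
      have hdvd := hall p m hpa
      have hmem := p.2
      unfold PrS at hmem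
      rw [Finset.mem_filter, Finset.mem_range] at hmem
      have hpp : (p : ℕ).Prime := hmem.2.1
      rcases (Nat.dvd_prime hp).1 hdvd with h1 | h1
      · exact hpp.one_lt.ne' h1
      · have h2 : (p : ℕ) < N := hmem.1
        have h3 := Nat.le_mul_of_pos_left n hsm
        omega
    rw [h0]
    ring

/-- the normalised majorant sum -/
noncomputable def S3 {S : Type} [Fintype S] (sl h : Fin k → ℕ) (D M b N : ℕ) (m : Fin k)
    (Y : S → (Fin k → ℕ) → ℝ) (w : S → ℝ) (L : S → ℕ) : ℝ :=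
  ∑ n ∈ rng (primorial D) b N, (∑ i, w i / Z0 (qq D N) (cell M) (L i) * Lam3 sl h D N M m (Y i) (L i) n) ^ 2

theorem S3_asym {S : Type} [Fintype S] [DecidableEq S] (sl h : Fin k → ℕ) (D M b : ℕ) (hD : 2 ≤ D) (hM : 1 ≤ M)
    (hL : SL.Large sl h D) (m : Fin k) (s θ C : ℝ) (Y : S → (Fin k → ℕ) → ℝ) (hY : ∀ i, Grid M s (Y i)) (w : S → ℝ)
    (L : S → ℕ) (hL1 : ∀ i, 1 ≤ L i) (hL2 : ∀ i, L i ≤ M)
    (hθ : ∀ i v, Y i v ≠ 0 → ∑ j, (if j = m then (L i : ℝ) / M else ((v j : ℝ) + 1) / M) ≤ θ) (hθ2 : θ < 1 / 2)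
    (horth : ∀ i j, i ≠ j → ∀ V : ℕ → ℝ, T2 M V m (Y i) (Y j) = 0)
    (hC0 : 0 < C) (hC : ∀ N, D < N → PP (qq D N) ≤ C * XX D N) (ε : ℝ) (hε : 0 < ε) :
    ∀ᶠ N : ℕ in atTop, S3 sl h D M b N m Y w L ≤ N / (primorial D : ℕ) * XX D N ^ k *
      (∑ i, w i ^ 2 * ((M : ℝ) / L i) * T2 M (fun _ => 1 / (M : ℝ)) m (Y i) (Y i) +
        (∑ i, |w i|) ^ 2 * ((2 * M) ^ 2 * (s ^ 2 * (C ^ (k + 2) *
          (Real.exp (16 * ((k : ℝ) + 1) ^ 2 / D) + Real.exp (2 ^ (k + 2) / D) - 2)))) + ε) := by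
  classical
  rcases isEmpty_or_nonempty S with hS | hS
  · refine Eventually.of_forall fun N => ?_
    have : S3 sl h D M b N m Y w L = 0 := by
      unfold S3
      refine Finset.sum_eq_zero fun n _ => ?_
      simp
    rw [this]
    have h1 : 0 ≤ N / ((primorial D : ℕ) : ℝ) * XX D N ^ k := by
      unfold XX
      have : 0 ≤ Real.log N := Real.log_natCast_nonneg N
      positivity
    refine mul_nonneg h1 ?_
    simp only [Finset.univ_eq_empty, Finset.sum_empty]
    nlinarith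
  obtain ⟨i0⟩ := hS
  have hW : (0 : ℝ) < (primorial D : ℕ) := by exact_mod_cast primorial_pos D
  have hM0 : (0 : ℝ) < M := by exact_mod_cast hM
  have hs : 0 ≤ s := (hY i0).s_nonneg
  set R : ℝ := (∑ i, |w i|) ^ 2 with hR
  have hR0 : 0 ≤ R := by positivity
  -- eventual statements
  have e1 : ∀ᶠ N : ℕ in atTop, ∀ i, 1 / (2 * M) ≤ Z0 (qq D N) (cell M) (L i) / XX D N := by
    rw [Filter.eventually_all]
    intro i
    have h1 : 1 / (2 * (M : ℝ)) < (L i : ℝ) / M := by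
      rw [div_lt_div_iff₀ (by positivity) hM0]
      have : (1 : ℝ) ≤ L i := by exact_mod_cast hL1 i
      nlinarith
    filter_upwards [(Z0_lim D M (L i) hD hM (hL2 i)).eventually_const_lt h1] with N hN using hN.le
  have e2 : Tendsto (fun N : ℕ => ∑ i, w i ^ 2 * (T2 M (fun j => VV (qq D N) (cell M) j / XX D N) m (Y i) (Y i) /
      (Z0 (qq D N) (cell M) (L i) / XX D N))) atTop
      (𝓝 (∑ i, w i ^ 2 * (T2 M (fun _ => 1 / (M : ℝ)) m (Y i) (Y i) / ((L i : ℝ) / M)))) := by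
    refine tendsto_finsetSum _ fun i _ => Tendsto.const_mul _ (Tendsto.div (T2_lim D M hD hM m _ _)
      (Z0_lim D M (L i) hD hM (hL2 i)) ?_)
    have : (1 : ℝ) ≤ L i := by exact_mod_cast hL1 i
    positivity
  have e3 := e2.eventually_lt_const (show ∑ i, w i ^ 2 * (T2 M (fun _ => 1 / (M : ℝ)) m (Y i) (Y i) / ((L i : ℝ) / M)) <
    ∑ i, w i ^ 2 * (T2 M (fun _ => 1 / (M : ℝ)) m (Y i) (Y i) / ((L i : ℝ) / M)) + ε / 2 by linarith)
  have e4 := (logpow_small (R * (2 * M) ^ 2 * ((M : ℝ) ^ k * s * C ^ (k + 1)) ^ 2 * (primorial D : ℕ)) k (2 * θ - 1)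
    (by linarith)).eventually_lt_const (show (0 : ℝ) < ε / 2 by linarith)
  filter_upwards [e1, e3, e4, eventually_gt_atTop D, eventually_ge_atTop 2] with N h1 h3 h4 hN hN2
  have hN0 : (0 : ℝ) < N := by exact_mod_cast (by omega : 0 < N)
  have hX := XX_pos D N hN2
  have hXl := XX_le_log D N (by omega)
  have hP := hC N hN
  have hP1 := PP_ge (qq D N) (MT.qq_ge D N hD)
  have hB : 0 < N / ((primorial D : ℕ) : ℝ) := div_pos hN0 hW
  have hXk : 0 < XX D N ^ k := pow_pos hX k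
  set q := qq D N with hq
  set cl : Finset (Pr D N) → ℕ := cell M with hcl
  have hZ : ∀ i, XX D N / (2 * M) ≤ Z0 q cl (L i) := by
    intro i
    have := h1 i
    rw [le_div_iff₀ hX] at this
    calc XX D N / (2 * M) = 1 / (2 * M) * XX D N := by ring
      _ ≤ _ := this
  have hZ0 : ∀ i, 0 < Z0 q cl (L i) := fun i => lt_of_lt_of_le (by positivity) (hZ i)
  have hZi : ∀ i, 1 / Z0 q cl (L i) ≤ 2 * M / XX D N := by
    intro i
    rw [div_le_div_iff₀ (hZ0 i) hX]
    have := hZ i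
    rw [div_le_iff₀ (by positivity)] at this
    linarith
  -- expand the square
  have b1 : S3 sl h D M b N m Y w L = ∑ i, ∑ j, (w i / Z0 q cl (L i)) * (w j / Z0 q cl (L j)) *
      ∑ n ∈ rng (primorial D) b N, Lam3 sl h D N M m (Y i) (L i) n * Lam3 sl h D N M m (Y j) (L j) n := by
    unfold S3
    have hn : ∀ n, (∑ i, w i / Z0 q cl (L i) * Lam3 sl h D N M m (Y i) (L i) n) ^ 2 =
        ∑ i, ∑ j, (w i / Z0 q cl (L i)) * (w j / Z0 q cl (L j)) *
          (Lam3 sl h D N M m (Y i) (L i) n * Lam3 sl h D N M m (Y j) (L j) n) := by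
      intro n
      rw [sq, Finset.sum_mul_sum]
      exact Finset.sum_congr rfl fun i _ => Finset.sum_congr rfl fun j _ => by ring
    rw [Finset.sum_congr rfl fun n _ => hn n, Finset.sum_comm]
    refine Finset.sum_congr rfl fun i _ => ?_
    rw [Finset.sum_comm]
    refine Finset.sum_congr rfl fun j _ => ?_
    rw [Finset.mul_sum]
  -- the error term for the algebraic part
  set E3 : ℝ := PP q ^ (k + 2) * (Real.exp (8 * ((k : ℝ) + 1) ^ 2 * EE q) + Real.exp (2 ^ (k + 1) * EE q) - 2) with hE3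
  have hE := EE_nonneg q
  have hE30 : 0 ≤ Real.exp (8 * ((k : ℝ) + 1) ^ 2 * EE q) + Real.exp (2 ^ (k + 1) * EE q) - 2 := by
    have d1 := Real.add_one_le_exp (8 * ((k : ℝ) + 1) ^ 2 * EE q)
    have d2 := Real.add_one_le_exp (2 ^ (k + 1) * EE q)
    have d3 : 0 ≤ 8 * ((k : ℝ) + 1) ^ 2 * EE q := by positivity
    have d4 : 0 ≤ 2 ^ (k + 1) * EE q := by positivity
    linarith
  set F3 : ℝ := C ^ (k + 2) * (Real.exp (16 * ((k : ℝ) + 1) ^ 2 / D) + Real.exp (2 ^ (k + 2) / D) - 2) with hF3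
  have hEF : E3 ≤ XX D N ^ (k + 2) * F3 := by
    have c1 := EE_exp D N hD (8 * ((k : ℝ) + 1) ^ 2) (by positivity)
    have c1' := EE_exp D N hD ((2 : ℝ) ^ (k + 1)) (by positivity)
    have c2 : 8 * ((k : ℝ) + 1) ^ 2 * (2 / D) = 16 * ((k : ℝ) + 1) ^ 2 / D := by ring
    have c2' : (2 : ℝ) ^ (k + 1) * (2 / D) = 2 ^ (k + 2) / D := by ring
    rw [c2] at c1
    rw [c2'] at c1'
    have hPk : PP q ^ (k + 2) ≤ C ^ (k + 2) * XX D N ^ (k + 2) := by
      rw [← mul_pow]; exact pow_le_pow_left₀ (by linarith) hP _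
    rw [hE3, hF3]
    calc _ ≤ (C ^ (k + 2) * XX D N ^ (k + 2)) *
          (Real.exp (16 * ((k : ℝ) + 1) ^ 2 / D) + Real.exp (2 ^ (k + 2) / D) - 2) :=
          mul_le_mul hPk (by linarith) hE30 (by positivity)
      _ = _ := by ring
  have hE3n : 0 ≤ E3 := by rw [hE3]; positivity
  -- each pair
  have b2 : ∀ i j, |∑ n ∈ rng (primorial D) b N, Lam3 sl h D N M m (Y i) (L i) n * Lam3 sl h D N M m (Y j) (L j) n -
      N / (primorial D : ℕ) * (T2 M (VV q cl) m (Y i) (Y j) * Z0 q cl (min (L i) (L j)))| ≤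
      N / (primorial D : ℕ) * (s * s * E3) + ((M : ℝ) ^ k * (N : ℝ) ^ θ * (s * PP q ^ (k + 1))) ^ 2 := by
    intro i j
    have c1 := quad_errW sl h D N b hL (lam3 m q cl (Y i) (L i)) (lam3 m q cl (Y j) (L j))
    have c2 := alg3 m q (MT.qq_ge D N hD) cl M s s (Y i) (Y j) (hY i) (hY j) (L i) (L j)
    have c3 := sum_lam3 D N M hD hN2 hM m s θ (Y i) (hY i) (L i) (hθ i)
    have c4 := sum_lam3 D N M hD hN2 hM m s θ (Y j) (hY j) (L j) (hθ j)
    have c5 : (∑ a, |lam3 m q cl (Y i) (L i) a|) * (∑ a, |lam3 m q cl (Y j) (L j) a|) ≤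
        ((M : ℝ) ^ k * (N : ℝ) ^ θ * (s * PP q ^ (k + 1))) ^ 2 := by
      rw [sq]
      refine mul_le_mul c3 c4 (Finset.sum_nonneg fun _ _ => abs_nonneg _) ?_
      have : 0 ≤ PP q := by linarith
      positivity
    have c6 := mul_le_mul_of_nonneg_left c2 hB.le
    rw [← abs_of_pos hB, ← abs_mul, abs_of_pos hB, mul_sub] at c6
    calc _ ≤ |∑ n ∈ rng (primorial D) b N, Lam3 sl h D N M m (Y i) (L i) n * Lam3 sl h D N M m (Y j) (L j) n -
          N / (primorial D : ℕ) * form (fun p => K1 (qq D N p)) (lam3 m q cl (Y i) (L i)) (lam3 m q cl (Y j) (L j))| +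
          |N / (primorial D : ℕ) * form (fun p => K1 (qq D N p)) (lam3 m q cl (Y i) (L i)) (lam3 m q cl (Y j) (L j)) -
          N / (primorial D : ℕ) * (T2 M (VV q cl) m (Y i) (Y j) * Z0 q cl (min (L i) (L j)))| := abs_sub_le _ _ _
      _ ≤ _ := by
          rw [add_comm (N / ((primorial D : ℕ) : ℝ) * (s * s * E3))]
          exact add_le_add (c1.trans c5) c6
  set err : ℝ := N / (primorial D : ℕ) * (s * s * E3) + ((M : ℝ) ^ k * (N : ℝ) ^ θ * (s * PP q ^ (k + 1))) ^ 2 with herr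
  have herr0 : 0 ≤ err := (abs_nonneg _).trans (b2 i0 i0)
  -- total
  have b3 : S3 sl h D M b N m Y w L ≤ N / (primorial D : ℕ) *
      (∑ i, w i ^ 2 * (T2 M (VV q cl) m (Y i) (Y i) / Z0 q cl (L i))) + R * (2 * M / XX D N) ^ 2 * err := by
    have c1 : ∀ i j, (w i / Z0 q cl (L i)) * (w j / Z0 q cl (L j)) *
        ∑ n ∈ rng (primorial D) b N, Lam3 sl h D N M m (Y i) (L i) n * Lam3 sl h D N M m (Y j) (L j) n ≤
        (w i / Z0 q cl (L i)) * (w j / Z0 q cl (L j)) *
          (N / (primorial D : ℕ) * (T2 M (VV q cl) m (Y i) (Y j) * Z0 q cl (min (L i) (L j)))) +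
        (|w i| * |w j|) * (2 * M / XX D N) ^ 2 * err := by
      intro i j
      have d1 : (w i / Z0 q cl (L i)) * (w j / Z0 q cl (L j)) *
        (∑ n ∈ rng (primorial D) b N, Lam3 sl h D N M m (Y i) (L i) n * Lam3 sl h D N M m (Y j) (L j) n -
          N / (primorial D : ℕ) * (T2 M (VV q cl) m (Y i) (Y j) * Z0 q cl (min (L i) (L j)))) ≤
          (|w i| * |w j|) * (2 * M / XX D N) ^ 2 * err := by
        refine (le_abs_self _).trans ?_
        rw [abs_mul, abs_mul, abs_div, abs_div, abs_of_pos (hZ0 i), abs_of_pos (hZ0 j)]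
        refine mul_le_mul ?_ (b2 i j) (abs_nonneg _) (by positivity)
        rw [div_eq_mul_one_div, div_eq_mul_one_div |w j|]
        calc |w i| * (1 / Z0 q cl (L i)) * (|w j| * (1 / Z0 q cl (L j)))
            = (|w i| * |w j|) * ((1 / Z0 q cl (L i)) * (1 / Z0 q cl (L j))) := by ring
          _ ≤ (|w i| * |w j|) * ((2 * M / XX D N) * (2 * M / XX D N)) := by
              refine mul_le_mul_of_nonneg_left ?_ (by positivity)
              exact mul_le_mul (hZi i) (hZi j) (by have := hZ0 j; positivity) (by positivity)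
          _ = _ := by ring
      linarith
    rw [b1]
    refine (Finset.sum_le_sum fun i _ => Finset.sum_le_sum fun j _ => c1 i j).trans (le_of_eq ?_)
    simp only [Finset.sum_add_distrib]
    congr 1
    · rw [Finset.mul_sum]
      refine Finset.sum_congr rfl fun i _ => ?_
      rw [Finset.sum_eq_single i]
      · rw [min_self]
        have := (hZ0 i).ne'
        field_simp
      · intro j _ hj
        rw [horth i j hj.symm]
        ring
      · intro hi; exact absurd (Finset.mem_univ i) hi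
    · have hRR : ∑ i, ∑ j, |w i| * |w j| = R := by
        rw [hR, sq (∑ i, |w i|), Finset.sum_mul_sum]
      simp only [← Finset.sum_mul]
      rw [hRR]
  -- main term
  have b4 : ∑ i, w i ^ 2 * (T2 M (VV q cl) m (Y i) (Y i) / Z0 q cl (L i)) ≤ XX D N ^ k *
      (∑ i, w i ^ 2 * ((M : ℝ) / L i) * T2 M (fun _ => 1 / (M : ℝ)) m (Y i) (Y i) + ε / 2) := by
    have c1 : ∑ i, w i ^ 2 * (T2 M (VV q cl) m (Y i) (Y i) / Z0 q cl (L i)) = XX D N ^ k *
        ∑ i, w i ^ 2 * (T2 M (fun j => VV q cl j / XX D N) m (Y i) (Y i) / (Z0 q cl (L i) / XX D N)) := by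
      rw [Finset.mul_sum]
      refine Finset.sum_congr rfl fun i _ => ?_
      rw [T2_scale M (VV q cl) m (Y i) (Y i) (XX D N) hX.ne']
      have := (hZ0 i).ne'
      have := hX.ne'
      field_simp
      ring
    have c2 : ∑ i, w i ^ 2 * (T2 M (fun _ => 1 / (M : ℝ)) m (Y i) (Y i) / ((L i : ℝ) / M)) =
        ∑ i, w i ^ 2 * ((M : ℝ) / L i) * T2 M (fun _ => 1 / (M : ℝ)) m (Y i) (Y i) := by
      refine Finset.sum_congr rfl fun i _ => ?_
      have : (L i : ℝ) ≠ 0 := by have := hL1 i; positivity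
      field_simp
    rw [c1]
    rw [c2] at h3
    exact mul_le_mul_of_nonneg_left h3.le hXk.le
  -- the error
  have b5 : R * (2 * M / XX D N) ^ 2 * err ≤ N / (primorial D : ℕ) * XX D N ^ k *
      (R * ((2 * M) ^ 2 * (s ^ 2 * F3)) + ε / 2) := by
    have c1 : R * (2 * M / XX D N) ^ 2 * (N / (primorial D : ℕ) * (s * s * E3)) ≤
        N / (primorial D : ℕ) * XX D N ^ k * (R * ((2 * M) ^ 2 * (s ^ 2 * F3))) := by
      calc _ ≤ R * (2 * M / XX D N) ^ 2 * (N / (primorial D : ℕ) * (s * s * (XX D N ^ (k + 2) * F3))) := by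
            gcongr
        _ = _ := by
            have := hX.ne'
            field_simp
            ring
    have c2 : R * (2 * M / XX D N) ^ 2 * ((M : ℝ) ^ k * (N : ℝ) ^ θ * (s * PP q ^ (k + 1))) ^ 2 ≤
        N / (primorial D : ℕ) * XX D N ^ k * (ε / 2) := by
      have hPk : PP q ^ (k + 1) ≤ C ^ (k + 1) * XX D N ^ (k + 1) := by
        rw [← mul_pow]; exact pow_le_pow_left₀ (by linarith) hP _
      have d3 : ((N : ℝ) ^ θ) ^ 2 = N * (N : ℝ) ^ (2 * θ - 1) := by
        rw [← Real.rpow_natCast, ← Real.rpow_mul hN0.le, Real.rpow_sub hN0, Real.rpow_one]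
        push_cast
        rw [mul_comm θ 2]
        field_simp
      have d4 : XX D N ^ k ≤ Real.log N ^ k := pow_le_pow_left₀ hX.le hXl k
      calc _ ≤ R * (2 * M / XX D N) ^ 2 * ((M : ℝ) ^ k * (N : ℝ) ^ θ * (s * (C ^ (k + 1) * XX D N ^ (k + 1)))) ^ 2 := by
            have : 0 ≤ PP q := by linarith
            gcongr
        _ = N / (primorial D : ℕ) * XX D N ^ k * ((R * (2 * M) ^ 2 * ((M : ℝ) ^ k * s * C ^ (k + 1)) ^ 2 *
              (primorial D : ℕ)) * XX D N ^ k * (N : ℝ) ^ (2 * θ - 1)) := by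
            have := hX.ne'
            rw [mul_pow, mul_pow ((M : ℝ) ^ k), d3]
            field_simp
            ring
        _ ≤ N / (primorial D : ℕ) * XX D N ^ k * ((R * (2 * M) ^ 2 * ((M : ℝ) ^ k * s * C ^ (k + 1)) ^ 2 *
              (primorial D : ℕ)) * Real.log N ^ k * (N : ℝ) ^ (2 * θ - 1)) := by
            gcongr
        _ ≤ _ := mul_le_mul_of_nonneg_left h4.le (by positivity)
    rw [herr, mul_add, mul_add]
    exact add_le_add c1 c2
  calc S3 sl h D M b N m Y w L ≤ _ := b3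
    _ ≤ N / (primorial D : ℕ) * (XX D N ^ k *
      (∑ i, w i ^ 2 * ((M : ℝ) / L i) * T2 M (fun _ => 1 / (M : ℝ)) m (Y i) (Y i) + ε / 2)) +
      N / (primorial D : ℕ) * XX D N ^ k * (R * ((2 * M) ^ 2 * (s ^ 2 * F3)) + ε / 2) :=
        add_le_add (mul_le_mul_of_nonneg_left b4 hB.le) b5
    _ = _ := by ring

end Pool.Agent.S43
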