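import Pool.Agent.SL4.AsmW

/-! The bilinear estimate for the moduli `W q` for general classes of `beta` (helper35, after helper64's `AsmW`). -/

set_option autoImplicit false

namespace Pool.Agent.S43

open Finset Pool.Agent.BGG Pool.Agent.SL

/-- splitting by the class of `m` modulo `W` -/
private theorem ASMV_dif (X Y : ℕ) (α β : ℕ → ℝ) (W r d : ℕ) (a b : ℤ) (hW : 1 ≤ W)
    (hWr : W.Coprime r) :
    Disp.Dif X Y α β (W * r) d a b =
      ∑ u ∈ range W, Disp.Dif X Y (fun m => if m % W = u then α m else 0)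
        (fun n => if (W : ℤ) ∣ ((u * n : ℕ) : ℤ) - a then β n else 0) r d a b := by
  classical
  unfold Disp.Dif
  conv_rhs => rw [sum_comm]
  apply sum_congr rfl
  intro m _
  conv_rhs => rw [sum_comm]
  apply sum_congr rfl
  intro n _
  have hmod : m % W ∈ range W := mem_range.mpr (Nat.mod_lt _ (by omega))
  have hdvd : (W : ℤ) ∣ ((m % W * n : ℕ) : ℤ) - a ↔ (W : ℤ) ∣ ((m * n : ℕ) : ℤ) - a := by
    have h1 : (W : ℤ) ∣ ((m * n : ℕ) : ℤ) - ((m % W * n : ℕ) : ℤ) := by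
      have h2 : (W : ℤ) ∣ (m : ℤ) - ((m % W : ℕ) : ℤ) := by
        rw [Int.natCast_mod]
        exact Int.dvd_self_sub_emod
      push_cast
      push_cast at h2
      have h3 : (m : ℤ) * n - m % W * n = (m - m % W) * n := by ring
      rw [h3]
      exact Dvd.dvd.mul_right h2 _
    constructor
    · intro h
      have := dvd_add h1 h
      have h4 : ((m * n : ℕ) : ℤ) - ((m % W * n : ℕ) : ℤ) + (((m % W * n : ℕ) : ℤ) - a) =
          ((m * n : ℕ) : ℤ) - a := by ring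
      rwa [h4] at this
    · intro h
      have := dvd_sub h h1
      have h4 : ((m * n : ℕ) : ℤ) - a - (((m * n : ℕ) : ℤ) - ((m % W * n : ℕ) : ℤ)) =
          ((m % W * n : ℕ) : ℤ) - a := by ring
      rwa [h4] at this
  have hWr' : ∀ z : ℤ, ((W * r : ℕ) : ℤ) ∣ z ↔ (W : ℤ) ∣ z ∧ (r : ℤ) ∣ z := by
    intro z
    push_cast
    constructor
    · intro h
      exact ⟨(Dvd.intro _ rfl).trans h, (Dvd.intro_left _ rfl).trans h⟩
    · rintro ⟨h1, h2⟩
      exact IsCoprime.mul_dvd (Nat.isCoprime_iff_coprime.mpr hWr) h1 h2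
  rw [sum_eq_single_of_mem (m % W) hmod]
  · simp only [hWr', hdvd, if_true]
    by_cases h1 : (W : ℤ) ∣ ((m * n : ℕ) : ℤ) - a
    · simp only [h1, true_and, if_true]
    · simp only [h1, false_and, if_false, mul_zero, zero_mul, sub_zero]
  · intro u _ hu
    show (if m % W = u then α m else 0) * _ * _ = 0
    rw [if_neg (show ¬ m % W = u from fun h => hu h.symm), zero_mul, zero_mul]

private theorem ASMV_sup (M : ℝ) (f : ℕ → ℝ) (P : ℕ → Prop) [DecidablePred P] (h : Disp.Sup M f) :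
    Disp.Sup M (fun n => if P n then f n else 0) := by
  intro m hm
  apply h m
  intro h0
  apply hm
  simp [h0]

private theorem ASMV_cb (x : ℝ) (c : ℕ) (f : ℕ → ℝ) (P : ℕ → Prop) [DecidablePred P]
    (h : Disp.CB x c f) : Disp.CB x c (fun n => if P n then f n else 0) := by
  intro n
  dsimp only
  split_ifs
  · exact h n
  · rw [abs_zero]
    exact (abs_nonneg _).trans (h n)

/-- moduli `W q` with `q` having a large smooth part -/
private theorem ASMV_smth (ν s : ℝ) (hs : 0 < s) (c A B W : ℕ) (hW : 1 ≤ W) : ∃ C : ℝ, 0 ≤ C ∧ ∀ x : ℝ, 2 ≤ x →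
    ∀ M N : ℝ, Disp.Siz ν x M N → ∀ a : ℤ, ∀ α β : ℕ → ℝ, Disp.CB x c α → Disp.CB x c β →
    ∀ Q : Finset ℕ, (∀ q ∈ Q, 1 ≤ q ∧ ((W * q : ℕ) : ℝ) ≤ x ^ (3 / 4 : ℝ) ∧ Squarefree q ∧
      x ^ s < (Disp.smp (Real.log x ^ B) q : ℝ) ∧ IsCoprime a ((W * q : ℕ) : ℤ)) →
      ∑ q ∈ Q, |Dsc2 ⌊4 * M⌋₊ ⌊4 * N⌋₊ α β (W * q) a| ≤ C * x / (Real.log x) ^ A := by
  obtain ⟨C0, hC0⟩ := Disp.trivDsc c
  obtain ⟨C1, hC1⟩ := Disp.rankin s hs (A + C0) B
  have hl2 : 0 < Real.log 2 := Real.log_pos (by norm_num)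
  set T : ℝ := (W.divisors.card : ℝ) with hT
  have hT0 : 0 ≤ T := Nat.cast_nonneg _
  refine ⟨T * (C0 * (1 + 1 / Real.log 2) ^ C0 * |C1|), by positivity, ?_⟩
  intro x hx M N hMN a α β hα hβ Q hQ
  have hxpos : 0 < x := by linarith
  have hx1 : 1 ≤ x := by linarith
  have hLpos : 0 < Real.log x := Real.log_pos (by linarith)
  have hL2 : Real.log 2 ≤ Real.log x := Real.log_le_log (by norm_num) hx
  have hN0 : 0 < N := lt_of_lt_of_le (by positivity) hMN.1
  have h34 : x ^ (3 / 4 : ℝ) ≤ x := by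
    calc x ^ (3 / 4 : ℝ) ≤ x ^ (1 : ℝ) := Real.rpow_le_rpow_of_exponent_le hx1 (by norm_num)
      _ = x := Real.rpow_one x
  have hL1 : 1 + Real.log x ≤ (1 + 1 / Real.log 2) * Real.log x := by
    have h1 : 1 ≤ 1 / Real.log 2 * Real.log x := by
      rw [one_div, inv_mul_eq_div, le_div_iff₀ hl2, one_mul]
      exact hL2
    linarith
  have hC1x : ∑ q ∈ (Icc 1 ⌊x⌋₊).filter
        (fun q : ℕ => Squarefree q ∧ x ^ s < (Disp.smp (Real.log x ^ B) q : ℝ)),
          ((q.divisors.card : ℝ) ^ 2 / q) ≤ |C1| / (Real.log x) ^ (A + C0) := by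
    refine (hC1 x hx).trans ?_
    gcongr
    exact le_abs_self _
  set K : ℝ := T * (C0 * (1 + Real.log x) ^ C0 * x) with hK
  have hK0 : 0 ≤ K := by positivity
  calc ∑ q ∈ Q, |Dsc2 ⌊4 * M⌋₊ ⌊4 * N⌋₊ α β (W * q) a|
      ≤ ∑ q ∈ Q, K * ((q.divisors.card : ℝ) ^ 2 / q) := by
        refine Finset.sum_le_sum fun q hq => ?_
        obtain ⟨hq1, hqx, -, -, hcop⟩ := hQ q hq
        have hq0 : (0 : ℝ) < q := by exact_mod_cast hq1
        have hW0 : (1 : ℝ) ≤ W := by exact_mod_cast hW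
        have h1 := hC0 x hx M N hN0 hMN.2.2.1 hMN.2.2.2 (W * q) (Nat.mul_pos hW hq1) hqx a hcop
          α β hα hβ
        have h2 : (1 : ℝ) ≤ q.divisors.card := by
          exact_mod_cast Finset.card_pos.2 ⟨1, Nat.one_mem_divisors.2 (by omega)⟩
        have h3 : (((W * q).divisors.card : ℕ) : ℝ) ≤ T * (q.divisors.card : ℝ) :=
          BV.tau_mul_le W q (by omega) (by omega)
        have h4 : (C0 : ℝ) * (1 + Real.log x) ^ C0 * x / ((W * q : ℕ) : ℝ) ≤
            C0 * (1 + Real.log x) ^ C0 * x / q := by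
          apply div_le_div_of_nonneg_left (by positivity) hq0
          push_cast
          nlinarith
        calc |Dsc2 ⌊4 * M⌋₊ ⌊4 * N⌋₊ α β (W * q) a|
            ≤ (((W * q).divisors.card : ℕ) : ℝ) *
                (C0 * (1 + Real.log x) ^ C0 * x / ((W * q : ℕ) : ℝ)) := h1
          _ ≤ (T * (q.divisors.card : ℝ)) * (C0 * (1 + Real.log x) ^ C0 * x / q) := by
              gcongr
          _ ≤ (T * (q.divisors.card : ℝ) ^ 2) * (C0 * (1 + Real.log x) ^ C0 * x / q) := by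
              refine mul_le_mul_of_nonneg_right ?_ (by positivity)
              refine mul_le_mul_of_nonneg_left ?_ hT0
              nlinarith
          _ = K * ((q.divisors.card : ℝ) ^ 2 / q) := by rw [hK]; ring
    _ = K * ∑ q ∈ Q, ((q.divisors.card : ℝ) ^ 2 / q) := by rw [Finset.mul_sum]
    _ ≤ K * ∑ q ∈ (Icc 1 ⌊x⌋₊).filter
        (fun q : ℕ => Squarefree q ∧ x ^ s < (Disp.smp (Real.log x ^ B) q : ℝ)),
          ((q.divisors.card : ℝ) ^ 2 / q) := by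
        refine mul_le_mul_of_nonneg_left ?_ hK0
        refine Finset.sum_le_sum_of_subset_of_nonneg ?_ fun q _ _ => by positivity
        intro q hq
        obtain ⟨hq1, hqx, h3, h4, -⟩ := hQ q hq
        rw [Finset.mem_filter, Finset.mem_Icc]
        refine ⟨⟨hq1, Nat.le_floor ?_⟩, h3, h4⟩
        have h5 : (q : ℝ) ≤ ((W * q : ℕ) : ℝ) := by
          exact_mod_cast Nat.le_mul_of_pos_left q hW
        linarith
    _ ≤ K * (|C1| / (Real.log x) ^ (A + C0)) := mul_le_mul_of_nonneg_left hC1x hK0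
    _ ≤ T * (C0 * (1 + 1 / Real.log 2) ^ C0 * |C1|) * x / (Real.log x) ^ A := by
        have h3 : (1 + Real.log x) ^ C0 ≤ (1 + 1 / Real.log 2) ^ C0 * Real.log x ^ C0 := by
          rw [← mul_pow]
          exact pow_le_pow_left₀ (by positivity) hL1 C0
        calc K * (|C1| / (Real.log x) ^ (A + C0))
            = T * (C0 * |C1| * x * (1 + Real.log x) ^ C0) / (Real.log x) ^ (A + C0) := by
              rw [hK]; ring
          _ ≤ T * (C0 * |C1| * x * ((1 + 1 / Real.log 2) ^ C0 * Real.log x ^ C0)) /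
                (Real.log x) ^ (A + C0) := by gcongr
          _ = T * (C0 * (1 + 1 / Real.log 2) ^ C0 * |C1|) * x / (Real.log x) ^ A := by
              rw [pow_add]
              field_simp

theorem asmW2 (p : Disp.Prm) (hp : p.Bas) (s : ℝ) (hs : 0 < s) (hs2 : s ≤ p.e) (c : ℕ) (K : ℕ → ℝ)
    (TP TP' : ℝ → ℝ → ℕ → ℕ → ℕ → Prop) (hTP : ∀ x N r u v, TP x N r u v → Disp.TriB p s x N r u v)
    (W : ℕ) (hW : 1 ≤ W)
    (hTP' : ∀ x N r u v, TP x N r u v → Nat.Coprime (r * (u * v)) W → TP' x N r u v)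
    (Bc Bc' : ℝ → ℝ → Set (ℕ → ℝ)) (hBc : ∀ x N, Bc x N ⊆ Disp.ClSW c K x N)
    (hspl : ∀ x N, ∀ β ∈ Bc x N, ∀ (u : ℕ) (a : ℤ), IsCoprime a (W : ℤ) →
      (fun n : ℕ => if (W : ℤ) ∣ ((u * n : ℕ) : ℤ) - a then β n else 0) ∈ Bc' x N)
    (h1 : Disp.E1 p.ν TP' c Bc') (D : ℝ → Finset ℕ) (hD : Disp.DT p s TP D)
    (w' : ℝ) (hw' : w' ≤ 1 / 16) :
    Disp.BILc p.ν c Bc (mulD W w' D) := by
  classical
  intro A
  obtain ⟨B, C1, x1, hE1⟩ := h1 A
  obtain ⟨C2, hC20, hC2⟩ := ASMV_smth p.ν s hs c A B W hW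
  obtain ⟨C3, hC3⟩ := Disp.bvt p.ν (s / 2) hp.hν (by positivity) c A K
  obtain ⟨hDa, hDb⟩ := hD
  obtain ⟨x2, hx2⟩ := hDb B
  have he := hp.he
  have hWR : (1 : ℝ) ≤ W := by exact_mod_cast hW
  set x0 : ℝ := max (max x1 x2) (max ((W : ℝ) ^ (1 / (s / 2))) ((4 : ℝ) ^ (1 / p.e))) with hx0
  have hmulD : ∀ x : ℝ, 2 ≤ x → ∀ q ∈ mulD W w' D x, 1 ≤ q ∧ (q : ℝ) ≤ x ^ (1 / 2 + 2 * w') := by
    intro x hx q hq
    unfold mulD at hq
    rw [mem_filter, mem_image] at hq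
    obtain ⟨⟨q', hq', rfl⟩, h2⟩ := hq
    exact ⟨Nat.mul_pos hW (hDa x hx q' (mem_filter.mp hq').1).1, h2⟩
  obtain ⟨C4, hC40, hC4⟩ := Disp.asm_small p.ν w' hw' c A (mulD W w' D) hmulD x0
  refine ⟨W * |C1| + C2 + |C3| + |C3| + C4, ?_⟩
  intro x hx a M N hsiz α β hα hβ hαc hβc
  obtain ⟨hβ1, -, hβ3⟩ := hBc x N hβc
  have hxp : 0 < x := by linarith
  have hL0 : 0 < Real.log x := Real.log_pos (by linarith)
  have hmono : ∀ C : ℝ, C ≤ W * |C1| + C2 + |C3| + |C3| + C4 →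
      C * x / (Real.log x) ^ A ≤ (W * |C1| + C2 + |C3| + |C3| + C4) * x / (Real.log x) ^ A := by
    intro C hC
    gcongr
  by_cases hxx : x ≤ x0
  · refine (hC4 x hx hxx a M N hsiz α β hαc hβ1).trans (hmono _ ?_)
    have h5 : 0 ≤ (W : ℝ) * |C1| := by positivity
    have := abs_nonneg C3
    linarith
  push Not at hxx
  have hxx1 : x1 ≤ x := by
    have : x1 ≤ x0 := (le_max_left _ _).trans (le_max_left _ _)
    linarith
  have hxx2 : x2 ≤ x := by
    have : x2 ≤ x0 := (le_max_right _ _).trans (le_max_left _ _)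
    linarith
  have hroot : ∀ z e : ℝ, 0 ≤ z → 0 < e → z ^ (1 / e) ≤ x → z ≤ x ^ e := by
    intro z e hz he' h2
    calc z = (z ^ (1 / e)) ^ e := by
          rw [← Real.rpow_mul hz, one_div, inv_mul_cancel₀ he'.ne', Real.rpow_one]
      _ ≤ x ^ e := Real.rpow_le_rpow (by positivity) h2 he'.le
  have hx4 : (4 : ℝ) ≤ x ^ p.e := by
    apply hroot _ _ (by norm_num) he
    have : (4 : ℝ) ^ (1 / p.e) ≤ x0 := (le_max_right _ _).trans (le_max_right _ _)
    linarith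
  have hxW : (W : ℝ) ≤ x ^ (s / 2) := by
    apply hroot _ _ (by positivity) (by positivity)
    have : (W : ℝ) ^ (1 / (s / 2)) ≤ x0 := (le_max_left _ _).trans (le_max_right _ _)
    linarith
  -- `W z ≤ x^(1/2-s/2)` if `z ≤ x^(1/2-s)`
  have hWz : ∀ z : ℝ, 0 ≤ z → z ≤ x ^ (1 / 2 - s) → W * z ≤ x ^ (1 / 2 - s / 2) := by
    intro z hz h
    calc (W : ℝ) * z ≤ x ^ (s / 2) * x ^ (1 / 2 - s) := by gcongr
      _ = x ^ (1 / 2 - s / 2) := by
          rw [← Real.rpow_add hxp]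
          congr 1
          ring
  obtain ⟨hN1, hN2, hMN1, hMN2⟩ := hsiz
  have hsiz : Disp.Siz p.ν x M N := ⟨hN1, hN2, hMN1, hMN2⟩
  set X := ⌊4 * M⌋₊ with hX
  set Y := ⌊4 * N⌋₊ with hY
  set D0 := (D x).filter (fun q : ℕ => q.Coprime W ∧ ((W * q : ℕ) : ℝ) ≤ x ^ (1 / 2 + 2 * w') ∧
    IsCoprime a ((W * q : ℕ) : ℤ)) with hD0
  have hWinj : Function.Injective (fun q : ℕ => W * q) := fun q1 q2 h =>
    Nat.eq_of_mul_eq_mul_left (by omega) h
  have hD0sum : ∑ q ∈ mulD W w' D x, (if IsCoprime a (q : ℤ) then |Dsc2 X Y α β q a| else 0) =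
      ∑ q ∈ D0, |Dsc2 X Y α β (W * q) a| := by
    rw [← sum_filter]
    have h2 : (mulD W w' D x).filter (fun q : ℕ => IsCoprime a (q : ℤ)) =
        D0.image (fun q => W * q) := by
      ext r
      unfold mulD
      simp only [mem_filter, mem_image, hD0]
      constructor
      · rintro ⟨⟨⟨q, ⟨h3, h4⟩, rfl⟩, h5⟩, h6⟩
        exact ⟨q, ⟨h3, h4, h5, h6⟩, rfl⟩
      · rintro ⟨q, ⟨h3, h4, h5, h6⟩, rfl⟩
        exact ⟨⟨⟨q, ⟨h3, h4⟩, rfl⟩, h5⟩, h6⟩
    rw [h2, sum_image (fun q1 _ q2 _ h => hWinj h)]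
  rw [hD0sum]
  have hD0p : ∀ q ∈ D0, q ∈ D x ∧ q.Coprime W ∧ ((W * q : ℕ) : ℝ) ≤ x ^ (1 / 2 + 2 * w') ∧
      IsCoprime a ((W * q : ℕ) : ℤ) := by
    intro q hq
    rw [hD0, mem_filter] at hq
    exact hq
  -- part (i)
  set Da := D0.filter (fun q : ℕ => (q : ℝ) ≤ x ^ (1 / 2 - s)) with hDa'
  set Dr := D0.filter (fun q : ℕ => ¬ (q : ℝ) ≤ x ^ (1 / 2 - s)) with hDr'
  set Db := Dr.filter (fun q : ℕ => x ^ s < (Disp.smp (Real.log x ^ B) q : ℝ)) with hDb'
  set Dc := Dr.filter (fun q : ℕ => ¬ x ^ s < (Disp.smp (Real.log x ^ B) q : ℝ)) with hDc'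
  have hsplit : ∑ q ∈ D0, |Dsc2 X Y α β (W * q) a| =
      ∑ q ∈ Da, |Dsc2 X Y α β (W * q) a| + (∑ q ∈ Db, |Dsc2 X Y α β (W * q) a| +
        ∑ q ∈ Dc, |Dsc2 X Y α β (W * q) a|) := by
    rw [hDb', hDc', sum_filter_add_sum_filter_not, hDa', hDr', sum_filter_add_sum_filter_not]
  have hbv := hC3 x hx a M N hsiz α β hα hβ hαc hβ1 hβ3
  rw [← hX, ← hY] at hbv
  have hbvn : ∀ d : ℕ, 0 ≤ ((d.divisors.card : ℝ) / d.totient) *
      ∑ r ∈ Icc 1 ⌊x ^ (1 / 2 - s / 2)⌋₊,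
        (if IsCoprime a (r : ℤ) then |Disp.Dsc2s X Y α β r a d| else 0) := by
    intro d
    apply mul_nonneg (by positivity)
    apply sum_nonneg
    intro r _
    split_ifs
    · exact abs_nonneg _
    · exact le_rfl
  have hA : ∑ q ∈ Da, |Dsc2 X Y α β (W * q) a| ≤ C3 * x / (Real.log x) ^ A := by
    refine le_trans ?_ hbv
    have h1 : 1 ∈ Icc 1 ⌊x⌋₊ := by
      rw [mem_Icc]
      exact ⟨le_rfl, Nat.le_floor (by push_cast; linarith)⟩
    refine le_trans ?_ (single_le_sum (fun d _ => hbvn d) h1)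
    rw [Nat.divisors_one, card_singleton, Nat.totient_one, Nat.cast_one, div_one, one_mul,
      ← sum_filter]
    simp only [Disp.dsc2s_one]
    rw [← sum_image (f := fun q => |Dsc2 X Y α β q a|) (g := fun q : ℕ => W * q) (s := Da)
      (fun q1 _ q2 _ h => hWinj h)]
    apply sum_le_sum_of_subset_of_nonneg
    · intro q' hq'
      obtain ⟨q, hq, rfl⟩ := mem_image.mp hq'
      rw [hDa', mem_filter] at hq
      obtain ⟨h3, h4, h5, h6⟩ := hD0p q hq.1
      rw [mem_filter, mem_Icc]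
      refine ⟨⟨Nat.mul_pos hW (hDa x hx q h3).1, Nat.le_floor ?_⟩, h6⟩
      push_cast
      exact hWz _ (Nat.cast_nonneg _) hq.2
    · intro q _ _
      exact abs_nonneg _
  have hB : ∑ q ∈ Db, |Dsc2 X Y α β (W * q) a| ≤ C2 * x / (Real.log x) ^ A := by
    refine hC2 x hx M N hsiz a α β hαc hβ1 Db ?_
    intro q hq
    rw [hDb', mem_filter, hDr', mem_filter] at hq
    obtain ⟨h3, h4, h5, h6⟩ := hD0p q hq.1.1
    obtain ⟨h7, h8, h9⟩ := hDa x hx q h3
    refine ⟨h7, h5.trans ?_, h8, hq.2, h6⟩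
    exact Real.rpow_le_rpow_of_exponent_le (by linarith) (by linarith)
  -- part (iii)
  have hex : ∀ q ∈ Dc, ∃ t : ℕ × ℕ × ℕ, t.1 * (t.2.1 * t.2.2) = q ∧ TP x N t.1 t.2.1 t.2.2 ∧
      Disp.Rough (Real.log x ^ B) (t.2.1 * t.2.2) := by
    intro q hq
    rw [hDc', mem_filter, hDr', mem_filter] at hq
    rcases hx2 x hxx2 N hN1 hN2 q (hD0p q hq.1.1).1 with h | h | h
    · exact absurd h hq.1.2
    · exact absurd h hq.2
    · obtain ⟨r, u, v, h1, h2, h3⟩ := h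
      exact ⟨(r, u, v), h1, h2, h3⟩
  choose! f hf1 hf2 hf3 using hex
  set S := Dc.image f with hS
  have hfinj : Set.InjOn f (Dc : Set ℕ) := by
    intro q1 h1 q2 h2 h3
    rw [← hf1 q1 h1, ← hf1 q2 h2, h3]
  set g : ℕ × ℕ × ℕ → ℕ × ℕ × ℕ := fun t => (W * t.1, t.2) with hg
  have hginj : Function.Injective g := by
    rintro ⟨r, t⟩ ⟨r', t'⟩ h
    simp only [hg, Prod.mk.injEq] at h
    obtain ⟨h3, h4⟩ := h
    rw [Nat.eq_of_mul_eq_mul_left (by omega) h3, h4]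
  set S' := S.image g with hS'
  have hsumS' : ∀ F : ℕ × ℕ × ℕ → ℝ, ∑ t ∈ S', F t = ∑ t ∈ S, F (g t) := by
    intro F
    rw [hS', sum_image (fun t1 _ t2 _ h => hginj h)]
  have hsumS : ∑ q ∈ Dc, |Dsc2 X Y α β (W * q) a| =
      ∑ t ∈ S', |Dsc2 X Y α β (t.1 * (t.2.1 * t.2.2)) a| := by
    rw [hsumS', hS, sum_image hfinj]
    apply sum_congr rfl
    intro q hq
    have h3 : (g (f q)).1 * ((g (f q)).2.1 * (g (f q)).2.2) = W * q := by
      rw [hg]
      dsimp only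
      rw [mul_assoc, hf1 q hq]
    rw [h3]
  set P : ℕ := primorial ⌊x⌋₊ with hP
  have hPsq : Squarefree P := by
    rw [hP]
    unfold primorial
    apply Finset.squarefree_prod_of_pairwise_isCoprime
    · intro i hi j hj hij
      rw [mem_coe, mem_filter] at hi hj
      exact Nat.coprime_iff_isRelPrime.mp ((Nat.coprime_primes hi.2 hj.2).mpr hij)
    · intro i hi
      exact (mem_filter.mp hi).2.squarefree
  have hDcprop : ∀ q ∈ Dc, q ∈ D x ∧ q.Coprime W ∧ IsCoprime a ((W * q : ℕ) : ℤ) := by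
    intro q hq
    rw [hDc', mem_filter, hDr', mem_filter] at hq
    obtain ⟨h3, h4, h5, h6⟩ := hD0p q hq.1.1
    exact ⟨h3, h4, h6⟩
  have hdvdP : ∀ q ∈ D x, q ∣ P := by
    intro q hq
    obtain ⟨h1, h2, h3⟩ := hDa x hx q hq
    refine h2.dvd_primorial.trans (primorial_dvd_primorial (Nat.le_floor (h3.trans ?_)))
    calc x ^ (1 / 2 + 2 * p.w) ≤ x ^ (1 : ℝ) :=
          Real.rpow_le_rpow_of_exponent_le (by linarith) (by linarith [hp.hw2])
      _ = x := Real.rpow_one x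
  have hSprop : ∀ t ∈ S, TP x N t.1 t.2.1 t.2.2 ∧ Disp.Rough (Real.log x ^ B) (t.2.1 * t.2.2) ∧
      (t.1 * (t.2.1 * t.2.2)) ∈ D x ∧ (t.1 * (t.2.1 * t.2.2)).Coprime W ∧
      IsCoprime a ((W * (t.1 * (t.2.1 * t.2.2)) : ℕ) : ℤ) := by
    intro t ht
    rw [hS] at ht
    obtain ⟨q, hq, rfl⟩ := mem_image.mp ht
    obtain ⟨h3, h4, h5⟩ := hDcprop q hq
    refine ⟨hf2 q hq, hf3 q hq, ?_, ?_, ?_⟩
    · rw [hf1 q hq]
      exact h3
    · rw [hf1 q hq]
      exact h4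
    · rw [hf1 q hq]
      exact h5
  have hcop : ∀ t ∈ S, Nat.Coprime t.1 (t.2.1 * t.2.2) := by
    intro t ht
    exact Nat.coprime_of_squarefree_mul (hTP _ _ _ _ _ (hSprop t ht).1).sqf
  have hcopW : ∀ t ∈ S, Nat.Coprime W t.1 ∧ Nat.Coprime W (t.2.1 * t.2.2) := by
    intro t ht
    have h3 := (hSprop t ht).2.2.2.1.symm
    exact ⟨Nat.Coprime.coprime_mul_right_right h3, Nat.Coprime.coprime_mul_left_right h3⟩
  have hcopa : ∀ t ∈ S, IsCoprime ((t.1 * (t.2.1 * t.2.2) : ℕ) : ℤ) a := by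
    intro t ht
    have h3 := (hSprop t ht).2.2.2.2
    rw [Nat.cast_mul] at h3
    exact (IsCoprime.of_mul_right_right h3).symm
  have hpos : ∀ t ∈ S, 1 ≤ t.1 ∧ 1 ≤ t.2.1 ∧ 1 ≤ t.2.2 := by
    intro t ht
    have h1 := (hTP _ _ _ _ _ (hSprop t ht).1).sqf.ne_zero
    refine ⟨Nat.pos_of_ne_zero ?_, Nat.pos_of_ne_zero ?_, Nat.pos_of_ne_zero ?_⟩
    · intro h
      apply h1
      rw [h, zero_mul]
    · intro h
      apply h1
      rw [h, zero_mul, mul_zero]
    · intro h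
      apply h1
      rw [h, mul_zero, mul_zero]
  have hSp' : ∀ t ∈ S', 1 ≤ t.1 ∧ Nat.Coprime t.1 (t.2.1 * t.2.2) ∧ t.2.1 * t.2.2 ∣ P ∧
      IsCoprime a ((t.1 * (t.2.1 * t.2.2) : ℕ) : ℤ) := by
    intro t' ht'
    obtain ⟨t, ht, rfl⟩ := mem_image.mp ht'
    refine ⟨Nat.mul_pos hW (hpos t ht).1, Nat.Coprime.mul_left (hcopW t ht).2 (hcop t ht),
      (Dvd.intro_left _ rfl).trans (hdvdP _ (hSprop t ht).2.2.1), ?_⟩
    have h3 := (hSprop t ht).2.2.2.2
    rw [← mul_assoc] at h3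
    exact h3
  have havg := Disp.asm_avg X Y α β a P hPsq S' hSp' (W * (|C1| * x / (Real.log x) ^ A)) (by
      intro b hb
      rw [hsumS']
      rcases S.eq_empty_or_nonempty with hSe | ⟨t0, ht0⟩
      · rw [hSe, Finset.sum_empty]
        positivity
      have haW : IsCoprime a (W : ℤ) := by
        have h3 := (hSprop t0 ht0).2.2.2.2
        rw [Nat.cast_mul] at h3
        exact IsCoprime.of_mul_right_left h3
      have h3 : ∀ t ∈ S, |Disp.Dif X Y α β (g t).1 ((g t).2.1 * (g t).2.2) a (b : ℤ)| ≤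
          ∑ u ∈ range W, |Disp.Dif X Y (fun m => if m % W = u then α m else 0)
            (fun n => if (W : ℤ) ∣ ((u * n : ℕ) : ℤ) - a then β n else 0) t.1 (t.2.1 * t.2.2)
            a (b : ℤ)| := by
        intro t ht
        have h4 := ASMV_dif X Y α β W t.1 (t.2.1 * t.2.2) a (b : ℤ) hW (hcopW t ht).1
        rw [hg]
        dsimp only
        rw [h4]
        exact abs_sum_le_sum_abs _ _
      refine (sum_le_sum h3).trans ?_
      rw [sum_comm]
      refine (sum_le_card_nsmul _ _ (|C1| * x / (Real.log x) ^ A) ?_).trans ?_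
      · intro u _
        refine le_trans ?_ (show C1 * x / (Real.log x) ^ A ≤ |C1| * x / (Real.log x) ^ A by
          gcongr
          exact le_abs_self _)
        refine hE1 x hxx1 M N hsiz a b _ _ (ASMV_sup _ _ _ hα) (ASMV_sup _ _ _ hβ)
          (ASMV_cb x c _ _ hαc)
          (hspl x N β hβc u a haW) S ⟨?_, ?_, ?_, ?_⟩
        · intro t ht
          exact hTP' _ _ _ _ _ (hSprop t ht).1 (hSprop t ht).2.2.2.1
        · exact hcopa
        · intro t ht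
          rw [Nat.isCoprime_iff_coprime]
          exact Nat.Coprime.coprime_dvd_left
            ((Dvd.intro_left _ rfl).trans (hdvdP _ (hSprop t ht).2.2.1)) hb.symm
        · intro t ht
          exact (hSprop t ht).2.1
      · rw [card_range, nsmul_eq_mul])
  have hsec : ∑ t ∈ S', |Disp.Dsc2s X Y α β t.1 a (t.2.1 * t.2.2)| /
      ((t.2.1 * t.2.2).totient : ℝ) ≤ C3 * x / (Real.log x) ^ A := by
    refine le_trans ?_ hbv
    set F : ℕ → ℕ → ℝ := fun r d =>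
      (if IsCoprime a (r : ℤ) then |Disp.Dsc2s X Y α β r a d| else 0) / (d.totient : ℝ) with hF
    have hF0 : ∀ r d, 0 ≤ F r d := by
      intro r d
      rw [hF]
      dsimp only
      split_ifs <;> positivity
    have h1 : ∑ t ∈ S', |Disp.Dsc2s X Y α β t.1 a (t.2.1 * t.2.2)| /
        ((t.2.1 * t.2.2).totient : ℝ) = ∑ t ∈ S', F t.1 (t.2.1 * t.2.2) := by
      apply sum_congr rfl
      intro t ht
      rw [hF]
      dsimp only
      rw [if_pos]
      have h2 := (hSp' t ht).2.2.2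
      rw [Nat.cast_mul] at h2
      exact IsCoprime.of_mul_right_left h2
    rw [h1]
    refine (Disp.asm_second F hF0 S' ⌊x⌋₊ ⌊x ^ (1 / 2 - s / 2)⌋₊ ?_).trans ?_
    · intro t' ht'
      obtain ⟨t, ht, rfl⟩ := mem_image.mp ht'
      obtain ⟨h2, h3, h4⟩ := hpos t ht
      have h5 := hTP _ _ _ _ _ (hSprop t ht).1
      refine ⟨Nat.mul_pos hW h2, Nat.le_floor ?_, h3, h4, Nat.le_floor ?_⟩
      · rw [hg]
        push_cast
        refine hWz _ (Nat.cast_nonneg _) (h5.rhi.trans ?_)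
        calc N * x ^ (-(3 * p.e) + s) ≤ (4 * x ^ (1 / 2 : ℝ)) * x ^ (-(3 * p.e) + s) := by gcongr
          _ ≤ (x ^ p.e * x ^ (1 / 2 : ℝ)) * x ^ (-(3 * p.e) + s) := by gcongr
          _ = x ^ (p.e + 1 / 2 + (-(3 * p.e) + s)) := by
              rw [Real.rpow_add hxp (p.e + 1 / 2) (-(3 * p.e) + s), Real.rpow_add hxp p.e (1 / 2)]
          _ ≤ x ^ (1 / 2 - s) := by
              apply Real.rpow_le_rpow_of_exponent_le (by linarith)
              linarith
      · have h6 : ((t.2.1 * t.2.2 : ℕ) : ℝ) ≤ ((t.1 * (t.2.1 * t.2.2) : ℕ) : ℝ) := by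
          exact_mod_cast Nat.le_mul_of_pos_left _ h2
        refine h6.trans (h5.qhi.trans ?_)
        calc x ^ (1 / 2 + 2 * p.w) ≤ x ^ (1 : ℝ) :=
              Real.rpow_le_rpow_of_exponent_le (by linarith) (by linarith [hp.hw2])
          _ = x := Real.rpow_one x
    · apply le_of_eq
      apply sum_congr rfl
      intro d _
      rw [div_mul_eq_mul_div, mul_div_assoc, sum_div]
  rw [hsplit, hsumS]
  have hfin : (W * |C1| + C2 + |C3| + |C3| + C4) * x / (Real.log x) ^ A =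
      W * (|C1| * x / (Real.log x) ^ A) + C2 * x / (Real.log x) ^ A +
        |C3| * x / (Real.log x) ^ A + |C3| * x / (Real.log x) ^ A +
        C4 * x / (Real.log x) ^ A := by ring
  rw [hfin]
  have habs : ∀ C : ℝ, C * x / (Real.log x) ^ A ≤ |C| * x / (Real.log x) ^ A := by
    intro C
    gcongr
    exact le_abs_self C
  have h41 : 0 ≤ C4 * x / (Real.log x) ^ A := by positivity
  have q3 := habs C3
  linarith

end Pool.Agent.S43
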