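import Pool.Agent.SL4.EhP
import Pool.Agent.BGG.ChainK

/-! Equidistribution for the boxes of the sieve for linear forms `s_i n + h_i`, from `EHs` for the moduli `W q`, `q` in
`D3` (helper35, after helper90's `PairM`, `ChainK` and helper64's `EhP`). -/

set_option autoImplicit false

namespace Pool.Agent.S43

open Finset Filter Pool.Agent.BGG Pool.Agent.SL

/-- the equidistribution of the primes for the moduli `W q` for every fixed `W` -/
def EHW (w' : ℝ) (D : ℝ → Finset ℕ) : Prop := ∀ W : ℕ, 1 ≤ W → EHs (mulD W w' D)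

theorem EH_of_D3W {w w' σ ν κ δ δv e V0 : ℝ} (hw0 : 0 ≤ w) (hww : w < w') (hw : 2 * w' ≤ 1 / 2) (hδ : 0 < δ)
    (hδv : δ ≤ δv)
    (hV0 : 0 ≤ V0) (hσ : 0 ≤ σ) (hse : σ < 3 * e) (hν : 3 * e < ν) (hκ : κ + σ + (V0 + δv) ≤ 1 / 2 + δ)
    (hVs : V0 + σ ≤ 1 / 2) (hEH : EHW w' (D3 w σ ν κ δ δv e V0))
    {k : ℕ} (s h : Fin k → ℕ) (hs : ∀ i, 0 < s i) (hh : ∀ i, 1 ≤ h i) (Dp b : ℕ) (hL : Large s h Dp)
    (hG : Good s h Dp b) (m : Fin k) (t t' : Fin k → ℝ)
    (ht : ∀ i, i ≠ m → 0 ≤ t i) (ht' : ∀ i, i ≠ m → 0 ≤ t' i)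
    (hsum : ∑ i ∈ univ.erase m, (t i + t' i) < 1 / 2 + 2 * w)
    (hP : PairC δ δv (V0 + δv) σ (univ.erase m) t t') :
    EH s h (primorial Dp) b m t t' := by
  classical
  set W : ℕ := s m * primorial Dp with hW
  have hW1 : 1 ≤ W := Nat.mul_pos (hs m) (primorial_pos Dp)
  have hW0 : (0 : ℝ) < W := by exact_mod_cast hW1
  have main : EHP s h (primorial Dp) b m
      (fun N d e => ∀ i, i ≠ m → (d i : ℝ) < (N : ℝ) ^ t i ∧ (e i : ℝ) < (N : ℝ) ^ t' i) := by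
    refine ehp_of_ehs s h hs Dp b hL hG m _ (mulD W w' (D3 w σ ν κ δ δv e V0)) (hEH W hW1) ?_ ?_
    · intro x hx r hr
      unfold mulD at hr
      obtain ⟨hr1, hr2⟩ := Finset.mem_filter.1 hr
      obtain ⟨q, hq, rfl⟩ := Finset.mem_image.1 hr1
      constructor
      · have h1 := (D3_le (by linarith) hx (Finset.mem_filter.1 hq).1).1
        exact Nat.mul_pos (by omega) (by omega)
      · refine hr2.trans ?_
        calc x ^ (1 / 2 + 2 * w' : ℝ) ≤ x ^ (1 : ℝ) :=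
              Real.rpow_le_rpow_of_exponent_le (by linarith) (by linarith)
          _ = x := Real.rpow_one x
    · -- the sequence of sizes
      have hto : Tendsto (fun N : ℕ => s m * N + h m - 1) atTop atTop := by
        refine tendsto_atTop_mono (fun N => ?_) tendsto_id
        show N ≤ s m * N + h m - 1
        have h1 := Nat.le_mul_of_pos_left N (hs m)
        have h2 := hh m
        omega
      have hbig : ∀ᶠ N : ℕ in atTop, (W : ℝ) ≤ (N : ℝ) ^ (2 * (w' - w)) :=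
        ((tendsto_rpow_atTop (by linarith)).comp tendsto_natCast_atTop_atTop).eventually_ge_atTop _
      have h1 := box_size 1 m t t' (1 / 2 + 2 * w) hsum
      have h2 := facP_of_boxes hδ hδv hV0 hse hν hκ hVs m t t' ht ht' hsum hP 1 squarefree_one
      filter_upwards [hto.eventually h1, hto.eventually h2, hto.eventually hbig, eventually_ge_atTop 2]
        with N hN1 hN2 hN3 hN4 d f hok hbox
      set n' : ℕ := s m * N + h m - 1 with hn'
      have hge : N ≤ n' := by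
        have h1 := Nat.le_mul_of_pos_left N (hs m)
        have h2 := hh m
        omega
      have hx : ((s m * N + h m : ℕ) : ℝ) - 1 = (n' : ℝ) := by
        have h3 : 1 ≤ s m * N + h m := by
          have := hh m
          omega
        rw [hn', Nat.cast_sub h3]
        push_cast
        ring
      rw [hx]
      have hNR : (2 : ℝ) ≤ N := by exact_mod_cast hN4
      have hgeR : (N : ℝ) ≤ n' := by exact_mod_cast hge
      have hn2 : (2 : ℝ) ≤ n' := by linarith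
      have hn0 : (0 : ℝ) < n' := by linarith
      have hn1 : (1 : ℝ) ≤ n' := by linarith
      have hbox' : ∀ i, i ≠ m → (d i : ℝ) < (n' : ℝ) ^ t i ∧ (f i : ℝ) < (n' : ℝ) ^ t' i := by
        intro i hi
        obtain ⟨g1, g2⟩ := hbox i hi
        exact ⟨lt_of_lt_of_le g1 (Real.rpow_le_rpow (by linarith) hgeR (ht i hi)),
          lt_of_lt_of_le g2 (Real.rpow_le_rpow (by linarith) hgeR (ht' i hi))⟩
      obtain ⟨hqs, hqc⟩ := OK_q hok
      set q : ℕ := ∏ i, (d i).lcm (f i) with hq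
      obtain ⟨o1, o2, o3, o4, o5, o6, o7⟩ := hok
      have hq1 : 1 ≤ q := Nat.pos_of_ne_zero hqs.ne_zero
      have hqhi : (q : ℝ) ≤ (n' : ℝ) ^ (1 / 2 + 2 * w) := by
        have := hN1 d f o1 o2 hbox'
        rw [one_mul] at this
        exact this
      have hqD : q ∈ D3 w σ ν κ δ δv e V0 (n' : ℝ) := by
        rw [mem_D3]
        refine ⟨⟨hq1, Nat.le_floor hqhi⟩, hqs, ?_⟩
        by_cases hsm : (q : ℝ) ≤ (n' : ℝ) ^ (1 / 2 - σ)
        · exact Or.inl hsm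
        · right
          have h3 := hN2 d f o1 o2 o3 o4 (Nat.coprime_one_right _) (Nat.coprime_one_right _) o7 hbox'
            (by rw [one_mul]; exact not_le.mp hsm)
          rw [one_mul] at h3
          unfold DfacC at h3
          exact (Finset.mem_filter.mp h3).2
      have hqcW : q.Coprime W := by
        rw [hW]
        refine Nat.Coprime.mul_right ?_ hqc
        rw [Nat.coprime_iff_gcd_eq_one] at hqc
        apply Nat.coprime_of_dvd
        intro p hp hpq hps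
        have hpD : Dp < p := by
          by_contra hle
          have h1 : p ∣ primorial Dp := hp.dvd_primorial_iff.2 (by omega)
          have h2 := Nat.dvd_gcd hpq h1
          rw [hqc] at h2
          exact hp.one_lt.ne' (Nat.dvd_one.1 h2)
        exact (hL p hp hpD).1 m hps
      unfold mulD
      rw [Finset.mem_filter]
      refine ⟨Finset.mem_image.2 ⟨q, Finset.mem_filter.2 ⟨hqD, hqcW⟩, rfl⟩, ?_⟩
      rw [Nat.cast_mul]
      calc (W : ℝ) * q ≤ (n' : ℝ) ^ (2 * (w' - w)) * (n' : ℝ) ^ (1 / 2 + 2 * w) :=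
            mul_le_mul hN3 hqhi (Nat.cast_nonneg _) (by positivity)
        _ = (n' : ℝ) ^ (1 / 2 + 2 * w') := by
            rw [← Real.rpow_add hn0]
            congr 1
            ring
  intro A
  filter_upwards [main A] with N hN
  refine le_trans (le_of_eq ?_) hN
  unfold BoxErr SetErr
  refine Finset.sum_congr rfl fun d _ => Finset.sum_congr rfl fun e _ => ?_
  by_cases h0 : MT.OK (primorial Dp) m d e ∧ ∀ i, i ≠ m → (d i : ℝ) < (N : ℝ) ^ t i ∧ (e i : ℝ) < (N : ℝ) ^ t' i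
  · rw [if_pos h0, if_pos h0]
  · rw [if_neg h0, if_neg h0]

/-- The equidistribution input of the two-sided criterion, for supports with the pair condition. -/
theorem hEH3P_ofW {w w' σ ν κ δ δv e V0 : ℝ} (hw0 : 0 ≤ w) (hww : w < w') (hw : 2 * w' ≤ 1 / 2) (hδ : 0 < δ)
    (hδv : δ ≤ δv)
    (hV0 : 0 ≤ V0) (hσ : 0 ≤ σ) (hse : σ < 3 * e) (hν : 3 * e < ν) (hκ : κ + σ + (V0 + δv) ≤ 1 / 2 + δ)
    (hVs : V0 + σ ≤ 1 / 2) (hEH : EHW w' (D3 w σ ν κ δ δv e V0))
    {k : ℕ} (s h : Fin k → ℕ) (hs : ∀ i, 0 < s i) (hh : ∀ i, 1 ≤ h i) (M M2 N1 Rc : ℕ) (hM : M = 2 * M2)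
    (hM2 : 1 ≤ M2)
    (hRc : Rc + (k - 1) = N1) (hlev : (N1 : ℝ) ≤ (1 / 2 + 2 * w) * M2) (Y : (Fin k → ℕ) → ℝ)
    (hP : ∀ m v v', Y v ≠ 0 → Y v' ≠ 0 → MT.Two.rad m v + MT.Two.rad m v' < 2 * Rc →
      PairC δ δv (V0 + δv) σ (univ.erase m) (fun i => ((v i : ℝ) + 1) / M)
        (fun i => ((v' i : ℝ) + 1) / M)) :
    ∀ D b, Large s h D → Good s h D b → ∀ m v v', Y v ≠ 0 → Y v' ≠ 0 →
      MT.Two.rad m v + MT.Two.rad m v' < 2 * Rc →
      EH s h (primorial D) b m (fun i => ((v i : ℝ) + 1) / M) (fun i => ((v' i : ℝ) + 1) / M) := by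
  intro D b hL hG m v v' hv hv' hr
  have hM0 : (0 : ℝ) < (M : ℝ) := by
    have : 1 ≤ M := by omega
    exact_mod_cast this
  have hnn : ∀ (u : Fin k → ℕ) (i : Fin k), 0 ≤ ((u i : ℝ) + 1) / M := fun u i => by positivity
  exact EH_of_D3W hw0 hww hw hδ hδv hV0 hσ hse hν hκ hVs hEH s h hs hh D b hL hG m _ _ (fun i _ => hnn v i)
    (fun i _ => hnn v' i) (rad_total M M2 N1 Rc hM hM2 hRc hlev m v v' hr)
    (hP m v v' hv hv' hr)

/-- The same for supports with the condition `ChainK`. -/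
theorem hEH3K_ofW {w w' σ ν κ δ δv e V0 κ' : ℝ} (hw0 : 0 ≤ w) (hww : w < w') (hw : 2 * w' ≤ 1 / 2) (hδ : 0 < δ)
    (hδv : δ ≤ δv)
    (hV0 : 0 ≤ V0) (hσ : 0 ≤ σ) (hκ0 : 0 ≤ κ') (hκ1 : κ' ≤ 1) (hδvs : δv - δ + σ ≤ 1 / 4) (hse : σ < 3 * e)
    (hν : 3 * e < ν) (hκ : κ + σ + (V0 + δv) ≤ 1 / 2 + δ)
    (hVs : V0 + σ ≤ 1 / 2) (hEH : EHW w' (D3 w σ ν κ δ δv e V0))
    {k : ℕ} (s h : Fin k → ℕ) (hs : ∀ i, 0 < s i) (hh : ∀ i, 1 ≤ h i) (M M2 N1 Rc UJ : ℕ) (hM : M = 2 * M2)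
    (hM2 : 1 ≤ M2) (hRc : Rc + (k - 1) = N1) (hlev : (N1 : ℝ) ≤ (1 / 2 + 2 * w) * M2)
    (hεM : ((Rc + UJ + (k - 1) : ℕ) : ℝ) ≤ (1 / 4 + w + 1 / 8) * M)
    (Y : (Fin k → ℕ) → ℝ) (hY1 : ∀ v, Y v ≠ 0 → ∀ m, MT.Two.rad m v < Rc + UJ)
    (hCh : ∀ v, Y v ≠ 0 → ∀ m,
      ChainK δ δv (V0 + δv) σ κ' (1 / 4 + w) (univ.erase m) (fun i => ((v i : ℝ) + 1) / M)) :
    ∀ D b, Large s h D → Good s h D b → ∀ m v v', Y v ≠ 0 → Y v' ≠ 0 →
      MT.Two.rad m v + MT.Two.rad m v' < 2 * Rc →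
      EH s h (primorial D) b m (fun i => ((v i : ℝ) + 1) / M) (fun i => ((v' i : ℝ) + 1) / M) := by
  refine hEH3P_ofW hw0 hww hw hδ hδv hV0 hσ hse hν hκ hVs hEH s h hs hh M M2 N1 Rc hM hM2 hRc hlev Y ?_
  intro m v v' hv hv' hr
  have hM0 : (0 : ℝ) < (M : ℝ) := by
    have : 1 ≤ M := by omega
    exact_mod_cast this
  have hcard : ((univ.erase m : Finset (Fin k))).card = k - 1 := by
    rw [Finset.card_erase_of_mem (Finset.mem_univ m), Finset.card_univ, Fintype.card_fin]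
  have hrad : ∀ u : Fin k → ℕ, Y u ≠ 0 →
      ∑ i ∈ univ.erase m, ((u i : ℝ) + 1) / M ≤ 1 / 4 + w + 1 / 8 := by
    intro u hu
    rw [← Finset.sum_div, div_le_iff₀ hM0]
    have h1 : ∑ i ∈ univ.erase m, ((u i : ℝ) + 1) = ((MT.Two.rad m u + (k - 1) : ℕ) : ℝ) := by
      rw [Finset.sum_add_distrib, Finset.sum_const, hcard]
      unfold MT.Two.rad
      push_cast
      simp
    rw [h1]
    have h2 : MT.Two.rad m u + (k - 1) ≤ Rc + UJ + (k - 1) := by
      have := hY1 u hu m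
      omega
    have h3 : ((MT.Two.rad m u + (k - 1) : ℕ) : ℝ) ≤ ((Rc + UJ + (k - 1) : ℕ) : ℝ) := by
      exact_mod_cast h2
    linarith
  have hsum := rad_total M M2 N1 Rc hM hM2 hRc hlev m v v' hr
  rw [sum_add_distrib] at hsum
  exact pairC_of_chainK hδ.le (by linarith) hκ0 hκ1 hδvs (hrad v hv) (hrad v' hv') (by linarith)
    (hCh v hv m) (hCh v' hv' m)

end Pool.Agent.S43
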