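import Pool.Agent.S43.Two
import Pool.Agent.S43.Box
import Pool.Agent.BGG.CertK2

/-! The abstract certificate and the certificate for a sum of two products, for linear forms `s_i n + h_i` (helper35, after
helper90's `CertK`, `CertK2`). -/

set_option autoImplicit false

namespace Pool.Agent.S43

open Finset Filter Pool.Agent.BGG

/-- The abstract certificate: a symmetric function `F ≥ 0` of cell vectors, cut by `ChainK`; the loss is bounded by the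
nodes. -/
theorem cert_gen {w w' s ν κ δ δv e V0 κ' : ℝ} (hw0 : 0 ≤ w) (hww : w < w') (hw : 2 * w' ≤ 1 / 2) (hδ : 0 < δ)
    (hδv : δ ≤ δv) (hV0 : 0 ≤ V0) (hs0 : 0 ≤ s) (hκ0' : 0 ≤ κ') (hκ1' : κ' ≤ 1) (hδvs : δv - δ + s ≤ 1 / 4) (hse : s < 3 * e)
    (hν : 3 * e < ν) (hκV : κ + s + (V0 + δv) ≤ 1 / 2 + δ)
    (hVs : V0 + s ≤ 1 / 2) (hEH : EHW w' (D3 w s ν κ δ δv e V0))
    {K : ℕ} (M M2 N1 P Rc J n GT : ℕ) (hM : M = 2 * M2) (hP : P + N1 = M2) (hRc : Rc + K = N1)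
    (hlev : (N1 : ℝ) ≤ (1 / 2 + 2 * w) * M2)
    (U : ℕ → ℕ) (hU0 : U 0 = 0) (hU : Monotone U) (hUJ : U J < P)
    (hεM : ((Rc + U J + K : ℕ) : ℝ) ≤ (1 / 4 + w + 1 / 8) * M)
    (hn1 : n ≤ Rc + U J) (hn2 : n + (K + 1) ≤ M2)
    (mm : ℕ → ℝ) (hm0 : 0 ≤ mm 0) (hm : Monotone mm)
    (κr : ℕ → ℝ) (hκ0 : ∀ r, r + U J < Rc → κr r = 1)
    (hκs : ∀ j < J, ∀ r, Rc ≤ r + U (j + 1) → r + U j < Rc → κr r =
      mm j * MT.TwoTh.Cs M P U j / (MT.TwoTh.Cs M P U j - 1) /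
        (1 + mm j * MT.TwoTh.Cs M P U j / (MT.TwoTh.Cs M P U j - 1)))
    (hκt : ∀ j < J, ∀ r, Rc + U j ≤ r → r < Rc + U (j + 1) → κr r = -(mm j * MT.TwoTh.Ct M P U j))
    (F : (Fin (K + 1) → ℕ) → ℝ) (B : ℝ) (hF0 : ∀ v, 0 ≤ F v) (hFB : ∀ v, F v ≤ B)
    (hFs : ∀ (e : Equiv.Perm (Fin (K + 1))) (v : Fin (K + 1) → ℕ), F (v ∘ e) = F v)
    (hFn : ∀ v, F v ≠ 0 → ∑ i, v i < n) (hFG : ∀ v, F v ≠ 0 → ∀ i, v i + 1 ≤ GT)
    {ι : Type*} (nodes : Finset ι) (kind : ι → Bool) (lo hi : ι → ℕ) (Φ : ι → (Fin (K + 1) → ℕ) → ℝ)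
    (hΦ : ∀ ξ ∈ nodes, ∀ v, 0 ≤ Φ ξ v) (dM dv0 dv1 : ℕ) (hdM : (dM : ℝ) ≤ δ * M)
    (hdv0 : (dv0 : ℝ) ≤ δv * M) (hdv1 : δv * M ≤ (dv1 : ℝ))
    (hcovA : ∀ u : ℕ, dM < u → u ≤ GT → ∃ ξ ∈ nodes, kind ξ = false ∧ lo ξ < u ∧ lo ξ ≤ hi ξ ∧
      (u ≤ hi ξ ∨ dv1 ≤ hi ξ))
    (hcovB : ∀ u : ℕ, dv0 < u → u ≤ GT → ∃ ξ ∈ nodes, kind ξ = true ∧ lo ξ < u ∧ u ≤ hi ξ)
    (hA : ∀ ξ ∈ nodes, kind ξ = false → ∀ v : Fin (K + 1) → ℕ, F v ≠ 0 →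
      FailA δ s κ' (1 / 4 + w) M dv1 (lo ξ) (hi ξ) v → F v ≤ Φ ξ v)
    (hB : ∀ ξ ∈ nodes, kind ξ = true → ∀ v : Fin (K + 1) → ℕ, F v ≠ 0 →
      FailB δ s (V0 + δv) M (lo ξ) (hi ξ) v → F v ≤ Φ ξ v)
    (c : ℕ → ℝ) (hc0 : ∀ r, 0 ≤ c r) (hc : ∀ r, 2 * κr r ≤ c r)
    (hNUM : (M : ℝ) * ∑ v ∈ MT.grid (K + 1) M, F v ^ 2 +
      ((K + 1 : ℕ) : ℝ) * ∑ ξ ∈ nodes, ∑ u ∈ MT.grid K M, c (∑ i, u i) *
        ((∑ x ∈ range M, F (Fin.cons x u)) * ∑ x ∈ range M, Φ ξ (Fin.cons x u)) <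
      ((K + 1 : ℕ) : ℝ) * ∑ u ∈ MT.grid K M, κr (∑ i, u i) * (∑ x ∈ range M, F (Fin.cons x u)) ^ 2)
    (sl h : Fin (K + 1) → ℕ) (hnd : SL.Nondeg sl h) (hadm : SL.Adm sl h) (hh : ∀ i, 1 ≤ h i) :
    ∀ x : ℕ, ∃ n ≥ x, ∃ i j, i ≠ j ∧ (sl i * n + h i).Prime ∧ (sl j * n + h j).Prime := by
  classical
  have hMpos : 0 < M := by omega
  set good : (Fin (K + 1) → ℕ) → Prop := GoodK δ δv (V0 + δv) s κ' (1 / 4 + w) M with hgood
  set Y : (Fin (K + 1) → ℕ) → ℝ := fun v => if good v then F v else 0 with hY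
  have hY0 : ∀ v, 0 ≤ Y v := by
    intro v
    rw [hY]
    dsimp only
    split_ifs
    · exact hF0 v
    · exact le_rfl
  have hYF : ∀ v, Y v ≤ F v := by
    intro v
    rw [hY]
    dsimp only
    split_ifs
    · exact le_rfl
    · exact hF0 v
  have hYne : ∀ v, Y v ≠ 0 → F v ≠ 0 ∧ good v := by
    intro v hv
    rw [hY] at hv
    dsimp only at hv
    by_cases hg : good v
    · rw [if_pos hg] at hv
      exact ⟨hv, hg⟩
    · rw [if_neg hg] at hv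
      exact absurd rfl hv
  have hrad : ∀ (v : Fin (K + 1) → ℕ) m, MT.Two.rad m v ≤ ∑ i, v i := by
    intro v m
    unfold MT.Two.rad
    rw [← Finset.add_sum_erase _ _ (Finset.mem_univ m)]
    omega
  have hY1 : ∀ v, Y v ≠ 0 → ∀ m, MT.Two.rad m v < Rc + U J := by
    intro v hv m
    have h1 := hFn v (hYne v hv).1
    have h2 := hrad v m
    omega
  have hY2 : ∀ v, Y v ≠ 0 → ∑ i, v i + (K + 1) < M2 := by
    intro v hv
    have h1 := hFn v (hYne v hv).1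
    omega
  have hK1 : K + 1 - 1 = K := rfl
  refine S43.twoSidedTh_symm sl h hnd hadm M M2 N1 P Rc J hM hP (by rw [hK1]; exact hRc) U hU0 hU hUJ mm hm0 hm B Y
    (fun v => by rw [abs_of_nonneg (hY0 v)]; exact (hYF v).trans (hFB v)) ?_ hY1 hY2 κr hκ0 hκs hκt 0 ?_ ?_
  · intro e v
    rw [hY]
    dsimp only
    rw [hFs e v]
    by_cases hg : good v
    · rw [if_pos hg, if_pos ((goodK_perm v e).2 hg)]
    · rw [if_neg hg, if_neg (fun h' => hg ((goodK_perm v e).1 h'))]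
  · -- the numerical inequality
    have hsq : ∑ v ∈ MT.grid (K + 1) M, Y v ^ 2 ≤ ∑ v ∈ MT.grid (K + 1) M, F v ^ 2 :=
      sum_le_sum fun v _ => pow_le_pow_left₀ (hY0 v) (hYF v) 2
    -- the bad part
    have hbadF : ∀ v, F v - Y v ≤ ∑ ξ ∈ nodes, Φ ξ v := by
      intro v
      have hnn : 0 ≤ ∑ ξ ∈ nodes, Φ ξ v := sum_nonneg fun ξ hξ => hΦ ξ hξ v
      by_cases hF : F v = 0
      · rw [hF, zero_sub]
        linarith [hY0 v]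
      by_cases hg : good v
      · have : Y v = F v := if_pos hg
        rw [this, sub_self]
        exact hnn
      · have : Y v = 0 := if_neg hg
        rw [this, sub_zero]
        obtain ⟨ξ, hξ, h1⟩ := bad_nodes hMpos hκ0' hκ1' dM dv0 dv1 GT hdM hdv0 hdv1 nodes kind lo hi
          hcovA hcovB (hFG v hF) hg
        have h2 : F v ≤ Φ ξ v := by
          rcases h1 with ⟨hk, h1⟩ | ⟨hk, h1⟩
          · exact hA ξ hξ hk v hF h1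
          · exact hB ξ hξ hk v hF h1
        exact h2.trans (single_le_sum (f := fun ξ => Φ ξ v) (fun ξ hξ => hΦ ξ hξ v) hξ)
    -- the main term
    have hterm : MT.term M κr Y 0 = ∑ u ∈ MT.grid K M, κr (∑ i, u i) *
        (∑ x ∈ range M, Y (Fin.cons x u)) ^ 2 := by
      unfold MT.term
      have h1 := GapD.sum_grid_cons K M (fun v => κr (MT.Two.rad (0 : Fin (K + 1)) v) *
        (Y v * ∑ x ∈ range M, Y (Function.update v 0 x)))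
      have h2 : MT.grid (K + 1) M = Fintype.piFinset (fun _ : Fin (K + 1) => range M) := rfl
      have h3 : MT.grid K M = Fintype.piFinset (fun _ : Fin K => range M) := rfl
      rw [h2, h3, h1]
      refine sum_congr rfl fun u _ => ?_
      have e2 : ∀ x, MT.Two.rad (0 : Fin (K + 1)) (Fin.cons x u : Fin (K + 1) → ℕ) = ∑ i, u i := by
        intro x
        unfold MT.Two.rad
        have h := Finset.add_sum_erase (univ : Finset (Fin (K + 1)))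
          (fun i => (Fin.cons x u : Fin (K + 1) → ℕ) i) (mem_univ 0)
        rw [Fin.sum_univ_succ] at h
        simp only [Fin.cons_zero, Fin.cons_succ] at h
        omega
      have e3 : ∀ x y, Function.update (Fin.cons x u : Fin (K + 1) → ℕ) 0 y = Fin.cons y u :=
        fun x y => Fin.update_cons_zero (α := fun _ => ℕ) x u y
      simp only [e2, e3]
      rw [← mul_sum, ← sum_mul]
      ring
    have hpoint : ∀ u : Fin K → ℕ, κr (∑ i, u i) * (∑ x ∈ range M, F (Fin.cons x u)) ^ 2 -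
        ∑ ξ ∈ nodes, c (∑ i, u i) * ((∑ x ∈ range M, F (Fin.cons x u)) *
          ∑ x ∈ range M, Φ ξ (Fin.cons x u)) ≤
        κr (∑ i, u i) * (∑ x ∈ range M, Y (Fin.cons x u)) ^ 2 := by
      intro u
      set r := ∑ i, u i with hr
      set G := ∑ x ∈ range M, F (Fin.cons x u) with hG
      set H := ∑ x ∈ range M, Y (Fin.cons x u) with hH
      have hH0 : 0 ≤ H := sum_nonneg fun x _ => hY0 _
      have hHG : H ≤ G := sum_le_sum fun x _ => hYF _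
      have hG0 : 0 ≤ G := hH0.trans hHG
      have hdiff : G - H ≤ ∑ ξ ∈ nodes, ∑ x ∈ range M, Φ ξ (Fin.cons x u) := by
        rw [hG, hH, ← sum_sub_distrib, sum_comm]
        exact sum_le_sum fun x _ => hbadF (Fin.cons x u)
      have hrw : ∑ ξ ∈ nodes, c r * (G * ∑ x ∈ range M, Φ ξ (Fin.cons x u)) = c r * G *
          ∑ ξ ∈ nodes, ∑ x ∈ range M, Φ ξ (Fin.cons x u) := by
        refine Eq.trans (sum_congr rfl fun ξ _ => ?_) (mul_sum _ _ _).symm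
        ring
      rw [hrw]
      set L := ∑ ξ ∈ nodes, ∑ x ∈ range M, Φ ξ (Fin.cons x u) with hL
      have hL0 : 0 ≤ L := le_trans (by linarith) hdiff
      by_cases hk : 0 ≤ κr r
      · have h1 : G ^ 2 - 2 * G * (G - H) ≤ H ^ 2 := by nlinarith [sq_nonneg (G - H)]
        have h2 : κr r * (G ^ 2 - 2 * G * (G - H)) ≤ κr r * H ^ 2 := mul_le_mul_of_nonneg_left h1 hk
        have h3 : κr r * (2 * G * (G - H)) ≤ c r * G * L := by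
          calc κr r * (2 * G * (G - H)) = (2 * κr r) * (G * (G - H)) := by ring
            _ ≤ c r * (G * (G - H)) := by
                apply mul_le_mul_of_nonneg_right (hc r)
                exact mul_nonneg hG0 (by linarith)
            _ ≤ c r * (G * L) := by
                apply mul_le_mul_of_nonneg_left _ (hc0 r)
                exact mul_le_mul_of_nonneg_left hdiff hG0
            _ = c r * G * L := by ring
        linarith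
      · have hk' : κr r ≤ 0 := (not_le.mp hk).le
        have h1 : H ^ 2 ≤ G ^ 2 := pow_le_pow_left₀ hH0 hHG 2
        have h2 : κr r * G ^ 2 ≤ κr r * H ^ 2 := mul_le_mul_of_nonpos_left h1 hk'
        have h3 : 0 ≤ c r * G * L := mul_nonneg (mul_nonneg (hc0 r) hG0) hL0
        linarith
    have hsum : ∑ u ∈ MT.grid K M, κr (∑ i, u i) * (∑ x ∈ range M, F (Fin.cons x u)) ^ 2 -
        ∑ ξ ∈ nodes, ∑ u ∈ MT.grid K M, c (∑ i, u i) *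
        ((∑ x ∈ range M, F (Fin.cons x u)) * ∑ x ∈ range M, Φ ξ (Fin.cons x u)) ≤ MT.term M κr Y 0 := by
      rw [hterm]
      refine le_trans (le_of_eq ?_) (sum_le_sum fun u _ => hpoint u)
      rw [sum_sub_distrib]
      congr 1
      rw [sum_comm]
    have hk0 : (0 : ℝ) ≤ ((K + 1 : ℕ) : ℝ) := Nat.cast_nonneg _
    have h1 := mul_le_mul_of_nonneg_left hsum hk0
    have h2 : (M : ℝ) * ∑ v ∈ MT.grid (K + 1) M, Y v ^ 2 ≤ (M : ℝ) * ∑ v ∈ MT.grid (K + 1) M, F v ^ 2 :=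
      mul_le_mul_of_nonneg_left hsq (Nat.cast_nonneg _)
    rw [mul_sub] at h1
    linarith
  · refine hEH3K_ofW hw0 hww hw hδ hδv hV0 hs0 hκ0' hκ1' hδvs hse hν hκV hVs hEH sl h hnd.1 hh M M2 N1 Rc (U J) hM (by omega)
      (by rw [hK1]; exact hRc) hlev (by rw [hK1]; exact hεM) Y hY1 ?_
    intro v hv m
    exact (hYne v hv).2 m

/-- `DHL[k, 2]` for linear forms: for nondegenerate admissible `s_i n + h_i` two of them are prime for infinitely many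
`n`. -/
def DHLS (k : ℕ) : Prop := ∀ sl h : Fin k → ℕ, SL.Nondeg sl h → SL.Adm sl h →
  ∀ x : ℕ, ∃ n ≥ x, ∃ i j, i ≠ j ∧ (sl i * n + h i).Prime ∧ (sl j * n + h j).Prime

theorem DHLS_of_shift {k : ℕ}
    (H : ∀ sl h : Fin k → ℕ, SL.Nondeg sl h → SL.Adm sl h → (∀ i, 1 ≤ h i) →
      ∀ x : ℕ, ∃ n ≥ x, ∃ i j, i ≠ j ∧ (sl i * n + h i).Prime ∧ (sl j * n + h j).Prime) : DHLS k := by
  intro sl h hnd hadm x
  have e : ∀ (i : Fin k) (n : ℕ), sl i * n + (h i + sl i) = sl i * (n + 1) + h i := fun i n => by ring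
  obtain ⟨n, hn, i, j, hij, h1, h2⟩ := H sl (fun i => h i + sl i) ⟨hnd.1, fun i j hij h0 => by
      apply hnd.2 i j hij
      have h1 : sl i * h j + sl i * sl j = sl j * h i + sl j * sl i := by
        rw [← mul_add, ← mul_add]
        exact h0
      have h2 : sl i * sl j = sl j * sl i := mul_comm _ _
      omega⟩ (fun p hp => by
      obtain ⟨n, hn⟩ := hadm p hp
      refine ⟨n + p - 1, fun i hd => hn i ?_⟩
      have hp1 := hp.one_lt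
      rw [e i (n + p - 1), show n + p - 1 + 1 = n + p by omega] at hd
      have h3 : sl i * (n + p) + h i = (sl i * n + h i) + p * sl i := by ring
      rw [h3] at hd
      exact (Nat.dvd_add_left (dvd_mul_right p _)).1 hd) (fun i => by
      have := hnd.1 i
      show 1 ≤ h i + sl i
      omega) x
  refine ⟨n + 1, by omega, i, j, hij, ?_, ?_⟩
  · rw [← e]
    exact h1
  · rw [← e]
    exact h2

/-- The certificate for a sum of two products. -/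
theorem cert_two {w w' s ν κ δ δv e V0 κ' : ℝ} (hw0 : 0 ≤ w) (hww : w < w') (hw : 2 * w' ≤ 1 / 2) (hδ : 0 < δ)
    (hδv : δ ≤ δv) (hV0 : 0 ≤ V0) (hs0 : 0 ≤ s) (hκ0' : 0 ≤ κ') (hκ1' : κ' ≤ 1) (hδvs : δv - δ + s ≤ 1 / 4) (hse : s < 3 * e)
    (hν : 3 * e < ν) (hκV : κ + s + (V0 + δv) ≤ 1 / 2 + δ)
    (hVs : V0 + s ≤ 1 / 2) (hEH : EHW w' (D3 w s ν κ δ δv e V0))
    {K : ℕ} (M M2 N1 P Rc J n GT : ℕ) (hM : M = 2 * M2) (hP : P + N1 = M2) (hRc : Rc + K = N1)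
    (hlev : (N1 : ℝ) ≤ (1 / 2 + 2 * w) * M2)
    (U : ℕ → ℕ) (hU0 : U 0 = 0) (hU : Monotone U) (hUJ : U J < P)
    (hεM : ((Rc + U J + K : ℕ) : ℝ) ≤ (1 / 4 + w + 1 / 8) * M)
    (hn1 : n ≤ Rc + U J) (hn2 : n + (K + 1) ≤ M2)
    (mm : ℕ → ℝ) (hm0 : 0 ≤ mm 0) (hm : Monotone mm)
    (κr : ℕ → ℝ) (hκ0 : ∀ r, r + U J < Rc → κr r = 1)
    (hκs : ∀ j < J, ∀ r, Rc ≤ r + U (j + 1) → r + U j < Rc → κr r =
      mm j * MT.TwoTh.Cs M P U j / (MT.TwoTh.Cs M P U j - 1) /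
        (1 + mm j * MT.TwoTh.Cs M P U j / (MT.TwoTh.Cs M P U j - 1)))
    (hκt : ∀ j < J, ∀ r, Rc + U j ≤ r → r < Rc + U (j + 1) → κr r = -(mm j * MT.TwoTh.Ct M P U j))
    (φ0 φ1 g0 g1 : ℕ → ℕ) (hφ0 : ∀ r, n ≤ r → φ0 r = 0) (hφ1 : ∀ r, n ≤ r → φ1 r = 0)
    (hg0 : ∀ x, GT ≤ x → g0 x = 0) (hg1 : ∀ x, GT ≤ x → g1 x = 0)
    {ι : Type*} (nodes : Finset ι) (kind : ι → Bool) (lo hi : ι → ℕ) (C : ι → ℝ)
    (p0 p1 ψ : ι → ℕ → ℕ)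
    (hC : ∀ ξ ∈ nodes, 0 ≤ C ξ) (dM dv0 dv1 : ℕ) (hdM : (dM : ℝ) ≤ δ * M)
    (hdv0 : (dv0 : ℝ) ≤ δv * M) (hdv1 : δv * M ≤ (dv1 : ℝ))
    (hcovA : ∀ u : ℕ, dM < u → u ≤ GT → ∃ ξ ∈ nodes, kind ξ = false ∧ lo ξ < u ∧ lo ξ ≤ hi ξ ∧
      (u ≤ hi ξ ∨ dv1 ≤ hi ξ))
    (hcovB : ∀ u : ℕ, dv0 < u → u ≤ GT → ∃ ξ ∈ nodes, kind ξ = true ∧ lo ξ < u ∧ u ≤ hi ξ)
    (hA : ∀ ξ ∈ nodes, kind ξ = false → ∀ v : Fin (K + 1) → ℕ, (∀ i, v i + 1 ≤ GT) →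
      ∑ i, v i < n → FailA δ s κ' (1 / 4 + w) M dv1 (lo ξ) (hi ξ) v →
      Ff (K + 1) φ0 φ1 g0 g1 v ≤
        C ξ * (Ff (K + 1) (p0 ξ) (p1 ξ) g0 g1 v * ∏ i, (ψ ξ (v i) : ℝ)))
    (hB : ∀ ξ ∈ nodes, kind ξ = true → ∀ v : Fin (K + 1) → ℕ, (∀ i, v i + 1 ≤ GT) →
      ∑ i, v i < n → FailB δ s (V0 + δv) M (lo ξ) (hi ξ) v →
      Ff (K + 1) φ0 φ1 g0 g1 v ≤
        C ξ * (Ff (K + 1) (p0 ξ) (p1 ξ) g0 g1 v * ∏ i, (ψ ξ (v i) : ℝ)))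
    (c : ℕ → ℝ) (hc0 : ∀ r, 0 ≤ c r) (hc : ∀ r, 2 * κr r ≤ c r)
    (hNUM : (M : ℝ) * ∑ v ∈ MT.grid (K + 1) M, Ff (K + 1) φ0 φ1 g0 g1 v ^ 2 +
      ((K + 1 : ℕ) : ℝ) * ∑ ξ ∈ nodes, C ξ * ∑ u ∈ MT.grid K M, c (∑ i, u i) *
        (∑ x ∈ range M, Ff (K + 1) φ0 φ1 g0 g1 (Fin.cons x u)) *
        ((∏ j, (ψ ξ (u j) : ℝ)) *
          ∑ x ∈ range M, Ff (K + 1) (p0 ξ) (p1 ξ) g0 g1 (Fin.cons x u) * (ψ ξ x : ℝ)) <
      ((K + 1 : ℕ) : ℝ) * ∑ u ∈ MT.grid K M, κr (∑ i, u i) *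
        (∑ x ∈ range M, Ff (K + 1) φ0 φ1 g0 g1 (Fin.cons x u)) ^ 2) :
    DHLS (K + 1) := by
  refine DHLS_of_shift fun sl h hnd hadm hh => ?_
  obtain ⟨B, hB'⟩ := Ff_le (K + 1) n φ0 φ1 g0 g1 hφ0 hφ1
  refine cert_gen hw0 hww hw hδ hδv hV0 hs0 hκ0' hκ1' hδvs hse hν hκV hVs hEH M M2 N1 P Rc J n GT hM hP hRc hlev U
    hU0 hU hUJ hεM hn1 hn2 mm hm0 hm κr hκ0 hκs hκt (Ff (K + 1) φ0 φ1 g0 g1) B
    (Ff_nonneg _ _ _ _ _) hB' (Ff_perm _ _ _ _ _) (Ff_supp _ n _ _ _ _ hφ0 hφ1)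
    (Ff_giant _ GT _ _ _ _ hg0 hg1) nodes kind lo hi
    (fun ξ v => C ξ * (Ff (K + 1) (p0 ξ) (p1 ξ) g0 g1 v * ∏ i, (ψ ξ (v i) : ℝ)))
    (fun ξ hξ v => mul_nonneg (hC ξ hξ) (mul_nonneg (Ff_nonneg _ _ _ _ _ _)
      (prod_nonneg fun i _ => Nat.cast_nonneg _))) dM dv0 dv1 hdM hdv0 hdv1 hcovA hcovB
    (fun ξ hξ hk v hv hf => hA ξ hξ hk v (Ff_giant _ GT _ _ _ _ hg0 hg1 v hv)
      (Ff_supp _ n _ _ _ _ hφ0 hφ1 v hv) hf)
    (fun ξ hξ hk v hv hf => hB ξ hξ hk v (Ff_giant _ GT _ _ _ _ hg0 hg1 v hv)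
      (Ff_supp _ n _ _ _ _ hφ0 hφ1 v hv) hf) c hc0 hc ?_ sl h hnd hadm hh
  refine lt_of_le_of_lt (le_of_eq ?_) hNUM
  congr 2
  refine sum_congr rfl fun ξ _ => ?_
  rw [mul_sum]
  refine sum_congr rfl fun u _ => ?_
  have e : ∑ x ∈ range M, C ξ * (Ff (K + 1) (p0 ξ) (p1 ξ) g0 g1 (Fin.cons x u) *
      ∏ i, (ψ ξ ((Fin.cons x u : Fin (K + 1) → ℕ) i) : ℝ)) = C ξ * ((∏ j, (ψ ξ (u j) : ℝ)) *
      ∑ x ∈ range M, Ff (K + 1) (p0 ξ) (p1 ξ) g0 g1 (Fin.cons x u) * (ψ ξ x : ℝ)) := by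
    rw [mul_sum, mul_sum]
    refine sum_congr rfl fun x _ => ?_
    rw [Fin.prod_univ_succ]
    simp only [Fin.cons_zero, Fin.cons_succ]
    ring
  rw [e]
  ring

end Pool.Agent.S43
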