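import Pool.Agent.S43.SmW2
import Pool.Agent.Disp.DV

/-! DISP, smooth core for `beta` = indicator of a class modulo a fixed `W0` in an interval (helper35, after `L8Smooth`,
`DV`). -/

set_option autoImplicit false

namespace Pool.Agent.S43

open Finset Pool.Agent.BGG Pool.Agent.BCore Pool.Agent.Disp

/-- Class: indicator functions of residue classes modulo `W0` in intervals `(y, z]` inside `(N, 4N]`. -/
def ClAP (W0 : ℕ) : ℝ → ℝ → Set (ℕ → ℝ) := fun _ N =>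
  {β | ∃ y z c : ℕ, N ≤ (y : ℝ) ∧ (z : ℝ) ≤ 4 * N ∧ ∀ n, β n = if (y < n ∧ n ≤ z) ∧ n % W0 = c then 1 else 0}

/-- the triples for the smooth core, prime to `W0` -/
structure TriSW (p : Prm) (W0 : ℕ) (s x N : ℝ) (r u v : ℕ) : Prop extends TriS p s x N r u v where
  cop : Nat.Coprime (r * (u * v)) W0

/-- the triples of both kinds for the smooth core, prime to `W0` -/
structure TriSQW (p : Prm) (W0 : ℕ) (dv ν2 s x N : ℝ) (r u v : ℕ) : Prop extends TriSQ p dv ν2 s x N r u v where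
  cop : Nat.Coprime (r * (u * v)) W0

theorem ext_indA (W0 : ℕ) {β : ℕ → ℝ} {y z c : ℕ}
    (h : ∀ n, β n = if (y < n ∧ n ≤ z) ∧ n % W0 = c then 1 else 0) :
    Disp.ext β = indA W0 (c : ℤ) (y : ℤ) (z : ℤ) := by
  funext n
  unfold Disp.ext indA
  by_cases hn : 0 ≤ n
  · rw [if_pos hn, h]
    have hcast : ((n.toNat : ℕ) : ℤ) = n := Int.toNat_of_nonneg hn
    have hmod : n % (W0 : ℤ) = ((n.toNat % W0 : ℕ) : ℤ) := by
      rw [Int.natCast_mod, hcast]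
    by_cases hc : (y < n.toNat ∧ n.toNat ≤ z) ∧ n.toNat % W0 = c
    · rw [if_pos hc, if_pos]
      · simp
      · refine ⟨Finset.mem_Ioc.2 ⟨by omega, by omega⟩, ?_⟩
        rw [hmod, hc.2]
    · rw [if_neg hc, if_neg]
      · simp
      · rintro ⟨h1, h3⟩
        have h2 := Finset.mem_Ioc.1 h1
        apply hc
        rw [hmod] at h3
        refine ⟨⟨by omega, by omega⟩, ?_⟩
        exact_mod_cast h3
  · rw [if_neg hn, if_neg]
    rintro ⟨h1, _⟩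
    have h2 := Finset.mem_Ioc.1 h1
    have : (0 : ℤ) ≤ (y : ℤ) := Int.natCast_nonneg y
    omega

theorem cop_Pm {W0 r d1 d2 : ℕ} (h1 : Nat.Coprime (r * d1) W0) (h2 : Nat.Coprime (r * d2) W0) :
    Nat.Coprime (Pm r d1 d2) W0 := by
  unfold Pm
  have a1 : Nat.Coprime r W0 := Nat.Coprime.coprime_mul_right h1
  have a2 : Nat.Coprime d1 W0 := Nat.Coprime.coprime_mul_left h1
  have a3 : Nat.Coprime d2 W0 := Nat.Coprime.coprime_mul_left h2
  exact Nat.Coprime.mul_left a1 (Nat.Coprime.coprime_dvd_left (Nat.lcm_dvd_mul d1 d2) (Nat.Coprime.mul_left a2 a3))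

theorem core_smoothW (W0 : ℕ) (hW0 : 1 ≤ W0) (p : Prm) (hp : p.OkS) (s : ℝ) (hs : 0 < s) (hs2 : 10 * s ≤ p.e) :
    ∃ η : ℝ, 0 < η ∧ CoreOK p.ν s η (TriSW p W0 s) (ClAP W0) := by
  obtain ⟨w, ν, κ, δ, δ1, e, V0⟩ := p
  obtain ⟨hw, hw2, hν, hδ, hδ1, he, h1, h2, h3, h4⟩ := hp
  dsimp only at hw hw2 hν hδ hδ1 he h1 h2 h3 h4 hs2 ⊢
  obtain ⟨C, hC, hbc⟩ := bcore_smoothW W0 hW0
  -- the exponents
  set hh : ℝ := 4 * w + 3 * e + δ + 2 * s with hhh
  set base1 : ℝ := 4 * ν - 1 - 28 * w - 21 * e - 7 * δ - 3 / 2 * δ1 - 12 * s with hb1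
  set base2 : ℝ := 1 / 2 + ν - 48 * w - 39 * e - 13 * δ - 25 * s with hb2
  have hb1p : 0 < base1 := by rw [hb1]; linarith
  have hb2p : 0 < base2 := by rw [hb2]; linarith
  set η : ℝ := min (base1 / 24) (base2 / 48) with hη
  have hηp : 0 < η := by
    rw [hη]; exact lt_min (by linarith) (by linarith)
  have hη1 : η ≤ base1 / 24 := min_le_left _ _
  have hη2 : η ≤ base2 / 48 := min_le_right _ _
  refine ⟨η, hηp, ?_⟩
  -- a small exponent for all conditions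
  set ζ : ℝ := min (min (base1 / 2) (base2 / 2)) (min (e / 10) (min s (η / 2))) with hζ
  have hζp : 0 < ζ := by
    rw [hζ]
    refine lt_min (lt_min (by linarith) (by linarith)) (lt_min (by linarith) (lt_min hs (by linarith)))
  have hζ1 : ζ ≤ base1 / 2 := (min_le_left _ _).trans (min_le_left _ _)
  have hζ2 : ζ ≤ base2 / 2 := (min_le_left _ _).trans (min_le_right _ _)
  have hζ3 : ζ ≤ e / 10 := (min_le_right _ _).trans (min_le_left _ _)
  have hζ4 : ζ ≤ s := (min_le_right _ _).trans ((min_le_right _ _).trans (min_le_left _ _))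
  have hζ5 : ζ ≤ η / 2 := (min_le_right _ _).trans ((min_le_right _ _).trans (min_le_right _ _))
  obtain ⟨x1, hx1⟩ := SC.large (512 + 16 * C) ζ hζp
  obtain ⟨x2, hx22, hx2⟩ := tau_sup (η / 8) (by linarith)
  refine ⟨max (max x1 x2) 2, ?_⟩
  intro x hx M N hS R U V hR hU hV a b1 b2 β hβ wt hw1 hw0
  have hxx1 : x1 ≤ x := (le_max_left _ _).trans ((le_max_left _ _).trans hx)
  have hxx2 : x2 ≤ x := (le_max_right _ _).trans ((le_max_left _ _).trans hx)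
  have hx2' : 2 ≤ x := (le_max_right _ _).trans hx
  have hxg1 : 1 ≤ x := by linarith
  have hx0 : 0 < x := by linarith
  have hbig := hx1 x hxx1
  obtain ⟨htau, hlog⟩ := hx2 x hxx2
  obtain ⟨hN1, hN2, hMN1, hMN2⟩ := hS
  have hbg : ∀ c : ℝ, ζ ≤ c → 512 + 16 * C ≤ x ^ c := fun c hc =>
    hbig.trans (Real.rpow_le_rpow_of_exponent_le hxg1 hc)
  -- the zero case
  by_cases hall : ∀ r l u1 v1 u2 v2 h, wt r l u1 v1 u2 v2 h = 0
  · have : Tot ⌊4 * N⌋₊ R U V (Hx s x ⌊4 * M⌋₊ R U V) (Disp.ext β) a b1 b2 wt = 0 := by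
      unfold Tot
      simp [hall]
    rw [this, norm_zero]
    positivity
  push Not at hall
  obtain ⟨r, l, u1, v1, u2, v2, h, hne⟩ := hall
  obtain ⟨⟨hr, hu1, hv1, _, _⟩, hT1, _, _⟩ := hw0 r l u1 v1 u2 v2 h hne
  rw [Finset.mem_Ioc] at hr hv1
  rw [Finset.mem_Icc] at hu1
  have hRr : (R : ℝ) < r := by exact_mod_cast hr.1
  have hr2R : (r : ℝ) ≤ 2 * R := by exact_mod_cast hr.2
  have hUu : (U : ℝ) ≤ u1 := by exact_mod_cast hu1.1
  have hu2U : (u1 : ℝ) ≤ 2 * U := by exact_mod_cast hu1.2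
  have hVv : (V : ℝ) ≤ v1 := by exact_mod_cast hv1.1.le
  have hv2V : (v1 : ℝ) ≤ 2 * V := by exact_mod_cast hv1.2
  have hR0 : (0 : ℝ) < R := by exact_mod_cast hR
  have hU0 : (0 : ℝ) < U := by exact_mod_cast hU
  have hV0 : (0 : ℝ) < V := by exact_mod_cast hV
  have hD0 : (0 : ℝ) < (U : ℝ) * V := mul_pos hU0 hV0
  have hqlo := hT1.qlo
  have hqhi := hT1.qhi
  have hrlo := hT1.rlo
  have hrhi := hT1.rhi
  dsimp only at hqhi hrlo hrhi
  push_cast at hqlo hqhi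
  have ha : R * ((U : ℝ) * V) ≤ x ^ (1 / 2 + 2 * w) := by
    refine le_trans ?_ hqhi
    apply mul_le_mul hRr.le (mul_le_mul hUu hVv hV0.le (by positivity)) hD0.le (by positivity)
  have hb : x ^ (1 / 2 - s) ≤ 8 * (R * ((U : ℝ) * V)) := by
    refine hqlo.trans ?_
    calc (r : ℝ) * (u1 * v1) ≤ (2 * R) * ((2 * U) * (2 * V)) := by
          apply mul_le_mul hr2R (mul_le_mul hu2U hv2V (by positivity) (by positivity))
            (by positivity) (by positivity)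
      _ = 8 * (R * ((U : ℝ) * V)) := by ring
  have hc : N * x ^ (-(3 * e + δ)) ≤ 2 * R := hrlo.trans hr2R
  have hd : R ≤ N * x ^ (-(3 * e) + s) := hRr.le.trans hrhi
  -- M and N
  have hN0 : 0 < N := lt_of_lt_of_le (by positivity) hN1
  have hM0 : 0 < M := by
    by_contra hc2
    push Not at hc2
    have : M * N ≤ 0 := mul_nonpos_of_nonpos_of_nonneg hc2 hN0.le
    linarith
  have hk3n := SC.k3n hxg1 hR0 hD0 ha hc
  have hq := SC.hq (s := s) hxg1 hM0 hMN1 hR0 hD0 hk3n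
  -- large N
  have hNb : 1 ≤ N := by
    have h5 := hbg ν (by linarith)
    linarith
  have hNf : N ≤ (⌊4 * N⌋₊ : ℝ) := by
    have := Nat.lt_floor_add_one (4 * N)
    linarith
  have hNf2 : (⌊4 * N⌋₊ : ℝ) ≤ 4 * N := Nat.floor_le (by linarith)
  have hMb : 1 ≤ M := by
    have h5 : x ^ (1 / 2 : ℝ) * x ^ (1 / 2 : ℝ) = x := by
      rw [← Real.rpow_add hx0]; norm_num
    have h6 := hbg (1 / 2) (by linarith)
    have h7 : M * N ≤ M * (4 * x ^ (1 / 2 : ℝ)) := mul_le_mul_of_nonneg_left hN2 hM0.le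
    have h8 : x ^ (1 / 2 : ℝ) * x ^ (1 / 2 : ℝ) ≤ 16 * M * x ^ (1 / 2 : ℝ) := by
      rw [h5]; linarith
    have h9 : x ^ (1 / 2 : ℝ) ≤ 16 * M := le_of_mul_le_mul_right h8 (by positivity)
    linarith
  have hMf : M ≤ (⌊4 * M⌋₊ : ℝ) := by
    have := Nat.lt_floor_add_one (4 * M)
    linarith
  have hMf0 : (0 : ℝ) < (⌊4 * M⌋₊ : ℝ) := by linarith
  -- the frequencies
  set H : ℕ := Hx s x ⌊4 * M⌋₊ R U V with hH
  have hHarg : 0 < 32 * x ^ s * (R * ((U : ℝ) * V) ^ 2) / (⌊4 * M⌋₊ : ℝ) := by positivity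
  have hH1 : 1 ≤ H := by
    rw [hH]; unfold Hx
    exact Nat.ceil_pos.2 hHarg
  have hHh : (H : ℝ) ≤ x ^ hh := by
    have g1 : (H : ℝ) ≤ 32 * x ^ s * (R * ((U : ℝ) * V) ^ 2) / (⌊4 * M⌋₊ : ℝ) + 1 := by
      rw [hH]; unfold Hx
      exact (Nat.ceil_lt_add_one hHarg.le).le
    have g2 : 32 * x ^ s * (R * ((U : ℝ) * V) ^ 2) / (⌊4 * M⌋₊ : ℝ) ≤
        32 * x ^ s * (R * ((U : ℝ) * V) ^ 2) / M :=
      div_le_div_of_nonneg_left (by positivity) hM0 hMf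
    have g3 : (1 : ℝ) ≤ x ^ (s + 4 * w + 3 * e + δ) :=
      Real.one_le_rpow hxg1 (by linarith)
    have g4 := hbg s hζ4
    calc (H : ℝ) ≤ 256 * x ^ (s + 4 * w + 3 * e + δ) + 1 := by linarith
      _ ≤ 257 * x ^ (s + 4 * w + 3 * e + δ) := by linarith
      _ ≤ x ^ s * x ^ (s + 4 * w + 3 * e + δ) :=
          mul_le_mul_of_nonneg_right (by linarith) (by linarith)
      _ = x ^ hh := by
          rw [← Real.rpow_add hx0, hhh]; congr 1; ring
  -- K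
  set K : ℝ := (R * ((U : ℝ) * V) ^ 2) ^ ((1 : ℝ) / 3) with hKdef
  have hK0 : 0 < K := by rw [hKdef]; positivity
  have hK3 : K ^ 3 = R * ((U : ℝ) * V) ^ 2 := by
    rw [hKdef, ← Real.rpow_natCast, ← Real.rpow_mul (by positivity)]
    norm_num
  set y : ℝ := hh + 2 * η with hy
  have q4 := SC.c4 (δ1 := δ1) hxg1 hN1 hK0 hK3 hk3n y (by
    have := hbg (4 * ν - (1 + 4 * w + 3 * e + δ) - 3 / 2 * δ1 - 6 * y) (by
      rw [hy, hhh]; linarith)
    linarith)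
  have q2 := SC.c2 hxg1 hN1 hK3 hk3n (by
    have := hbg (4 * ν - (1 + 4 * w + 3 * e + δ)) (by linarith)
    linarith)
  have q5 := SC.c5 hxg1 hR0 hD0 hN1 hK3 hb hc y (by
    have := hbg (1 / 2 - s + (ν - (3 * e + δ)) - 12 * y) (by
      rw [hy, hhh]; linarith)
    linarith)
  have qh := SC.ch hxg1 hR0 hD0 hK0 hN2 hK3 hb hd hh (by
    have := hbg (1 / 2 - 3 * s + 3 * e - 3 * hh) (by
      rw [hhh]; linarith)
    linarith)
  have qk := SC.ckap (κ := κ) hxg1 hN1 hK3 hk3n (by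
    have := hbg (3 * κ - (1 + 4 * w + 3 * e + δ - ν)) (by linarith)
    linarith)
  have hB1 : 1 ≤ x ^ (δ1 / 2) := Real.one_le_rpow hxg1 (by linarith)
  have hBB : (x ^ (δ1 / 2)) ^ 2 = x ^ δ1 := by
    rw [← Real.rpow_natCast, ← Real.rpow_mul hx0.le]; congr 1; push_cast; ring
  obtain ⟨y0, z0, c0, _, _, hβe⟩ := hβ
  rw [ext_indA W0 hβe]
  have hmain := hbc ⌊4 * N⌋₊ R U V H ⌊x ^ (20 : ℕ)⌋₊ K (x ^ (δ1 / 2)) (x ^ (-y)) (x ^ (η / 8))
    a b1 b2 (y0 : ℤ) (z0 : ℤ) (c0 : ℤ) wt hR hU hV hH1 hK0 (q2.trans hNf)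
    (by rw [hK3]; ring) hB1 (by positivity)
    (q4.trans (mul_le_mul_of_nonneg_left hNf (by positivity)))
    (by
      refine q5.trans (le_of_eq ?_)
      ring)
    (by
      apply Nat.le_floor
      push_cast
      have g1 : (R : ℝ) * U ^ 2 * V ^ 2 ≤ (R * ((U : ℝ) * V)) ^ 2 := by
        have : (1 : ℝ) ≤ R := by exact_mod_cast hR
        calc (R : ℝ) * U ^ 2 * V ^ 2 = R * ((U : ℝ) * V) ^ 2 * 1 := by ring
          _ ≤ R * ((U : ℝ) * V) ^ 2 * R := mul_le_mul_of_nonneg_left this (by positivity)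
          _ = _ := by ring
      have g2 : (R * ((U : ℝ) * V)) ^ 2 ≤ (x ^ (1 / 2 + 2 * w)) ^ 2 :=
        pow_le_pow_left₀ (by positivity) ha 2
      have g3 : (x ^ (1 / 2 + 2 * w)) ^ 2 ≤ x ^ (2 : ℝ) := by
        rw [← Real.rpow_natCast, ← Real.rpow_mul hx0.le]
        apply Real.rpow_le_rpow_of_exponent_le hxg1
        push_cast
        linarith
      have g4 := hbg 1 (by linarith)
      have g5 : (2 : ℝ) ^ 10 ≤ x ^ (18 : ℝ) := by
        have e1 : x ^ (2 : ℝ) ≤ x ^ (18 : ℝ) :=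
          Real.rpow_le_rpow_of_exponent_le hxg1 (by norm_num)
        have e2 : x ^ (2 : ℝ) = x ^ (1 : ℝ) * x ^ (1 : ℝ) := by
          rw [← Real.rpow_add hx0]; norm_num
        have e3 : (512 : ℝ) * 512 ≤ x ^ (1 : ℝ) * x ^ (1 : ℝ) :=
          mul_le_mul (by linarith) (by linarith) (by norm_num) (by positivity)
        calc (2 : ℝ) ^ 10 ≤ 512 * 512 := by norm_num
          _ ≤ _ := e3
          _ = x ^ (2 : ℝ) := e2.symm
          _ ≤ _ := e1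
      have g6 : (2 : ℝ) ^ 10 * ((R : ℝ) * U ^ 2 * V ^ 2) ≤ x ^ (20 : ℕ) := by
        calc (2 : ℝ) ^ 10 * ((R : ℝ) * U ^ 2 * V ^ 2) ≤ x ^ (18 : ℝ) * x ^ (2 : ℝ) :=
            mul_le_mul g5 (g1.trans (g2.trans g3)) (by positivity) (by positivity)
          _ = x ^ (20 : ℕ) := by
            rw [← Real.rpow_add hx0, ← Real.rpow_natCast]; norm_num
      refine le_trans (le_of_eq ?_) g6
      ring)
    (by
      intro m hm hmZ
      apply htau m hm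
      exact (Nat.cast_le.2 hmZ).trans (Nat.floor_le (by positivity)))
    (by
      refine le_trans ?_ hlog
      have h20 : (1 : ℝ) ≤ x ^ (20 : ℕ) := one_le_pow₀ hxg1
      have hfl : (1 : ℝ) ≤ (⌊x ^ (20 : ℕ)⌋₊ : ℝ) := by
        have : 1 ≤ ⌊x ^ (20 : ℕ)⌋₊ := Nat.le_floor (by simpa using h20)
        exact_mod_cast this
      have := Real.log_le_log (by linarith) (Nat.floor_le (show (0 : ℝ) ≤ x ^ (20 : ℕ) by positivity))
      linarith)
    hw1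
    (by
      intro r l u1 v1 u2 v2 h hne
      obtain ⟨_, hT1, hT2, hG⟩ := hw0 r l u1 v1 u2 v2 h hne
      refine ⟨hG, ?_, cop_Pm hT1.cop hT2.cop⟩
      intro t ht1 ht2
      have ht : 1 ≤ t := by
        by_contra hc2
        push Not at hc2
        have hHpos : (0 : ℝ) < H := by exact_mod_cast hH1
        have : (H : ℝ) * t < H * 1 := mul_lt_mul_of_pos_left hc2 hHpos
        linarith
      obtain ⟨r1, hr1, hr2, hr3⟩ := hT1.win t ht (ht2.trans qk)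
      refine ⟨r1, hr1, hr2, ?_⟩
      rw [hBB]
      exact hr3)
  refine hmain.trans ?_
  have hHY : (H : ℝ) * x ^ (-y) ≤ x ^ (-(2 * η)) := by
    calc (H : ℝ) * x ^ (-y) ≤ x ^ hh * x ^ (-y) :=
          mul_le_mul_of_nonneg_right hHh (by positivity)
      _ = x ^ (-(2 * η)) := by
          rw [← Real.rpow_add hx0, hy]; congr 1; ring
  have hT4 : (x ^ (η / 8)) ^ 4 = x ^ (η / 2) := by
    rw [← Real.rpow_natCast, ← Real.rpow_mul hx0.le]; congr 1; push_cast; ring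
  have h16 : 16 * C ≤ x ^ (η / 2) := by
    have := hbg (η / 2) hζ5
    linarith
  have hNsq : (⌊4 * N⌋₊ : ℝ) ^ 2 ≤ 16 * N ^ 2 := by
    calc (⌊4 * N⌋₊ : ℝ) ^ 2 ≤ (4 * N) ^ 2 := pow_le_pow_left₀ (Nat.cast_nonneg _) hNf2 2
      _ = 16 * N ^ 2 := by ring
  rw [hT4]
  calc C * x ^ (η / 2) * (⌊4 * N⌋₊ : ℝ) ^ 2 * (U : ℝ) ^ 2 * (V : ℝ) ^ 2 * (H * x ^ (-y)) =
        (C * x ^ (η / 2) * ((U : ℝ) * V) ^ 2) * ((⌊4 * N⌋₊ : ℝ) ^ 2 * (H * x ^ (-y))) := by ring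
    _ ≤ (C * x ^ (η / 2) * ((U : ℝ) * V) ^ 2) * ((16 * N ^ 2) * x ^ (-(2 * η))) := by
        apply mul_le_mul_of_nonneg_left _ (by positivity)
        apply mul_le_mul hNsq hHY (by positivity) (by positivity)
    _ = (16 * C) * (N ^ 2 * ((U : ℝ) * V) ^ 2 * (x ^ (η / 2) * x ^ (-(2 * η)))) := by ring
    _ ≤ x ^ (η / 2) * (N ^ 2 * ((U : ℝ) * V) ^ 2 * (x ^ (η / 2) * x ^ (-(2 * η)))) :=
        mul_le_mul_of_nonneg_right h16 (by positivity)
    _ = N ^ 2 * ((U : ℝ) * V) ^ 2 * (x ^ (η / 2) * x ^ (η / 2) * x ^ (-(2 * η))) := by ring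
    _ = N ^ 2 * ((U : ℝ) * V) ^ 2 * x ^ (-η) := by
        rw [← Real.rpow_add hx0, ← Real.rpow_add hx0]
        congr 2
        ring

theorem core_smooth_dvW (W0 : ℕ) (hW0 : 1 ≤ W0) (p : Prm) (hp : p.OkS) (dv ν2 : ℝ) (hp2 : (p.far dv ν2).OkS)
    (s : ℝ) (hs : 0 < s) (hs2 : 10 * s ≤ p.e) :
    ∃ η : ℝ, 0 < η ∧ CoreOK p.ν s η (TriSQW p W0 dv ν2 s) (ClAP W0) := by
  obtain ⟨η1, h1, hc1⟩ := core_smoothW W0 hW0 p hp s hs hs2
  obtain ⟨η2, h2, hc2⟩ := core_smoothW W0 hW0 (p.far dv ν2) hp2 s hs hs2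
  refine ⟨min η1 η2 / 2, by have := lt_min h1 h2; linarith, ?_⟩
  refine DV_two p.ν ν2 s η1 η2 h1 h2 (TriSQW p W0 dv ν2 s) (TriSW p W0 s) (TriSW (p.far dv ν2) W0 s) (ClAP W0)
    (fun x N => N * x ^ (-(3 * p.e + p.δ))) ?_ hc1 hc2
  intro x N hx r u v ht
  constructor
  · intro hr
    exact { sqf := ht.sqf, qlo := ht.qlo, qhi := ht.qhi, rlo := hr, rhi := ht.rhi, r2 := ht.r2,
            v2 := ht.v2, win := ht.win, cop := ht.cop }
  · intro hr
    rcases ht.alt with h | hN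
    · exact absurd h hr
    · exact ⟨hN, { sqf := ht.sqf, qlo := ht.qlo, qhi := ht.qhi, rlo := ht.rlo, rhi := ht.rhi,
                   r2 := ht.r2, v2 := ht.v2, win := ht.win, cop := ht.cop }⟩

end Pool.Agent.S43
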