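import Pool.Agent.S43.CoreW
import Pool.Agent.S43.AsmV
import Pool.Agent.Disp.FinV

/-! The primes are equidistributed for the moduli `W q`, `q` in `DV43` (helper35, after helper37's `DVV`, `NumV`, `FinV`
and helper57's `DV`). -/

set_option autoImplicit false

namespace Pool.Agent.S43

open Finset Pool.Agent.BGG Pool.Agent.BCore Pool.Agent.Disp Pool.Agent.SL

/-- the general bilinear estimate for the moduli `W q` -/
theorem bil_general_vW (W : ℕ) (hW : 1 ≤ W) (w' : ℝ) (hw' : w' ≤ 1 / 16) (p : Prm) (dv ν2 ν' κ' : ℝ)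
    (hp : p.OkB (p.V0 + dv))
    (hpN : p.OkN (p.V0 + dv)) (hdv : p.δ ≤ dv) (hδ1 : p.δ1 = p.δ) (hν' : ν' ≤ p.ν) (hκ' : p.κ ≤ κ')
    (hν2 : ν2 ≤ 1 / 2 - p.V0 - dv) (hp2 : (p.far dv ν2).OkB (p.V0 + dv))
    (hp2F : (p.far dv ν2).OkF (p.V0 + dv)) (hB : (p.wide dv).Bas)
    (s : ℝ) (hs : 0 < s) (hs2 : 10 * s ≤ p.e) (c : ℕ) (K : ℕ → ℝ) (D : ℝ → Finset ℕ)
    (hD : ∀ x : ℝ, 2 ≤ x → ∀ q ∈ D x, 1 ≤ q ∧ Squarefree q ∧ (q : ℝ) ≤ x ^ (1 / 2 + 2 * p.w) ∧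
      ((q : ℝ) ≤ x ^ (1 / 2 - s) ∨ FacC x ν' κ' p.δ dv p.e p.V0 q)) :
    BILc p.ν c (ClSW c K) (mulD W w' D) := by
  have he := hp.he
  have hb : 3 * p.e + dv < p.ν := by
    have h1 := hB.b1
    have h2 := hB.hν2
    have h3 := hp.hw
    dsimp only [Prm.wide] at h1 h2
    linarith
  obtain ⟨η, hη, hc⟩ := core_dvv p dv ν2 hp hpN hdv hp2 hp2F s hs hs2
  have hTP : ∀ x N r u v, TriQV p dv ν2 s x N r u v → TriB (p.wide dv) s x N r u v :=
    fun _ _ _ _ _ h => h.toTriB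
  have h1 := e1_core (p.wide dv) hB s η hs hs2 hη (TriQV p dv ν2 s) hTP ClOne
    (fun _ _ => subset_rfl) hc c
  have h2 := e1_tau (p.wide dv) hB s hs (TriQV p dv ν2 s) hTP c h1
  exact asmW (p.wide dv) hB s hs (by dsimp only [Prm.wide]; linarith) c K (TriQV p dv ν2 s) hTP h2 D
    (factV_DT p dv ν2 ν' κ' hp hdv hδ1 hν' hκ' hν2 hb s hs (by linarith) D hD) W hW w' hw'

theorem spl (W : ℕ) (u : ℕ) (a : ℤ) (h : IsCoprime a (W : ℤ)) :
    (∃ c : ℕ, ∀ n : ℕ, (W : ℤ) ∣ ((u * n : ℕ) : ℤ) - a ↔ n % W = c) ∨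
      ∀ n : ℕ, ¬ (W : ℤ) ∣ ((u * n : ℕ) : ℤ) - a := by
  by_cases hex : ∃ n0 : ℕ, (W : ℤ) ∣ ((u * n0 : ℕ) : ℤ) - a
  · left
    obtain ⟨n0, hn0⟩ := hex
    have hu : IsCoprime (W : ℤ) (u : ℤ) := by
      obtain ⟨t, ht⟩ := hn0
      have h1 : IsCoprime (a + (W : ℤ) * t) (W : ℤ) := h.add_mul_left_left t
      have h2 : a + (W : ℤ) * t = (u : ℤ) * n0 := by
        rw [← ht]
        push_cast
        ring
      rw [h2] at h1
      exact (IsCoprime.of_mul_left_left h1).symm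
    refine ⟨n0 % W, fun n => ?_⟩
    have h3 : ((u * n : ℕ) : ℤ) - a - (((u * n0 : ℕ) : ℤ) - a) = (u : ℤ) * ((n : ℤ) - n0) := by
      push_cast
      ring
    constructor
    · intro h1
      have h2 := dvd_sub h1 hn0
      rw [h3] at h2
      have h4 := IsCoprime.dvd_of_dvd_mul_left hu h2
      exact (Nat.modEq_iff_dvd.2 h4).symm
    · intro h1
      have h4 : (W : ℤ) ∣ (n : ℤ) - n0 := Nat.modEq_iff_dvd.1 (show n0 ≡ n [MOD W] from h1.symm)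
      have h5 : (W : ℤ) ∣ ((u * n : ℕ) : ℤ) - a - (((u * n0 : ℕ) : ℤ) - a) := by
        rw [h3]
        exact Dvd.dvd.mul_left h4 _
      have h6 := dvd_add h5 hn0
      rwa [sub_add_cancel] at h6
  · right
    push Not at hex
    exact hex

theorem spl_AP (W : ℕ) (x N : ℝ) (β : ℕ → ℝ) (hβ : β ∈ ClInt x N) (u : ℕ) (a : ℤ) (h : IsCoprime a (W : ℤ)) :
    (fun n : ℕ => if (W : ℤ) ∣ ((u * n : ℕ) : ℤ) - a then β n else 0) ∈ ClAP W x N := by
  obtain ⟨y, z, hy, hz, hβe⟩ := hβ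
  rcases spl W u a h with ⟨c, hc⟩ | hno
  · refine ⟨y, z, c, hy, hz, fun n => ?_⟩
    show (if (W : ℤ) ∣ ((u * n : ℕ) : ℤ) - a then β n else 0) = _
    rw [hβe]
    by_cases h1 : n % W = c
    · rw [if_pos ((hc n).2 h1)]
      by_cases h2 : y < n ∧ n ≤ z
      · rw [if_pos h2, if_pos ⟨h2, h1⟩]
      · rw [if_neg h2, if_neg (fun h3 => h2 h3.1)]
    · rw [if_neg (fun h2 => h1 ((hc n).1 h2)), if_neg (fun h3 => h1 h3.2)]
  · refine ⟨y, min z y, 0, hy, ?_, fun n => ?_⟩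
    · refine le_trans ?_ hz
      exact_mod_cast min_le_left z y
    · show (if (W : ℤ) ∣ ((u * n : ℕ) : ℤ) - a then β n else 0) = _
      rw [if_neg (hno n), if_neg]
      rintro ⟨⟨h1, h2⟩, _⟩
      have := h2.trans (min_le_right z y)
      omega

/-- the bilinear estimate for intervals, for the moduli `W q` -/
theorem bil_interval_dvW (W : ℕ) (hW : 1 ≤ W) (w' : ℝ) (hw' : w' ≤ 1 / 16) (p : Prm) (hp : p.OkS)
    (dv ν2 ν' κ' : ℝ) (hdv : p.δ ≤ dv)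
    (hδ1 : p.δ1 = p.δ) (hν' : ν' ≤ p.ν) (hκ' : p.κ ≤ κ')
    (hν2 : ν2 ≤ 1 / 2 - p.V0 - dv) (hp2 : (p.far dv ν2).OkS) (hB : (p.wide dv).Bas)
    (s : ℝ) (hs : 0 < s) (hs2 : 10 * s ≤ p.e) (c : ℕ) (K : ℕ → ℝ) (D : ℝ → Finset ℕ)
    (hD : ∀ x : ℝ, 2 ≤ x → ∀ q ∈ D x, 1 ≤ q ∧ Squarefree q ∧ (q : ℝ) ≤ x ^ (1 / 2 + 2 * p.w) ∧
      ((q : ℝ) ≤ x ^ (1 / 2 - s) ∨ FacC x ν' κ' p.δ dv p.e p.V0 q)) :
    BILc p.ν c (fun x N => ClInt x N ∩ ClSW c K x N) (mulD W w' D) := by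
  have he := hp.he
  have hb : 3 * p.e + dv < p.ν := by
    have h1 := hB.b1
    have h2 := hB.hν2
    have h3 := hp.hw
    dsimp only [Prm.wide] at h1 h2
    linarith
  obtain ⟨η, hη, hc⟩ := core_smooth_dvW W hW p hp dv ν2 hp2 s hs hs2
  have hsub : ∀ x N, ClAP W x N ⊆ ClOne x N := by
    rintro x N β ⟨y, z, c, hy, hz, hβ⟩
    constructor
    · intro n
      rw [hβ]
      split_ifs <;> simp
    · intro n hn
      rw [hβ] at hn
      have h1 : (y < n ∧ n ≤ z) ∧ n % W = c := by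
        by_contra h
        rw [if_neg h] at hn
        exact hn rfl
      refine ⟨lt_of_le_of_lt hy (by exact_mod_cast h1.1.1), le_trans ?_ hz⟩
      exact_mod_cast h1.1.2
  have h1 := e1_core (p.wide dv) hB s η hs hs2 hη (TriSQW p W dv ν2 s)
    (fun _ _ _ _ _ h => h.toTriSQ.toTriB) (ClAP W) hsub hc c
  exact asmW2 (p.wide dv) hB s hs (by dsimp only [Prm.wide]; linarith) c K (TriSQ p dv ν2 s)
    (TriSQW p W dv ν2 s) (fun _ _ _ _ _ h => h.toTriB) W hW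
    (fun x N r u v ht hco => { toTriSQ := ht, cop := hco })
    (fun x N => ClInt x N ∩ ClSW c K x N) (ClAP W) (fun _ _ => Set.inter_subset_right)
    (fun x N β hβ u a ha => spl_AP W x N β hβ.1 u a ha) h1 D
    (factCS_DT p hp dv ν2 ν' κ' hdv hδ1 hν' hκ' hν2 hb s hs hs2 D hD) w' hw'

theorem bilW_general (W : ℕ) (hW : 1 ≤ W) (c : ℕ) (K : ℕ → ℝ) :
    BILc (37645 / 100000) c (ClSW c K) (mulD W (1 / 100) DV43) :=
  bil_general_vW W hW (1 / 100) (by norm_num) Disp.Q0 (8 / 1000) (4746 / 10000) (311775 / 1000000) (241 / 1000) Q0_okB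
    Q0_okN (by norm_num [Disp.Q0]) (by norm_num [Disp.Q0]) (by norm_num [Disp.Q0]) (by norm_num [Disp.Q0])
    (by norm_num [Disp.Q0]) Q0_farB Q0_farF Q0_bas (1 / 10000000) (by norm_num)
    (by norm_num [Disp.Q0]) c K DV43 (fun x _ q hq => DV43_spec x q hq)

theorem bilW_interval (W : ℕ) (hW : 1 ≤ W) (c : ℕ) (K : ℕ → ℝ) :
    BILc (311775 / 1000000) c (fun x N => ClInt x N ∩ ClSW c K x N) (mulD W (1 / 100) DV43) :=
  bil_interval_dvW W hW (1 / 100) (by norm_num) Disp.Q1 Q1_ok (8 / 1000) (4746 / 10000) (311775 / 1000000) (241 / 1000)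
    (by norm_num [Disp.Q1]) (by norm_num [Disp.Q1]) (by norm_num [Disp.Q1])
    (by norm_num [Disp.Q1]) (by norm_num [Disp.Q1]) Q1_far Q1_bas (1 / 10000000) (by norm_num)
    (by norm_num [Disp.Q1]) c K DV43 (fun x _ q hq => DV43_spec x q hq)

/-- The primes are equidistributed for the moduli `W q`, `q ∈ DV43 x`. -/
theorem ehs43W (W : ℕ) (hW : 1 ≤ W) : EHs (mulD W (1 / 100) DV43) := by
  refine ehs_of_bilc (mulD W (1 / 100) DV43) (1 / 100) (37645 / 100000) (311775 / 1000000) (1 / 10) (14 / 100)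
    (by norm_num) (by norm_num) (by norm_num) (by norm_num) (by norm_num) (by norm_num)
    (by norm_num) (by norm_num) (by norm_num) (by norm_num) (by norm_num) (by norm_num)
    (by norm_num) (by norm_num) ?_
    (fun K => bilW_general W hW 3 K) (fun K => bilW_interval W hW 3 K)
  intro x _ r hr
  unfold mulD at hr
  obtain ⟨hr1, hr2⟩ := Finset.mem_filter.1 hr
  obtain ⟨q, hq, rfl⟩ := Finset.mem_image.1 hr1
  exact ⟨Nat.mul_pos hW (DV43_spec x q (Finset.mem_filter.1 hq).1).1, hr2⟩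

end Pool.Agent.S43
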