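import Pool.Agent.S43.Cert
import Pool.Agent.S43.Ehs
import Pool.Agent.GapD.K43.Final

/-! Two primes among 43 linear forms (helper35): the certificate of `GapD/K43` (helper37, helper90) and the
equidistribution for the moduli `W q`. -/

set_option autoImplicit false
set_option maxRecDepth 100000

namespace Pool.Agent.S43

open Finset Pool.Agent.GapD.K43

/-- **The certificate for `k = 43`.** -/
theorem dhl43S_of {ν κ : ℝ} (hν : 3 * (1 / 1000000 : ℝ) < ν) (hκ : κ + 1 / 10000000 + (17333 / 1000000 + 1 / 125) ≤ 1 / 2 + 29 / 10000)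
    (hEH : EHW (1 / 100) (BGG.D3 (397 / 50000) (1 / 10000000) ν κ (29 / 10000) (1 / 125) (1 / 1000000) (17333 / 1000000))) :
    DHLS 43 := by
  refine cert_two (w := 397 / 50000) (w' := 1 / 100) (s := 1 / 10000000) (ν := ν) (κ := κ) (δ := 29 / 10000) (δv := 1 / 125) (e := 1 / 1000000)
    (V0 := 17333 / 1000000) (κ' := 5 / 6) (by norm_num) (by norm_num) (by norm_num) (by norm_num) (by norm_num)
    (by norm_num) (by norm_num) (by norm_num) (by norm_num) (by norm_num) (by norm_num) hν hκ (by norm_num) hEH (K := 42) 254076 127038 65536 61502 65494 8 69024 40446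
    (by norm_num) (by norm_num) (by norm_num) (by norm_num) U rfl U_mono (by norm_num [U]) ?_ (by norm_num [U])
    (by norm_num) mm (by norm_num [mm]) mm_mono kap ?_ ?_ ?_ φ0 φ1 g0 g1 φ0_zero φ1_zero g0_gt g1_gt
    (range 12) nk nlo nhi nC np0 np1 nψ nC_nonneg 736 2032 2033 (by norm_num) (by norm_num) (by norm_num)
    covA covB nA nB cw cw_nonneg cw_ge num
  · have : U 8 = 3530 := rfl
    rw [this]
    norm_num
  · intro r hr
    have : U 8 = 3530 := rfl
    rw [this] at hr
    exact kap_core hr
  · intro j hj r h1 h2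
    rw [kap_in hj h1 h2]
    rfl
  · intro j hj r h1 h2
    rw [kap_out hj h1 h2]
    rfl

/-- **Two primes among 43 linear forms.** For nondegenerate admissible linear forms `s_i n + h_i`, `i < 43`, two of
them are prime for infinitely many `n`. -/
theorem dhl43S : DHLS 43 := by
  refine dhl43S_of (ν := 311775 / 1000000) (κ := 241 / 1000) (by norm_num) (by norm_num) ?_
  intro W hW
  have h := ehs43W W hW
  have e : Disp.DV43 = BGG.D3 (397 / 50000) (1 / 10000000) (311775 / 1000000) (241 / 1000)
      (29 / 10000) (1 / 125) (1 / 1000000) (17333 / 1000000) := by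
    unfold Disp.DV43
    norm_num
  rwa [e] at h

end Pool.Agent.S43
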