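import Pool.Agent.S43.Aff
import Pool.Agent.S43.Dhl43

/-! ITERATES (helper35): two primes among 43 iterates of an affine map. -/

set_option autoImplicit false

namespace Pool.Agent.S43

open Finset

/-- Let `I` be `k` indices which miss a class modulo every odd prime `p ≤ k` with `p ∣ d - 1`, `p ∤ a`.  Then some
difference `j - i > 0` of two elements of `I` has the property that the iterate of index `j - i` maps infinitely many
primes to primes. -/
theorem itK (k : ℕ) (hK : DHLS k) (a : ℤ) (ha : a ≠ 0) (d : ℕ) (hd : 0 < d)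
    (hgcd : Int.gcd a d = 1) (h2 : 2 ∣ a * d) (I : Finset ℕ) (hI : I.card = k)
    (hcl : ∀ p : ℕ, p.Prime → p ≠ 2 → p ≤ k → (p : ℤ) ∣ (d : ℤ) - 1 → ¬ (p : ℤ) ∣ a →
      ∃ e : ℤ, ∀ t ∈ I, ¬ (p : ℤ) ∣ (t : ℤ) - e) :
    ∃ i ∈ I, ∃ j ∈ I, i < j ∧ GdI a d (j - i) := by
  classical
  by_contra hcon
  push Not at hcon
  let τ : Fin k → ℕ := fun i => I.orderEmbOfFin hI i
  have hτI : ∀ i, τ i ∈ I := fun i => I.orderEmbOfFin_mem hI i
  have hinj : ∀ i j, i ≠ j → τ i ≠ τ j := fun i j hij h => hij ((I.orderEmbOfFin hI).injective h)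
  have hbad : ∀ i j, τ i < τ j → ¬ GdI a d (τ j - τ i) := fun i j hij => hcon _ (hτI i) _ (hτI j) hij
  -- the constants
  obtain ⟨N0, hN0⟩ : ∃ N0 : ℕ, ∀ i, 0 ≤ (d : ℤ) ^ τ i * N0 + (af a d)^[τ i] 0 := by
    refine ⟨∑ i, ((af a d)^[τ i] 0).natAbs, fun i => ?_⟩
    have h3 : ((af a d)^[τ i] 0).natAbs ≤ ∑ i, ((af a d)^[τ i] 0).natAbs :=
      Finset.single_le_sum (f := fun i => ((af a d)^[τ i] 0).natAbs) (fun _ _ => Nat.zero_le _)
        (Finset.mem_univ i)
    have h4 : (((af a d)^[τ i] 0).natAbs : ℤ) ≤ ((∑ i, ((af a d)^[τ i] 0).natAbs : ℕ) : ℤ) := by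
      exact_mod_cast h3
    have h5 : (1 : ℤ) ≤ (d : ℤ) ^ τ i := one_le_pow₀ (by exact_mod_cast hd)
    have h6 : -(((af a d)^[τ i] 0).natAbs : ℤ) ≤ (af a d)^[τ i] 0 := by omega
    have h7 : (0 : ℤ) ≤ ((∑ i, ((af a d)^[τ i] 0).natAbs : ℕ) : ℤ) := by positivity
    nlinarith
  let s : Fin k → ℕ := fun i => d ^ τ i
  let h : Fin k → ℕ := fun i => ((d : ℤ) ^ τ i * N0 + (af a d)^[τ i] 0).toNat
  have hh : ∀ i, (h i : ℤ) = (d : ℤ) ^ τ i * N0 + (af a d)^[τ i] 0 := fun i =>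
    Int.toNat_of_nonneg (hN0 i)
  have hval : ∀ i (n : ℕ), ((s i * n + h i : ℕ) : ℤ) = (af a d)^[τ i] ((n : ℤ) + N0) := by
    intro i n
    rw [af_iter a d (τ i) ((n : ℤ) + N0)]
    push_cast
    rw [hh i]
    simp only [s]
    push_cast
    ring
  -- the bounds
  have hB : ∀ m : ℕ, ∃ B : ℕ, ¬ GdI a d m → ∀ q : ℕ, q.Prime →
      (∃ p : ℕ, p.Prime ∧ (p : ℤ) = (af a d)^[m] q) → q < B := by
    intro m
    by_cases hm : GdI a d m
    · exact ⟨0, fun h => absurd hm h⟩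
    · have hfin : {q : ℕ | q.Prime ∧ ∃ p : ℕ, p.Prime ∧ (p : ℤ) = (af a d)^[m] q}.Finite :=
        Set.not_infinite.mp hm
      obtain ⟨B, hB⟩ := hfin.bddAbove
      exact ⟨B + 1, fun _ q hq hp => Nat.lt_succ_of_le (hB ⟨hq, hp⟩)⟩
  choose B hB using hB
  have hadm : SL.Adm s h := by
    intro p hp
    obtain ⟨z, hz⟩ := adm2 a d hgcd h2 p hp (Finset.univ.image τ) (by
      intro hp2 hpd hpa
      by_cases hpK : p ≤ k
      · obtain ⟨e, he⟩ := hcl p hp hp2 hpK hpd hpa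
        refine ⟨e, fun t ht => ?_⟩
        obtain ⟨i, _, rfl⟩ := Finset.mem_image.1 ht
        exact he _ (hτI i)
      · obtain ⟨n, hn⟩ := big (Finset.univ : Finset (Fin k)) p hp
          (by rw [Finset.card_univ, Fintype.card_fin]; omega)
          (fun _ => 1) (fun i => - (τ i : ℤ)) (fun _ _ h => hp.one_lt.ne' (Nat.dvd_one.mp h))
        refine ⟨n, fun t ht hdv => ?_⟩
        obtain ⟨i, _, rfl⟩ := Finset.mem_image.1 ht
        refine hn i (Finset.mem_univ i) ?_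
        have h6 : ((1 : ℕ) : ℤ) * n + -(τ i : ℤ) = -((τ i : ℤ) - n) := by push_cast; ring
        rw [h6, dvd_neg]
        exact hdv)
    obtain ⟨n, hn⟩ := int_to_nat p hp.pos z N0
    refine ⟨n, fun i hdv => hz (τ i) (Finset.mem_image_of_mem τ (Finset.mem_univ i)) ?_⟩
    have h3 : (p : ℤ) ∣ (af a d)^[τ i] ((n : ℤ) + N0) := by
      rw [← hval i n]
      exact_mod_cast hdv
    have h4 := af_cong a d (τ i) p _ _ hn
    have h5 := dvd_sub h3 h4
    rwa [sub_sub_cancel] at h5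
  have hnd : SL.Nondeg s h := by
    refine ⟨fun i => pow_pos hd _, fun i j hij heq => ?_⟩
    have h3 : ((s i * h j : ℕ) : ℤ) = ((s j * h i : ℕ) : ℤ) := by exact_mod_cast heq
    push_cast at h3
    rw [hh i, hh j] at h3
    simp only [s] at h3
    push_cast at h3
    have key : ∀ x y : ℕ, x < y →
        (d : ℤ) ^ x * ((d : ℤ) ^ y * N0 + (af a d)^[y] 0) ≠
          (d : ℤ) ^ y * ((d : ℤ) ^ x * N0 + (af a d)^[x] 0) := by
      intro x y hxy h4
      obtain ⟨m, rfl⟩ : ∃ m, y = m + x := ⟨y - x, by omega⟩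
      rw [Function.iterate_add_apply, af_iter a d m ((af a d)^[x] 0)] at h4
      have h5 : (d : ℤ) ^ x * (af a d)^[m] 0 = 0 := by
        rw [pow_add] at h4
        linear_combination h4
      rcases mul_eq_zero.1 h5 with h6 | h6
      · have : (d : ℤ) ≠ 0 := by exact_mod_cast hd.ne'
        exact pow_ne_zero x this h6
      · exact af_zero_ne a ha d m (by omega) h6
    rcases lt_or_gt_of_ne (hinj i j hij) with h4 | h4
    · exact key _ _ h4 h3
    · exact key _ _ h4 h3.symm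
  obtain ⟨n, hn, i, j, hij, hpi, hpj⟩ := hK s h hnd hadm (∑ m ∈ range (∑ i, τ i + 1), B m)
  -- the contradiction
  have main : ∀ i j, τ i < τ j → (s i * n + h i).Prime → (s j * n + h j).Prime → False := by
    intro i j h3 hpi hpj
    have h4 := hbad i j h3
    have h5 := hB (τ j - τ i) h4 (s i * n + h i) hpi ⟨s j * n + h j, hpj, by
      rw [hval j n, hval i n, ← Function.iterate_add_apply, Nat.sub_add_cancel h3.le]⟩
    have h6 : B (τ j - τ i) ≤ ∑ m ∈ range (∑ i, τ i + 1), B m := by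
      refine Finset.single_le_sum (f := B) (fun _ _ => Nat.zero_le _) ?_
      rw [Finset.mem_range]
      have h7 : τ j ≤ ∑ i, τ i := Finset.single_le_sum (f := τ) (fun _ _ => Nat.zero_le _) (Finset.mem_univ j)
      omega
    have h7 : n ≤ s i * n + h i := by
      have h8 : 1 ≤ s i := pow_pos hd _
      nlinarith
    omega
  rcases lt_or_gt_of_ne (hinj i j hij) with h3 | h3
  · exact main i j h3 hpi hpj
  · exact main j i h3 hpj hpi

/-- the indices `h / 2`, `h` in the narrowest admissible 43-tuple -/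
def idx43 : List ℕ := [0, 1, 6, 7, 9, 12, 16, 19, 21, 22, 24, 27, 30, 31, 34, 36, 40, 42, 45, 49,
  51, 52, 55, 57, 61, 64, 66, 69, 72, 75, 76, 79, 82, 84, 85, 87, 90, 91, 94,
  96, 97, 99, 100]

def idxTest : Bool :=
  (List.range 44).all fun p => p < 3 || p % 2 == 0 ||
    (List.range p).any fun b => idx43.all fun x => (x + b) % p != 0

theorem idx_class (p : ℕ) (hp : p.Prime) (hp2 : p ≠ 2) (hpK : p ≤ 43) :
    ∃ e : ℤ, ∀ t ∈ idx43.toFinset, ¬ (p : ℤ) ∣ (t : ℤ) - e := by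
  have hl : idxTest = true := by decide +kernel
  unfold idxTest at hl
  rw [List.all_eq_true] at hl
  have h1 := hl p (List.mem_range.2 (by omega))
  rw [Bool.or_eq_true, Bool.or_eq_true] at h1
  have h3 := hp.two_le
  rcases h1 with (h1 | h1) | h1
  · have := of_decide_eq_true h1
    omega
  · exfalso
    have h4 : p % 2 = 0 := by simpa using h1
    rcases hp.eq_one_or_self_of_dvd 2 (Nat.dvd_of_mod_eq_zero h4) with h5 | h5
    · omega
    · omega
  · rw [List.any_eq_true] at h1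
    obtain ⟨b, -, hb⟩ := h1
    rw [List.all_eq_true] at hb
    refine ⟨-(b : ℤ), fun t ht hd => ?_⟩
    have h2 := hb t (List.mem_toFinset.1 ht)
    simp only [bne_iff_ne, ne_eq] at h2
    apply h2
    have h4 : (p : ℤ) ∣ ((t + b : ℕ) : ℤ) := by
      have h5 : (t : ℤ) - -(b : ℤ) = ((t + b : ℕ) : ℤ) := by push_cast; ring
      rwa [h5] at hd
    exact Nat.mod_eq_zero_of_dvd (by exact_mod_cast h4)

/-- every iteration family has a good index at most 100 -/
theorem hundred (a : ℤ) (ha : a ≠ 0) (d : ℕ) (hd : 0 < d) (hgcd : Int.gcd a d = 1) (h2 : 2 ∣ a * d) :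
    ∃ m, 1 ≤ m ∧ m ≤ 100 ∧ GdI a d m := by
  obtain ⟨i, hi, j, hj, hij, hg⟩ := itK 43 dhl43S a ha d hd hgcd h2 idx43.toFinset (by decide +kernel)
    (fun p hp hp2 hpK _ _ => idx_class p hp hp2 hpK)
  refine ⟨j - i, by omega, ?_, hg⟩
  have h3 : ∀ t ∈ idx43.toFinset, t ≤ 100 := by decide +kernel
  have := h3 j hj
  omega

/-- if no odd prime `p ≤ 43` divides `d - 1` but not `a`, there is a good index at most 42 -/
theorem fortytwo (a : ℤ) (ha : a ≠ 0) (d : ℕ) (hd : 0 < d) (hgcd : Int.gcd a d = 1) (h2 : 2 ∣ a * d)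
    (h : ∀ p : ℕ, p.Prime → p ≠ 2 → p ≤ 43 → (p : ℤ) ∣ (d : ℤ) - 1 → (p : ℤ) ∣ a) :
    ∃ m, 1 ≤ m ∧ m ≤ 42 ∧ GdI a d m := by
  obtain ⟨i, hi, j, hj, hij, hg⟩ := itK 43 dhl43S a ha d hd hgcd h2 (range 43) (Finset.card_range _)
    (fun p hp hp2 hpK h3 h4 => absurd (h p hp hp2 hpK h3) h4)
  refine ⟨j - i, by omega, ?_, hg⟩
  have := Finset.mem_range.1 hj
  omega

end Pool.Agent.S43
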