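import Pool.Agent.S43.As3
import Pool.Agent.SL.PosW

/-! FINAL DISCRETE THEOREM for linear forms `s_i n + h_i` (helper35, after helper83's `MT/Shell`): shells with vectors
(helper89's two-sided trick). -/

set_option autoImplicit false

namespace Pool.Agent.S43

open Finset Filter Topology Pool.Agent.MT Pool.Agent.SL

variable {k : ℕ}

theorem LamS_sum {S : Type} [Fintype S] (sl h : Fin k → ℕ) (D N M : ℕ) (Y : S → (Fin k → ℕ) → ℝ) (n : ℕ) :
    LamS sl h D N M (fun v => ∑ i, Y i v) n = ∑ i, LamS sl h D N M (Y i) n := by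
  unfold LamS LamW
  rw [Finset.sum_comm]
  refine Finset.sum_congr rfl fun a _ => ?_
  rw [lamY_sum, Finset.sum_mul]

theorem log_fin2 (c : ℝ) (η : ℝ) (hη : 0 < η) : ∀ᶠ N : ℕ in atTop, Real.log (c * N + N) ≤ (1 + η) * Real.log N := by
  have h1 : Tendsto (fun N : ℕ => Real.log N) atTop atTop :=
    Real.tendsto_log_atTop.comp tendsto_natCast_atTop_atTop
  filter_upwards [h1.eventually_ge_atTop (Real.log (|c| + 1) / η), eventually_ge_atTop 2] with N hN hN2
  have hN0 : (0 : ℝ) < N := by exact_mod_cast (by omega : 0 < N)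
  have hlog : 0 ≤ Real.log N := Real.log_natCast_nonneg N
  rw [div_le_iff₀ hη] at hN
  rcases le_or_gt (c * N + N) 0 with h0 | h0
  · have h2 : |c * N + N| ≤ (|c| + 1) * N := by
      calc |c * N + N| ≤ |c * N| + |(N : ℝ)| := abs_add_le _ _
        _ = (|c| + 1) * N := by rw [abs_mul, abs_of_pos hN0]; ring
    rcases eq_or_ne (c * N + N) 0 with h3 | h3
    · rw [h3, Real.log_zero]
      positivity
    · rw [← Real.log_abs]
      calc Real.log |c * N + N| ≤ Real.log ((|c| + 1) * N) := Real.log_le_log (abs_pos.2 h3) h2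
        _ = Real.log (|c| + 1) + Real.log N := Real.log_mul (by positivity) hN0.ne'
        _ ≤ _ := by linarith
  · have h2 : c * N + N ≤ (|c| + 1) * N := by
      have := le_abs_self c
      nlinarith
    calc Real.log (c * N + N) ≤ Real.log ((|c| + 1) * N) := Real.log_le_log h0 h2
      _ = Real.log (|c| + 1) + Real.log N := Real.log_mul (by positivity) hN0.ne'
      _ ≤ _ := by linarith

theorem S1_fin (sl h : Fin k → ℕ) (M : ℕ) (hM : 1 ≤ M) (s θ : ℝ)
    (Y : (Fin k → ℕ) → ℝ) (hY : Grid M s Y) (hθ : ∀ v, Y v ≠ 0 → ∑ i, ((v i : ℝ) + 1) / M ≤ θ) (hθ2 : θ < 1 / 2)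
    (η : ℝ) (hη : 0 < η) :
    ∀ᶠ D : ℕ in atTop, SL.Large sl h D → ∀ b, ∀ᶠ N : ℕ in atTop,
      SL.S1 sl h b (lamY D N M Y) ≤ BN k D N * (T1 M (fun _ => 1 / (M : ℝ)) Y + η) := by
  obtain ⟨C, hC0, hC⟩ := PP_le
  have h1 := (exp_small1 (s ^ 2 * C ^ k) (2 * (k : ℝ) ^ 2)).eventually_lt_const (show (0 : ℝ) < η / 2 by linarith)
  filter_upwards [h1, eventually_ge_atTop 2] with D hD1 hD2 hL b
  filter_upwards [SL.S1_asym sl h D M b hD2 hM hL s θ C Y hY hθ hθ2 hC0 (fun N hN => hC D N hD2 hN) (η / 2) (by linarith),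
    eventually_ge_atTop 2] with N hN hN2
  refine hN.trans ?_
  refine mul_le_mul_of_nonneg_left ?_ (BN_pos (k := k) D N hN2).le
  rw [mul_assoc] at hD1
  linarith

theorem S2_fin (sl h : Fin k → ℕ) (M : ℕ) (hM : 1 ≤ M) (m : Fin k) (s : ℝ)
    (Y Y' : (Fin k → ℕ) → ℝ) (hY : Grid M s Y) (hY' : Grid M s Y') (η : ℝ) (hη : 0 < η) :
    ∀ᶠ D : ℕ in atTop, SL.Large sl h D → ∀ b, (∀ v, Y v ≠ 0 → ∀ v', Y' v' ≠ 0 →
      SL.EH sl h (primorial D) b m (fun i => ((v i : ℝ) + 1) / M) (fun i => ((v' i : ℝ) + 1) / M)) → ∀ᶠ N : ℕ in atTop,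
      |SL.S2 sl h b m (lamY D N M Y) (lamY D N M Y') - BN k D N * Real.log N * T2 M (fun _ => 1 / (M : ℝ)) m Y Y'| ≤
        BN k D N * Real.log N * η := by
  obtain ⟨C, hC0, hC⟩ := PP_le
  have h1 := (exp_small2 (s * s * C ^ (k + 1)) (6 * (k : ℝ) ^ 2) (2 ^ (k + 2))).eventually_lt_const
    (show (0 : ℝ) < η / 2 by linarith)
  filter_upwards [h1, eventually_ge_atTop 2] with D hD1 hD2 hL b hEH
  filter_upwards [S2_asym2 sl h D M b hD2 hM hL m s s C Y Y' hY hY' hC0 (fun N hN => hC D N hD2 hN) hEH (η / 2)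
    (by linarith), eventually_ge_atTop 2] with N hN hN2
  refine hN.trans ?_
  have hlog : 0 < Real.log N := Real.log_pos (by exact_mod_cast hN2)
  refine mul_le_mul_of_nonneg_left ?_ (mul_pos (BN_pos (k := k) D N hN2) hlog).le
  rw [mul_assoc] at hD1
  linarith

theorem S3_fin {S : Type} [Fintype S] [DecidableEq S] (sl h : Fin k → ℕ) (M : ℕ) (hM : 1 ≤ M)
    (m : Fin k) (s θ : ℝ) (Y : S → (Fin k → ℕ) → ℝ) (hY : ∀ i, Grid M s (Y i)) (w : S → ℝ)
    (L : S → ℕ) (hL1 : ∀ i, 1 ≤ L i) (hL2 : ∀ i, L i ≤ M)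
    (hθ : ∀ i v, Y i v ≠ 0 → ∑ j, (if j = m then (L i : ℝ) / M else ((v j : ℝ) + 1) / M) ≤ θ) (hθ2 : θ < 1 / 2)
    (horth : ∀ i j, i ≠ j → ∀ V : ℕ → ℝ, T2 M V m (Y i) (Y j) = 0) (η : ℝ) (hη : 0 < η) :
    ∀ᶠ D : ℕ in atTop, SL.Large sl h D → ∀ b, ∀ᶠ N : ℕ in atTop, S3 sl h D M b N m Y w L ≤ BN k D N *
      (∑ i, w i ^ 2 * ((M : ℝ) / L i) * T2 M (fun _ => 1 / (M : ℝ)) m (Y i) (Y i) + η) := by
  obtain ⟨C, hC0, hC⟩ := PP_le
  have h1 := (exp_small2 ((∑ i, |w i|) ^ 2 * ((2 * M) ^ 2 * (s ^ 2 * C ^ (k + 2)))) (16 * ((k : ℝ) + 1) ^ 2)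
    (2 ^ (k + 2))).eventually_lt_const (show (0 : ℝ) < η / 2 by linarith)
  filter_upwards [h1, eventually_ge_atTop 2] with D hD1 hD2 hL b
  filter_upwards [S3_asym sl h D M b hD2 hM hL m s θ C Y hY w L hL1 hL2 hθ hθ2 horth hC0 (fun N hN => hC D N hD2 hN)
    (η / 2) (by linarith), eventually_ge_atTop 2] with N hN hN2
  refine hN.trans ?_
  refine mul_le_mul_of_nonneg_left ?_ (BN_pos (k := k) D N hN2).le
  simp only [mul_assoc] at hD1 ⊢
  linarith

/-- the majorant inequality, summed -/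
theorem S3_major {S : Type} [Fintype S] (sl h : Fin k → ℕ) (D M b N : ℕ) (hD : 2 ≤ D) (hN : 1 ≤ N) (m : Fin k) (hsm : 0 < sl m)
    (Y : S → (Fin k → ℕ) → ℝ) (w : S → ℝ) (L : S → ℕ) (hL1 : ∀ i, 1 ≤ L i) (x : ℝ)
    (hx : sl m * (2 * (N : ℝ)) + h m ≤ x) :
    ∑ n ∈ rng (primorial D) b N, th (sl m * n + h m) * (∑ i, w i * LamS sl h D N M (Y i) n) ^ 2 ≤
      Real.log x * S3 sl h D M b N m Y w L := by
  unfold S3
  rw [Finset.mul_sum]
  have hN1 : (1 : ℝ) ≤ N := by exact_mod_cast hN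
  have hx1 : 1 ≤ x := by
    have : (0 : ℝ) ≤ h m := Nat.cast_nonneg _
    have h2 : (1 : ℝ) ≤ sl m := by exact_mod_cast hsm
    nlinarith
  refine Finset.sum_le_sum fun n hn => ?_
  have hn1 := Finset.mem_Ico.1 (Finset.mem_filter.1 hn).1
  by_cases hp : (sl m * n + h m).Prime
  · have h1 : ∑ i, w i * LamS sl h D N M (Y i) n =
        ∑ i, w i / Z0 (qq D N) (cell M) (L i) * Lam3 sl h D N M m (Y i) (L i) n := by
      refine Finset.sum_congr rfl fun i _ => ?_
      rw [Lam3_prime sl h D N M m hsm (Y i) (L i) n hn1.1 hp]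
      have := (Z0_pos D N M (L i) hD (hL1 i)).ne'
      field_simp
    rw [h1]
    refine mul_le_mul_of_nonneg_right (th_le _ x hx1 ?_) (sq_nonneg _)
    push_cast
    have h2 : (n : ℝ) < 2 * N := by exact_mod_cast hn1.2
    have h3 : (sl m : ℝ) * n ≤ sl m * (2 * N) := mul_le_mul_of_nonneg_left h2.le (Nat.cast_nonneg _)
    linarith
  · unfold th
    rw [if_neg hp, zero_mul]
    exact mul_nonneg (Real.log_nonneg hx1) (sq_nonneg _)

theorem discrete2 (sl h : Fin k → ℕ) (hnd : Nondeg sl h) (hadm : Adm sl h) (M : ℕ) (hM : 1 ≤ M) (s θ : ℝ)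
    (Y : (Fin k → ℕ) → ℝ) (hY : Grid M s Y) (hθ : ∀ v, Y v ≠ 0 → ∑ i, ((v i : ℝ) + 1) / M ≤ θ) (hθ2 : θ < 1 / 2)
    {S : Type} [Fintype S] [DecidableEq S] (σ : Fin k → (Fin k → ℕ) → S)
    (hσ : ∀ m v x, σ m (Function.update v m x) = σ m v)
    (d : ℕ) (K : S → S → ℝ) (vv ww : S → Fin d → ℝ)
    (hK : ∀ i j, K i j = 1 - ∑ l, vv i l * vv j l + ∑ l, ww i l * ww j l)
    (L : S → ℕ) (hL1 : ∀ i, ww i ≠ 0 → 1 ≤ L i) (hL2 : ∀ i, ww i ≠ 0 → L i ≤ M)
    (hlev : ∀ m v, Y v ≠ 0 → ww (σ m v) ≠ 0 →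
      ∑ j, (if j = m then (L (σ m v) : ℝ) / M else ((v j : ℝ) + 1) / M) ≤ θ)
    (hIJ : T1 M (fun _ => 1 / (M : ℝ)) Y < ∑ m, ∑ i, (K i i - (∑ l, ww i l ^ 2) * ((M : ℝ) / L i)) *
      T2 M (fun _ => 1 / (M : ℝ)) m (low {v | σ m v = i} Y) Y)
    (hEH : ∀ D b, SL.Large sl h D → SL.Good sl h D b → ∀ m v v', Y v ≠ 0 → Y v' ≠ 0 → K (σ m v) (σ m v') ≠ 0 →
      SL.EH sl h (primorial D) b m (fun i => ((v i : ℝ) + 1) / M) (fun i => ((v' i : ℝ) + 1) / M)) :
    ∀ x : ℕ, ∃ n ≥ x, ∃ i j, i ≠ j ∧ (sl i * n + h i).Prime ∧ (sl j * n + h j).Prime := by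
  classical
  -- shells
  set Ys : Fin k → S → (Fin k → ℕ) → ℝ := fun m i => low {v | σ m v = i} Y with hYs
  have hYsg : ∀ m i, Grid M s (Ys m i) := fun m i => low_grid hY _
  have hsum : ∀ m, (fun v => ∑ i, Ys m i v) = Y := by
    intro m
    funext v
    simp only [hYs, low]
    rw [Finset.sum_eq_single (σ m v)]
    · exact if_pos rfl
    · intro i _ hi
      exact if_neg fun h0 => hi (show i = σ m v from Eq.symm h0)
    · intro h0; exact absurd (Finset.mem_univ _) h0
  have hT2 : ∀ (V : ℕ → ℝ) m i, T2 M V m (Ys m i) (Ys m i) = T2 M V m (Ys m i) Y := by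
    intro V m i
    unfold T2
    refine Finset.sum_congr rfl fun v _ => Finset.sum_congr rfl fun x _ => ?_
    by_cases hv : σ m v = i
    · have : Ys m i (Function.update v m x) = Y (Function.update v m x) := by
        simp only [hYs, low, Set.mem_ofPred_eq, hσ]
        rw [if_pos hv]
      rw [this]
    · have : Ys m i v = 0 := by
        simp only [hYs, low, Set.mem_ofPred_eq]
        rw [if_neg hv]
      rw [this]
      ring
  have hT20 : ∀ (V : ℕ → ℝ) m i j, i ≠ j → T2 M V m (Ys m i) (Ys m j) = 0 := by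
    intro V m i j hij
    unfold T2
    refine Finset.sum_eq_zero fun v _ => Finset.sum_eq_zero fun x _ => ?_
    by_cases hv : σ m v = i
    · have : Ys m j (Function.update v m x) = 0 := by
        simp only [hYs, low, Set.mem_ofPred_eq, hσ]
        rw [if_neg (by rw [hv]; exact hij)]
      rw [this]
      ring
    · have : Ys m i v = 0 := by
        simp only [hYs, low, Set.mem_ofPred_eq]
        rw [if_neg hv]
      rw [this]
      ring
  -- modified shells for the majorants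
  set Yw : Fin k → S → (Fin k → ℕ) → ℝ := fun m i => if ww i = 0 then fun _ => 0 else Ys m i with hYw
  set Lw : S → ℕ := fun i => if ww i = 0 then 1 else L i with hLw
  have hYwg : ∀ m i, Grid M s (Yw m i) := by
    intro m i
    simp only [hYw]
    split_ifs
    · exact ⟨fun v hv => absurd rfl hv, fun v => by rw [abs_zero]; exact hY.s_nonneg⟩
    · exact hYsg m i
  have hLw1 : ∀ i, 1 ≤ Lw i := by
    intro i
    simp only [hLw]
    split_ifs with h0
    · exact le_rfl
    · exact hL1 i h0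
  have hLw2 : ∀ i, Lw i ≤ M := by
    intro i
    simp only [hLw]
    split_ifs with h0
    · exact hM
    · exact hL2 i h0
  have hlevw : ∀ m i v, Yw m i v ≠ 0 → ∑ j, (if j = m then (Lw i : ℝ) / M else ((v j : ℝ) + 1) / M) ≤ θ := by
    intro m i v hv
    simp only [hYw] at hv
    split_ifs at hv with h0
    · exact absurd rfl hv
    · obtain ⟨h1, h2⟩ := low_ne hv
      have h1' : σ m v = i := h1
      have := hlev m v h2 (by rw [h1']; exact h0)
      simp only [hLw, if_neg h0]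
      rw [h1'] at this
      exact this
  have horthw : ∀ m i j, i ≠ j → ∀ V : ℕ → ℝ, T2 M V m (Yw m i) (Yw m j) = 0 := by
    intro m i j hij V
    simp only [hYw]
    split_ifs
    · simp [T2]
    · simp [T2]
    · simp [T2]
    · exact hT20 V m i j hij
  -- abbreviations for the limits
  set T : Fin k → S → ℝ := fun m i => T2 M (fun _ => 1 / (M : ℝ)) m (Ys m i) Y with hT
  set I0 : ℝ := T1 M (fun _ => 1 / (M : ℝ)) Y with hI0
  set c : Fin k → Fin d → ℝ := fun m l => ∑ i, ww i l ^ 2 * ((M : ℝ) / L i) * T m i with hc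
  have hcw : ∀ m l, ∑ i, ww i l ^ 2 * ((M : ℝ) / Lw i) * T2 M (fun _ => 1 / (M : ℝ)) m (Yw m i) (Yw m i) = c m l := by
    intro m l
    simp only [hc]
    refine Finset.sum_congr rfl fun i _ => ?_
    simp only [hYw, hLw]
    split_ifs with h0
    · rw [h0]; simp
    · rw [hT2]
  -- choice of η
  set F : ℝ → ℝ := fun η => (∑ m, ∑ i, K i i * T m i) - (∑ _m : Fin k, ∑ i, ∑ j, |K i j| * η) -
    (1 + η) * ((∑ m, ∑ l, (c m l + η)) + (I0 + η)) with hF
  have hF0 : 0 < F 0 := by
    simp only [hF, mul_zero, Finset.sum_const_zero, sub_zero, add_zero, one_mul]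
    have h1 : ∑ m, ∑ i, (K i i - (∑ l, ww i l ^ 2) * ((M : ℝ) / L i)) * T m i =
        (∑ m, ∑ i, K i i * T m i) - ∑ m, ∑ l, c m l := by
      rw [← Finset.sum_sub_distrib]
      refine Finset.sum_congr rfl fun m _ => ?_
      simp only [hc]
      rw [Finset.sum_comm, ← Finset.sum_sub_distrib]
      refine Finset.sum_congr rfl fun i _ => ?_
      rw [sub_mul, Finset.sum_mul, Finset.sum_mul]
    have h2 := hIJ
    change I0 < ∑ m, ∑ i, (K i i - (∑ l, ww i l ^ 2) * ((M : ℝ) / L i)) * T m i at h2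
    rw [h1] at h2
    linarith
  have hFc : Continuous F := by
    simp only [hF]
    fun_prop
  obtain ⟨η, hη, hFη⟩ : ∃ η, 0 < η ∧ 0 < F η := by
    have h1 := (hFc.tendsto 0).eventually (lt_mem_nhds hF0)
    have h2 : ∀ᶠ η in 𝓝[>] (0 : ℝ), 0 < F η := h1.filter_mono nhdsWithin_le_nhds
    obtain ⟨η, h3, h4⟩ := (h2.and self_mem_nhdsWithin).exists
    exact ⟨η, h4, h3⟩
  -- choice of D
  obtain ⟨D0, hD0⟩ := SL.large_exists sl h hnd
  have e1 := S1_fin sl h M hM s θ Y hY hθ hθ2 η hη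
  have e2 : ∀ᶠ D : ℕ in atTop, ∀ m i j, SL.Large sl h D → ∀ b, (∀ v, Ys m i v ≠ 0 → ∀ v', Ys m j v' ≠ 0 →
      SL.EH sl h (primorial D) b m (fun i => ((v i : ℝ) + 1) / M) (fun i => ((v' i : ℝ) + 1) / M)) → ∀ᶠ N : ℕ in atTop,
      |SL.S2 sl h b m (lamY D N M (Ys m i)) (lamY D N M (Ys m j)) - BN k D N * Real.log N * T2 M (fun _ => 1 / (M : ℝ)) m (Ys m i) (Ys m j)| ≤
        BN k D N * Real.log N * η := by
    rw [Filter.eventually_all]; intro m
    rw [Filter.eventually_all]; intro i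
    rw [Filter.eventually_all]; intro j
    exact S2_fin sl h M hM m s _ _ (hYsg m i) (hYsg m j) η hη
  have e3 : ∀ᶠ D : ℕ in atTop, ∀ m l, SL.Large sl h D → ∀ b, ∀ᶠ N : ℕ in atTop,
      S3 sl h D M b N m (Yw m) (fun i => ww i l) Lw ≤ BN k D N * (c m l + η) := by
    rw [Filter.eventually_all]; intro m
    rw [Filter.eventually_all]; intro l
    have := S3_fin sl h M hM m s θ (Yw m) (hYwg m) (fun i => ww i l) Lw hLw1 hLw2 (hlevw m) hθ2 (horthw m) η hη
    simpa only [hcw] using this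
  obtain ⟨D, ⟨⟨⟨h1, h2⟩, h3⟩, hDD⟩, hD2⟩ := ((((e1.and e2).and e3).and (eventually_ge_atTop D0)).and
    (eventually_ge_atTop 2)).exists
  have hL := hD0 D hDD
  obtain ⟨b, hb⟩ := SL.good_exists sl h hadm D
  -- N
  set hmax : ℕ := ∑ i, h i with hhmax
  set smax : ℕ := ∑ i, sl i with hsmax
  have hsle : ∀ i, sl i ≤ smax := fun i => Finset.single_le_sum (fun j _ => Nat.zero_le _) (Finset.mem_univ i)
  have hle : ∀ i, h i ≤ hmax := fun i => Finset.single_le_sum (fun j _ => Nat.zero_le _) (Finset.mem_univ i)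
  have f2 : ∀ᶠ N : ℕ in atTop, ∀ m i j, K i j ≠ 0 →
      |SL.S2 sl h b m (lamY D N M (Ys m i)) (lamY D N M (Ys m j)) - BN k D N * Real.log N * T2 M (fun _ => 1 / (M : ℝ)) m (Ys m i) (Ys m j)| ≤
        BN k D N * Real.log N * η := by
    rw [Filter.eventually_all]; intro m
    rw [Filter.eventually_all]; intro i
    rw [Filter.eventually_all]; intro j
    by_cases hKij : K i j = 0
    · exact Eventually.of_forall fun N hne => absurd hKij hne
    · refine (h2 m i j hL b ?_).mono fun N hN _ => hN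
      intro v hv v' hv'
      obtain ⟨g1, g2⟩ := low_ne hv
      obtain ⟨g3, g4⟩ := low_ne hv'
      have g1' : σ m v = i := g1
      have g3' : σ m v' = j := g3
      exact hEH D b hL hb m v v' g2 g4 (by rw [g1', g3']; exact hKij)
  have f3 : ∀ᶠ N : ℕ in atTop, ∀ m l, S3 sl h D M b N m (Yw m) (fun i => ww i l) Lw ≤ BN k D N * (c m l + η) := by
    rw [Filter.eventually_all]; intro m
    rw [Filter.eventually_all]; intro l
    exact h3 m l hL b
  intro x
  obtain ⟨N, ⟨⟨⟨⟨g1, g2⟩, g3⟩, g4⟩, g5⟩, g6⟩ := (((((h1 hL b).and f2).and f3).and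
    (log_fin2 (2 * smax + hmax : ℝ) η hη)).and (eventually_ge_atTop 2)).and (eventually_ge_atTop x) |>.exists
  by_contra hcon
  push Not at hcon
  -- contradiction: at most one prime for every n
  have hlogN : 0 < Real.log N := Real.log_pos (by exact_mod_cast g5)
  have hBN : 0 < BN k D N := BN_pos D N g5
  have hN1 : (1 : ℝ) ≤ N := by exact_mod_cast (by omega : 1 ≤ N)
  set X : ℝ := (2 * smax + hmax) * N + N with hX
  have hX0 : (0 : ℝ) ≤ (2 * smax + hmax) * N := by positivity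
  have hX1 : 1 ≤ X := by
    rw [hX]; linarith
  have hXs : ∀ i, (sl i : ℝ) * (2 * N) + h i ≤ X := by
    intro i
    have a1 : (sl i : ℝ) ≤ smax := by exact_mod_cast hsle i
    have a2 : (h i : ℝ) ≤ hmax := by exact_mod_cast hle i
    have a3 : (sl i : ℝ) * (2 * N) ≤ smax * (2 * N) := mul_le_mul_of_nonneg_right a1 (by positivity)
    have a4 : (h i : ℝ) ≤ hmax * N := by
      have : (0 : ℝ) ≤ hmax := Nat.cast_nonneg _
      nlinarith
    rw [hX]
    nlinarith
  have hlogX : 0 ≤ Real.log X := Real.log_nonneg hX1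
  have hone : ∀ n ∈ rng (primorial D) b N, ∑ m, th (sl m * n + h m) ≤ Real.log X := by
    intro n hn
    have hn1 := Finset.mem_Ico.1 (Finset.mem_filter.1 hn).1
    by_cases hex : ∃ i, (sl i * n + h i).Prime
    · obtain ⟨i, hi⟩ := hex
      have : ∑ m, th (sl m * n + h m) = th (sl i * n + h i) := by
        refine Finset.sum_eq_single i (fun j _ hj => ?_) (fun h0 => absurd (Finset.mem_univ i) h0)
        unfold th
        rw [if_neg]
        intro hpj
        exact hcon n (by omega) i j (Ne.symm hj) hi hpj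
      rw [this]
      refine th_le _ X hX1 ?_
      have a1 : (n : ℝ) < 2 * N := by exact_mod_cast hn1.2
      have a2 : (sl i : ℝ) * n ≤ sl i * (2 * N) := mul_le_mul_of_nonneg_left a1.le (Nat.cast_nonneg _)
      have a3 := hXs i
      push_cast
      linarith
    · push Not at hex
      have : ∑ m, th (sl m * n + h m) = 0 := by
        refine Finset.sum_eq_zero fun m _ => ?_
        unfold th
        rw [if_neg (hex m)]
      rw [this]
      exact hlogX
  have hup : ∑ m, SL.S2 sl h b m (lamY D N M Y) (lamY D N M Y) ≤ Real.log X * SL.S1 sl h b (lamY D N M Y) := by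
    unfold SL.S2 SL.S1
    rw [Finset.sum_comm, Finset.mul_sum]
    refine Finset.sum_le_sum fun n hn => ?_
    rw [← Finset.sum_mul, sq]
    exact mul_le_mul_of_nonneg_right (hone n hn) (mul_self_nonneg _)
  have hlow : ∀ m, ∑ i, ∑ j, K i j * SL.S2 sl h b m (lamY D N M (Ys m i)) (lamY D N M (Ys m j)) -
      Real.log X * ∑ l, S3 sl h D M b N m (Yw m) (fun i => ww i l) Lw ≤ SL.S2 sl h b m (lamY D N M Y) (lamY D N M Y) := by
    intro m
    have a1 : ∀ n, LamS sl h D N M Y n = ∑ i, LamS sl h D N M (Ys m i) n := by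
      intro n
      rw [← LamS_sum, hsum m]
    have a2 : ∀ n ∈ rng (primorial D) b N, th (sl m * n + h m) * (∑ i, ∑ j, K i j *
        (LamS sl h D N M (Ys m i) n * LamS sl h D N M (Ys m j) n)) -
        th (sl m * n + h m) * (∑ l, (∑ i, ww i l * LamS sl h D N M (Ys m i) n) ^ 2) ≤
        th (sl m * n + h m) * (LamS sl h D N M Y n * LamS sl h D N M Y n) := by
      intro n _
      rw [← mul_sub, a1 n, ← sq]
      exact mul_le_mul_of_nonneg_left (quad_split K vv ww hK _) (th_nonneg _)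
    have a3 := Finset.sum_le_sum a2
    rw [Finset.sum_sub_distrib] at a3
    have a4 : ∑ n ∈ rng (primorial D) b N, th (sl m * n + h m) * (∑ i, ∑ j, K i j *
        (LamS sl h D N M (Ys m i) n * LamS sl h D N M (Ys m j) n)) =
        ∑ i, ∑ j, K i j * SL.S2 sl h b m (lamY D N M (Ys m i)) (lamY D N M (Ys m j)) := by
      unfold SL.S2 LamS
      simp only [Finset.mul_sum]
      rw [Finset.sum_comm]
      refine Finset.sum_congr rfl fun i _ => ?_
      rw [Finset.sum_comm]
      refine Finset.sum_congr rfl fun j _ => Finset.sum_congr rfl fun n _ => ?_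
      ring
    have a5 : ∑ n ∈ rng (primorial D) b N, th (sl m * n + h m) * (∑ l, (∑ i, ww i l * LamS sl h D N M (Ys m i) n) ^ 2) ≤
        Real.log X * ∑ l, S3 sl h D M b N m (Yw m) (fun i => ww i l) Lw := by
      have b1 : ∀ n l, ∑ i, ww i l * LamS sl h D N M (Ys m i) n = ∑ i, ww i l * LamS sl h D N M (Yw m i) n := by
        intro n l
        refine Finset.sum_congr rfl fun i _ => ?_
        simp only [hYw]
        split_ifs with h0
        · rw [h0]; simp
        · rfl
      simp only [Finset.mul_sum, b1]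
      rw [Finset.sum_comm]
      refine Finset.sum_le_sum fun l _ => ?_
      exact S3_major sl h D M b N hD2 (by omega) m (hnd.1 m) (Yw m) (fun i => ww i l) Lw hLw1 X (hXs m)
    rw [a4] at a3
    have a6 : SL.S2 sl h b m (lamY D N M Y) (lamY D N M Y) = ∑ n ∈ rng (primorial D) b N, th (sl m * n + h m) *
      (LamS sl h D N M Y n * LamS sl h D N M Y n) := rfl
    rw [a6]
    linarith
  -- lower bound for the first part
  have hlow2 : ∀ m, BN k D N * Real.log N * ((∑ i, K i i * T m i) - ∑ i, ∑ j, |K i j| * η) ≤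
      ∑ i, ∑ j, K i j * SL.S2 sl h b m (lamY D N M (Ys m i)) (lamY D N M (Ys m j)) := by
    intro m
    have a1 : ∀ i j, K i j * (BN k D N * Real.log N * T2 M (fun _ => 1 / (M : ℝ)) m (Ys m i) (Ys m j)) -
        |K i j| * (BN k D N * Real.log N * η) ≤ K i j * SL.S2 sl h b m (lamY D N M (Ys m i)) (lamY D N M (Ys m j)) := by
      intro i j
      by_cases h0 : K i j = 0
      · rw [h0]; simp
      · have b1 := g2 m i j h0
        have b2 : |K i j * (BN k D N * Real.log N * T2 M (fun _ => 1 / (M : ℝ)) m (Ys m i) (Ys m j)) -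
            K i j * SL.S2 sl h b m (lamY D N M (Ys m i)) (lamY D N M (Ys m j))| ≤ |K i j| * (BN k D N * Real.log N * η) := by
          rw [← mul_sub, abs_mul, abs_sub_comm]
          exact mul_le_mul_of_nonneg_left b1 (abs_nonneg _)
        have b3 := (abs_le.1 b2).2
        linarith
    have a2 := Finset.sum_le_sum fun i (_ : i ∈ univ) => Finset.sum_le_sum fun j (_ : j ∈ univ) => a1 i j
    refine le_trans (le_of_eq ?_) a2
    have a3 : ∀ i, ∑ j, (K i j * (BN k D N * Real.log N * T2 M (fun _ => 1 / (M : ℝ)) m (Ys m i) (Ys m j)) -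
        |K i j| * (BN k D N * Real.log N * η)) = BN k D N * Real.log N * (K i i * T m i - ∑ j, |K i j| * η) := by
      intro i
      rw [Finset.sum_sub_distrib]
      have b1 : ∑ j, K i j * (BN k D N * Real.log N * T2 M (fun _ => 1 / (M : ℝ)) m (Ys m i) (Ys m j)) =
          BN k D N * Real.log N * (K i i * T m i) := by
        rw [Finset.sum_eq_single i]
        · rw [hT2]
          simp only [hT]
          ring
        · intro j _ hj
          rw [hT20 _ m i j (Ne.symm hj)]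
          ring
        · intro h0; exact absurd (Finset.mem_univ i) h0
      rw [b1, mul_sub, Finset.mul_sum]
      congr 1
      refine Finset.sum_congr rfl fun j _ => ?_
      ring
    rw [Finset.sum_congr rfl fun i _ => a3 i, ← Finset.mul_sum, Finset.sum_sub_distrib]
  have hfin : BN k D N * Real.log N * F η ≤ 0 := by
    have a1 : ∀ m, BN k D N * Real.log N * ((∑ i, K i i * T m i) - ∑ i, ∑ j, |K i j| * η) -
        Real.log X * (BN k D N * ∑ l, (c m l + η)) ≤ SL.S2 sl h b m (lamY D N M Y) (lamY D N M Y) := by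
      intro m
      refine le_trans ?_ (hlow m)
      refine sub_le_sub (hlow2 m) ?_
      refine mul_le_mul_of_nonneg_left ?_ hlogX
      rw [Finset.mul_sum]
      exact Finset.sum_le_sum fun l _ => g3 m l
    have a2 := Finset.sum_le_sum fun m (_ : m ∈ univ) => a1 m
    have a3 := hup.trans (mul_le_mul_of_nonneg_left g1 hlogX)
    have a4 := a2.trans a3
    rw [Finset.sum_sub_distrib, ← Finset.mul_sum, ← Finset.mul_sum, ← Finset.mul_sum, Finset.sum_sub_distrib] at a4
    have a5 : 0 ≤ (∑ m, ∑ l, (c m l + η)) + (I0 + η) := by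
      -- I0 ≥ 0, c ≥ 0
      have b1 : 0 ≤ I0 := by
        rw [hI0]
        unfold T1
        exact Finset.sum_nonneg fun v _ => by positivity
      have b3 : ∀ m l, 0 ≤ c m l + η := by
        intro m l
        have b5 : 0 ≤ S3 sl h D M b N m (Yw m) (fun i => ww i l) Lw := by
          unfold S3
          exact Finset.sum_nonneg fun n _ => sq_nonneg _
        exact nonneg_of_mul_nonneg_right (b5.trans (g3 m l)) hBN
      have b4 : 0 ≤ ∑ m, ∑ l, (c m l + η) :=
        Finset.sum_nonneg fun m _ => Finset.sum_nonneg fun l _ => b3 m l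
      linarith
    have a6 := mul_le_mul_of_nonneg_right g4 (mul_nonneg hBN.le a5)
    simp only [hF]
    nlinarith
  have := mul_pos (mul_pos hBN hlogN) hFη
  linarith

end Pool.Agent.S43
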