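import Pool.Agent.BCore.Smooth

/-! B-CORE for `beta` = indicator of a class modulo a fixed `W0` in an interval (helper35, after helper59's `Smooth`): the
class is put into the periodic function of the van der Corput step. -/

set_option autoImplicit false

namespace Pool.Agent.S43

open Pool.Agent.BCore Pool.Agent.BCore.Smooth

/-- the bound for one tuple and one class modulo `W0` in an interval -/
theorem ss1W (W0 : ℕ) (hW0 : 1 ≤ W0) : ∃ C : ℝ, 0 < C ∧ ∀ (N R U V H Z : ℕ) (K B Y T : ℝ) (a b1 b2 : ℤ)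
    (r u1 u2 v1 v2 g : ℕ) (l h y z c0 : ℤ),
    1 ≤ R → 1 ≤ U → 1 ≤ V → 1 ≤ H → 0 < K → K ≤ N → K ^ 3 = R * U ^ 2 * V ^ 2 →
    1 ≤ B → 0 ≤ Y → K * B ≤ Y ^ 2 * N → K ≤ Y ^ 4 * (R * U * V) →
    2 ^ 10 * R * U ^ 2 * V ^ 2 ≤ Z → (∀ m : ℕ, 1 ≤ m → m ≤ Z → (tau m : ℝ) ≤ T) →
    1 + Real.log Z ≤ T →
    r ∈ Finset.Ioc R (2 * R) → u1 ∈ Finset.Icc U (2 * U) → u2 ∈ Finset.Icc U (2 * U) →
    v1 ∈ Finset.Ioc V (2 * V) → v2 ∈ Finset.Ioc V (2 * V) →
    Good a b1 b2 r u1 v1 u2 v2 → Nat.Coprime (Pm r (u1 * v1) (u2 * v2)) W0 → Nat.gcd (u1 * v1) (u2 * v2) = g → g ≤ H →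
    WinS H K B (r * (u1 * v1)) → h ≠ 0 → z - y ≤ N →
    ‖∑ n ∈ (Finset.Ioc y z).filter (fun n => n % (W0 : ℤ) = c0), W a b1 b2 r l (u1 * v1) (u2 * v2) h n‖ ≤
      C * T ^ 3 * N * Y * (Int.gcd h ((Pm r (u1 * v1) (u2 * v2) : ℕ) : ℤ) : ℝ) := by
  obtain ⟨C, hC, hvdc⟩ := vdc
  have hW0R : (1 : ℝ) ≤ W0 := by exact_mod_cast hW0
  have hCW : 0 < C * W0 := by positivity
  refine ⟨14 * (C * W0) + W0, by linarith, ?_⟩
  intro N R U V H Z K B Y T a b1 b2 r u1 u2 v1 v2 g l h y z c0 hR hU hV hH hK hKN hK3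
    hB hY hKB hKY hZ htau hlogZ hr hu1 hu2 hv1 hv2 hG hcopW hg hgH hwin hh hyz
  rw [Finset.mem_Ioc] at hr hv1 hv2
  rw [Finset.mem_Icc] at hu1 hu2
  obtain ⟨s1, s2, ca, cb1, cb1', cb2', cb2⟩ := hG
  have hv1' : 0 < v1 := lt_of_le_of_lt (Nat.zero_le _) hv1.1
  have hv2' : 0 < v2 := lt_of_le_of_lt (Nat.zero_le _) hv2.1
  have hu1' : 0 < u1 := lt_of_lt_of_le hU hu1.1
  have hu2' : 0 < u2 := lt_of_lt_of_le hU hu2.1
  have hr' : 0 < r := lt_of_le_of_lt (Nat.zero_le _) hr.1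
  have hd1' : 0 < u1 * v1 := Nat.mul_pos hu1' hv1'
  have hd2' : 0 < u2 * v2 := Nat.mul_pos hu2' hv2'
  have hgpos : 0 < g := by
    rw [← hg]; exact Nat.gcd_pos_of_pos_left _ hd1'
  have hgR : (0 : ℝ) < g := by exact_mod_cast hgpos
  have hg1 : (1 : ℝ) ≤ g := by exact_mod_cast hgpos
  have hgHR : (g : ℝ) ≤ H := by exact_mod_cast hgH
  obtain ⟨s, hsd, hst, hts⟩ := hwin (K / g) (by
      have h2 : K = g * (K / g) := by field_simp
      calc K = g * (K / g) := h2
        _ ≤ H * (K / g) := mul_le_mul_of_nonneg_right hgHR (by positivity)) (div_le_self hK.le hg1)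
  set d1 := u1 * v1 with hd1
  set d2 := u2 * v2 with hd2
  have hspos : 0 < s := Nat.pos_of_dvd_of_pos hsd (Nat.mul_pos hr' hd1')
  obtain ⟨g0, hg0⟩ : ∃ g0, g0 = Nat.gcd s g := ⟨_, rfl⟩
  obtain ⟨r1, hr1⟩ : g0 ∣ s := by rw [hg0]; exact Nat.gcd_dvd_left s g
  have hr1pos : 0 < r1 := by
    rcases Nat.eq_zero_or_pos r1 with h0 | h0
    · rw [h0, Nat.mul_zero] at hr1; omega
    · exact h0
  have hg0pos : 0 < g0 := by rw [hg0]; exact Nat.gcd_pos_of_pos_left _ hspos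
  have hg0g : g0 ≤ g := by
    rw [hg0]; exact Nat.le_of_dvd hgpos (Nat.gcd_dvd_right s g)
  have hssq : Squarefree s := Squarefree.squarefree_of_dvd hsd s1
  have hcop1 : Nat.Coprime r1 g := by
    apply Nat.Coprime.symm
    apply Nat.coprime_of_dvd
    intro p hp hpg hpr
    have h1 : p ∣ s := by rw [hr1]; exact hpr.mul_left g0
    have h2 : p ∣ g0 := by rw [hg0]; exact Nat.dvd_gcd h1 hpg
    have h3 : p * p ∣ s := by rw [hr1]; exact mul_dvd_mul h2 hpr
    have h4 := hssq p h3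
    rw [Nat.isUnit_iff] at h4
    exact hp.one_lt.ne' h4
  have hgl : g ∣ Nat.lcm d1 d2 := by
    rw [← hg]; exact (Nat.gcd_dvd_left d1 d2).trans (Nat.dvd_lcm_left d1 d2)
  have hkP : r1 * g ∣ Pm r d1 d2 := by
    have h1 : r1 ∣ r * d1 := (Dvd.intro_left g0 hr1.symm).trans hsd
    have h2 : g ∣ r * d1 := by
      rw [← hg]; exact (Nat.gcd_dvd_left d1 d2).mul_left r
    have h3 : r1 * g ∣ r * d1 := Nat.Coprime.mul_dvd_of_dvd_of_dvd hcop1 h1 h2
    unfold Pm
    exact h3.trans (mul_dvd_mul_left r (Nat.dvd_lcm_left d1 d2))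
  obtain ⟨L, hL⟩ := hkP
  have hkL : r1 * g * L = Pm r d1 d2 := hL.symm
  obtain ⟨G, c, l0, hGper, hG1, hgcd, hW⟩ := phase1 (l := l) s1 s2 ca cb1 cb2 hg hkL h
  obtain ⟨c1, q1, q2⟩ := (Nat.squarefree_mul_iff).mp s1
  obtain ⟨c2, -, q3⟩ := (Nat.squarefree_mul_iff).mp s2
  have hPsq : Squarefree (Pm r d1 d2) := by
    unfold Pm
    rw [Nat.squarefree_mul_iff]
    refine ⟨?_, q1, squarefree_lcm q2 q3⟩
    have : Nat.Coprime r (d1 * d2) := Nat.Coprime.mul_right c1 c2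
    exact Nat.Coprime.coprime_dvd_right (Nat.lcm_dvd_mul d1 d2) this
  set k := r1 * g with hk
  have hkLsq : Squarefree (k * L) := by
    rw [hkL]; exact hPsq
  obtain ⟨hco, hksq, hLsq⟩ := (Nat.squarefree_mul_iff).mp hkLsq
  have hkpos : 0 < k := Nat.mul_pos hr1pos hgpos
  have hLpos : 0 < L := Nat.pos_of_ne_zero hLsq.ne_zero
  have hkR : (k : ℝ) = r1 * g := by rw [hk]; push_cast; ring
  have hsR : (s : ℝ) = g0 * r1 := by rw [hr1]; push_cast; ring
  have hg0R : (1 : ℝ) ≤ g0 := by exact_mod_cast hg0pos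
  have hg0gR : (g0 : ℝ) ≤ g := by exact_mod_cast hg0g
  have hr1R : (0 : ℝ) < r1 := by exact_mod_cast hr1pos
  have hkK : (k : ℝ) ≤ K := by
    rw [hkR]
    rw [le_div_iff₀ hgR] at hst
    refine le_trans ?_ hst
    apply mul_le_mul_of_nonneg_right _ hgR.le
    rw [hsR]
    exact le_mul_of_one_le_left hr1R.le hg0R
  have hKk : K ≤ B ^ 2 * (g * k) := by
    rw [hkR]
    rw [div_le_iff₀ hgR] at hts
    refine hts.trans ?_
    rw [hsR]
    have hb : 0 ≤ B ^ 2 := by positivity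
    calc B ^ 2 * (g0 * r1) * g = B ^ 2 * (g0 * (r1 * g)) := by ring
      _ ≤ B ^ 2 * (g * (r1 * g)) := by
          apply mul_le_mul_of_nonneg_left _ hb
          exact mul_le_mul_of_nonneg_right hg0gR (by positivity)
  have hPle : Pm r d1 d2 ≤ 32 * (R * U ^ 2 * V ^ 2) := by
    unfold Pm
    calc r * Nat.lcm d1 d2 ≤ (2 * R) * (d1 * d2) := Nat.mul_le_mul hr.2 (lcm_le d1 d2)
      _ ≤ (2 * R) * (((2 * U) * (2 * V)) * ((2 * U) * (2 * V))) := by
          apply Nat.mul_le_mul_left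
          exact Nat.mul_le_mul (Nat.mul_le_mul hu1.2 hv1.2) (Nat.mul_le_mul hu2.2 hv2.2)
      _ = 32 * (R * U ^ 2 * V ^ 2) := by ring
  have hPge : R * U * V ≤ Pm r d1 d2 := by
    unfold Pm
    calc R * U * V = R * (U * V) := by ring
      _ ≤ r * (u1 * v1) := Nat.mul_le_mul hr.1.le (Nat.mul_le_mul hu1.1 hv1.1.le)
      _ ≤ r * Nat.lcm d1 d2 := by
          apply Nat.mul_le_mul_left
          exact Nat.le_of_dvd (Nat.lcm_pos hd1' hd2') (Nat.dvd_lcm_left d1 d2)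
  have hK3' : (0 : ℝ) ≤ K ^ 3 := by positivity
  have hkL_le : (g * k : ℝ) * L ≤ 128 * K ^ 3 := by
    have h1 : g * (k * L) ≤ 32 * (R * U ^ 2 * V ^ 2) := by
      rw [hkL]
      unfold Pm
      calc g * (r * Nat.lcm d1 d2) = r * (Nat.gcd d1 d2 * Nat.lcm d1 d2) := by rw [hg]; ring
        _ = r * (d1 * d2) := by rw [Nat.gcd_mul_lcm]
        _ ≤ (2 * R) * (((2 * U) * (2 * V)) * ((2 * U) * (2 * V))) :=
            Nat.mul_le_mul hr.2
              (Nat.mul_le_mul (Nat.mul_le_mul hu1.2 hv1.2) (Nat.mul_le_mul hu2.2 hv2.2))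
        _ = 32 * (R * U ^ 2 * V ^ 2) := by ring
    have h2 : (g : ℝ) * (k * L) ≤ 32 * (R * U ^ 2 * V ^ 2) := by exact_mod_cast h1
    rw [← hK3] at h2
    linarith
  have hL2 : (L : ℝ) ≤ 128 * (K ^ 2 * B ^ 2) := by
    have hgk : (0 : ℝ) < g * k := by
      have : (0 : ℝ) < k := by exact_mod_cast hkpos
      positivity
    have h3 : (g * k : ℝ) * L ≤ (g * k) * (128 * (K ^ 2 * B ^ 2)) := by
      calc (g * k : ℝ) * L ≤ 128 * K ^ 3 := hkL_le
        _ = 128 * K ^ 2 * K := by ring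
        _ ≤ 128 * K ^ 2 * (B ^ 2 * (g * k)) := mul_le_mul_of_nonneg_left hKk (by positivity)
        _ = (g * k) * (128 * (K ^ 2 * B ^ 2)) := by ring
    exact le_of_mul_le_mul_left h3 hgk
  have hkL_ge : (R : ℝ) * U * V ≤ (k : ℝ) * L := by
    have : R * U * V ≤ k * L := by rw [hkL]; exact hPge
    exact_mod_cast this
  have hLP : L ≤ Pm r d1 d2 := by
    rw [← hkL]; exact Nat.le_mul_of_pos_left L hkpos
  have hLZ : L ≤ Z := by
    refine hLP.trans (hPle.trans (le_trans ?_ hZ))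
    calc 32 * (R * U ^ 2 * V ^ 2) ≤ 2 ^ 10 * (R * U ^ 2 * V ^ 2) :=
          Nat.mul_le_mul_right _ (by norm_num)
      _ = 2 ^ 10 * R * U ^ 2 * V ^ 2 := by ring
  have hL1R : (1 : ℝ) ≤ L := by exact_mod_cast hLpos
  have hlogL : 1 + Real.log L ≤ T := by
    have : Real.log L ≤ Real.log Z :=
      Real.log_le_log (by linarith) (by exact_mod_cast hLZ)
    linarith
  have hT1 : 1 ≤ T := by
    have := Real.log_nonneg hL1R
    linarith
  have hgg1 : (1 : ℝ) ≤ (Int.gcd c (L : ℤ) : ℕ) := by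
    rw [hgcd]
    have : 0 < Int.gcd h (L : ℤ) := Int.gcd_pos_of_ne_zero_left _ hh
    exact_mod_cast this
  have hggle : ((Int.gcd c (L : ℤ) : ℕ) : ℝ) ≤ (Int.gcd h ((Pm r d1 d2 : ℕ) : ℤ) : ℝ) := by
    rw [hgcd]
    have h1 : Int.gcd h (L : ℤ) ∣ Int.gcd h ((Pm r d1 d2 : ℕ) : ℤ) := by
      apply Int.gcd_dvd_gcd_of_dvd_right
      exact_mod_cast (Dvd.intro_left k hkL : L ∣ Pm r d1 d2)
    have h2 : 0 < Int.gcd h ((Pm r d1 d2 : ℕ) : ℤ) := Int.gcd_pos_of_ne_zero_left _ hh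
    exact_mod_cast Nat.le_of_dvd h2 h1
  have hkN : k ≤ N := by
    have : (k : ℝ) ≤ N := hkK.trans hKN
    exact_mod_cast this
  set gg : ℝ := ((Int.gcd c (L : ℤ) : ℕ) : ℝ) with hggdef
  have hNR : (0 : ℝ) ≤ N := Nat.cast_nonneg N
  have hbase : 0 ≤ T ^ 3 * N * Y * gg := by positivity
  set S := ‖∑ n ∈ (Finset.Ioc y z).filter (fun n => n % (W0 : ℤ) = c0), W a b1 b2 r l d1 d2 h n‖ with hS
  -- S ^ 2 bound
  have hS2 : S ^ 2 ≤ ((14 * (C * W0) + W0) * (T ^ 3 * N * Y * gg)) ^ 2 := by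
    by_cases hX : (z - y).toNat < k * W0
    · -- short interval: trivial bound
      have hcard : (((Finset.Ioc y z).filter (fun n => n % (W0 : ℤ) = c0)).card : ℝ) ≤ ((z - y).toNat : ℝ) := by
        rw [← Int.card_Ioc]
        exact_mod_cast Finset.card_filter_le _ _
      have hSle : S ≤ ((z - y).toNat : ℝ) := by
        refine le_trans ?_ hcard
        rw [hS]
        refine (norm_sum_le _ _).trans ?_
        calc ∑ n ∈ (Finset.Ioc y z).filter (fun n => n % (W0 : ℤ) = c0), ‖W a b1 b2 r l d1 d2 h n‖ ≤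
              ∑ n ∈ (Finset.Ioc y z).filter (fun n => n % (W0 : ℤ) = c0), (1 : ℝ) :=
              Finset.sum_le_sum fun n _ => W_norm_le hPsq ca cb1 cb2 h
          _ = (((Finset.Ioc y z).filter (fun n => n % (W0 : ℤ) = c0)).card : ℝ) := by simp
      have hXN : ((z - y).toNat : ℝ) ≤ N := by
        have : (z - y).toNat ≤ N := by omega
        exact_mod_cast this
      have hXk : ((z - y).toNat : ℝ) ≤ k * W0 := by exact_mod_cast hX.le
      have hkW : (k : ℝ) * W0 ≤ K * W0 := mul_le_mul_of_nonneg_right hkK (by positivity)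
      have h1 : S ^ 2 ≤ N * (K * W0) := by
        have h0 : 0 ≤ S := norm_nonneg _
        calc S ^ 2 = S * S := by ring
          _ ≤ N * (K * W0) := mul_le_mul (hSle.trans hXN) (hSle.trans (hXk.trans hkW)) h0 hNR
      have h2 : N * (K * W0) ≤ (W0 * (N * Y)) ^ 2 := by
        have h3 : K ≤ Y ^ 2 * N := (le_mul_of_one_le_right hK.le hB).trans hKB
        have h4 : K * W0 ≤ (Y ^ 2 * N) * (W0 : ℝ) ^ 2 := by
          apply mul_le_mul h3 _ (by positivity) (by positivity)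
          rw [sq]
          exact le_mul_of_one_le_left (by positivity) hW0R
        calc (N : ℝ) * (K * W0) ≤ N * ((Y ^ 2 * N) * (W0 : ℝ) ^ 2) := mul_le_mul_of_nonneg_left h4 hNR
          _ = (W0 * (N * Y)) ^ 2 := by ring
      have h3 : W0 * ((N : ℝ) * Y) ≤ (14 * (C * W0) + W0) * (T ^ 3 * N * Y * gg) := by
        have hT3 : 1 ≤ T ^ 3 := one_le_pow₀ hT1
        have hNY : 0 ≤ (N : ℝ) * Y := by positivity
        have h4 : (W0 : ℝ) ≤ (14 * (C * W0) + W0) * (T ^ 3 * gg) := by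
          have h5 : 1 ≤ T ^ 3 * gg := one_le_mul_of_one_le_of_one_le hT3 hgg1
          have h6 : (W0 : ℝ) ≤ 14 * (C * W0) + W0 := by linarith [hCW.le]
          exact h6.trans (le_mul_of_one_le_right (by positivity) h5)
        calc W0 * ((N : ℝ) * Y) ≤ ((14 * (C * W0) + W0) * (T ^ 3 * gg)) * (N * Y) := mul_le_mul_of_nonneg_right h4 hNY
          _ = (14 * (C * W0) + W0) * (T ^ 3 * N * Y * gg) := by ring
      have hNY : 0 ≤ W0 * ((N : ℝ) * Y) := by positivity
      exact (h1.trans h2).trans (pow_le_pow_left₀ hNY h3 2)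
    · push Not at hX
      set X := (z - y).toNat with hXdef
      have hXN : X ≤ N := by omega
      have hXNR : (X : ℝ) ≤ N := by exact_mod_cast hXN
      have hkW1 : 1 ≤ k * W0 := Nat.mul_pos hkpos hW0
      have hzy : z = y + (X : ℤ) := by
        have : 0 < X := lt_of_lt_of_le hkW1 hX
        omega
      have hLW : Nat.Coprime (k * W0) L := by
        refine Nat.Coprime.mul_left hco ?_
        have h1 : L ∣ Pm r d1 d2 := by
          rw [← hkL]
          exact Dvd.intro_left k rfl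
        exact (Nat.Coprime.coprime_dvd_left h1 hcopW).symm
      have hper : Function.Periodic G (k : ℤ) := hGper
      have hv := hvdc (k * W0) L X (fun n => G n * (if n % (W0 : ℤ) = c0 then 1 else 0)) c l0 y hLsq hLW hkW1 hX
        (by
          intro n
          have e1 : G (n + ((k * W0 : ℕ) : ℤ)) = G n := by
            have h1 := (hper.nsmul W0) n
            rw [← h1]
            congr 1
            push_cast
            simp only [nsmul_eq_mul]
            ring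
          have e2 : (n + ((k * W0 : ℕ) : ℤ)) % (W0 : ℤ) = n % (W0 : ℤ) := by
            push_cast
            exact Int.add_mul_emod_self_right n k W0
          show G (n + ((k * W0 : ℕ) : ℤ)) * (if (n + ((k * W0 : ℕ) : ℤ)) % (W0 : ℤ) = c0 then 1 else 0) = _
          rw [e1, e2])
        (by
          intro n
          show ‖G n * (if n % (W0 : ℤ) = c0 then 1 else 0)‖ ≤ 1
          split_ifs
          · rw [mul_one]
            exact hG1 n
          · rw [mul_zero, norm_zero]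
            exact zero_le_one)
      have hsum : ∑ n ∈ (Finset.Ioc y z).filter (fun n => n % (W0 : ℤ) = c0), W a b1 b2 r l d1 d2 h n =
          ∑ n ∈ Finset.Ioc y (y + (X : ℤ)), (G n * (if n % (W0 : ℤ) = c0 then 1 else 0)) * KL L c (n + l0) := by
        rw [← hzy, Finset.sum_filter]
        refine Finset.sum_congr rfl (fun n _ => ?_)
        split_ifs
        · rw [mul_one]
          exact hW n
        · rw [mul_zero, zero_mul]
      have hv' : S ^ 2 ≤ (C * W0) * (tau L : ℝ) ^ 4 * (1 + Real.log L) *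
          ((N : ℝ) * k + ((N : ℝ) * Real.sqrt L + (N : ℝ) ^ 2 / Real.sqrt L) * Real.sqrt gg) := by
        rw [hS, hsum]
        refine hv.trans ?_
        have hpre : 0 ≤ C * (tau L : ℝ) ^ 4 * (1 + Real.log L) := by
          have := Real.log_nonneg hL1R
          positivity
        have e1 : (X : ℝ) * ((k * W0 : ℕ) : ℝ) ≤ W0 * (N * k) := by
          push_cast
          calc (X : ℝ) * (k * W0) ≤ N * (k * W0) := mul_le_mul_of_nonneg_right hXNR (by positivity)
            _ = W0 * (N * k) := by ring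
        have e2 : (X : ℝ) * Real.sqrt L ≤ N * Real.sqrt L :=
          mul_le_mul_of_nonneg_right hXNR (Real.sqrt_nonneg _)
        have e3 : (X : ℝ) ^ 2 / Real.sqrt L ≤ (N : ℝ) ^ 2 / Real.sqrt L := by
          apply div_le_div_of_nonneg_right _ (Real.sqrt_nonneg _)
          exact pow_le_pow_left₀ (Nat.cast_nonneg X) hXNR 2
        have e4 : ((X : ℝ) * Real.sqrt L + (X : ℝ) ^ 2 / Real.sqrt L) * Real.sqrt gg ≤
            ((N : ℝ) * Real.sqrt L + (N : ℝ) ^ 2 / Real.sqrt L) * Real.sqrt gg :=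
          mul_le_mul_of_nonneg_right (add_le_add e2 e3) (Real.sqrt_nonneg _)
        have e5 : 0 ≤ ((N : ℝ) * Real.sqrt L + (N : ℝ) ^ 2 / Real.sqrt L) * Real.sqrt gg := by positivity
        have e6 : ((N : ℝ) * Real.sqrt L + (N : ℝ) ^ 2 / Real.sqrt L) * Real.sqrt gg ≤
            W0 * (((N : ℝ) * Real.sqrt L + (N : ℝ) ^ 2 / Real.sqrt L) * Real.sqrt gg) :=
          le_mul_of_one_le_left e5 hW0R
        calc C * (tau L : ℝ) ^ 4 * (1 + Real.log L) * ((X : ℝ) * ((k * W0 : ℕ) : ℝ) +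
              ((X : ℝ) * Real.sqrt L + (X : ℝ) ^ 2 / Real.sqrt L) * Real.sqrt gg) ≤
            C * (tau L : ℝ) ^ 4 * (1 + Real.log L) * (W0 * ((N : ℝ) * k) +
              W0 * (((N : ℝ) * Real.sqrt L + (N : ℝ) ^ 2 / Real.sqrt L) * Real.sqrt gg)) :=
              mul_le_mul_of_nonneg_left (add_le_add e1 (e4.trans e6)) hpre
          _ = _ := by ring
      have hfin := ana2 (RUV := (R : ℝ) * U * V) hCW (Nat.cast_nonneg N) hK hB hY hKB hKY hT1 hL1R
        (Nat.cast_nonneg k) hkK hL2 hkL_ge (Nat.cast_nonneg (tau L))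
        (htau L hLpos hLZ) hlogL hgg1 hv'
      rw [mul_pow]
      refine hfin.trans (mul_le_mul_of_nonneg_right ?_ (sq_nonneg _))
      have h7 : 14 * (C * W0) ≤ 14 * (C * W0) + W0 := by linarith
      have h8 : 1 ≤ 14 * (C * W0) + W0 := by linarith [hCW.le]
      refine h7.trans ?_
      rw [sq]
      exact le_mul_of_one_le_left (by linarith) h8
  have h2 : S ≤ (14 * (C * W0) + W0) * (T ^ 3 * N * Y * gg) :=
    (pow_le_pow_iff_left₀ (norm_nonneg _) (by positivity) two_ne_zero).1 hS2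
  refine h2.trans ?_
  calc (14 * (C * W0) + W0) * (T ^ 3 * N * Y * gg) = (14 * (C * W0) + W0) * T ^ 3 * N * Y * gg := by ring
    _ ≤ _ := mul_le_mul_of_nonneg_left hggle (by positivity)


end Pool.Agent.S43
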