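import Pool.Agent.S43.SmW1

/-! B-CORE for `beta` = indicator of a class modulo a fixed `W0` in an interval, summation (helper35, after helper59's
`Smooth`). -/

set_option autoImplicit false

namespace Pool.Agent.S43

open Pool.Agent.BCore Pool.Agent.BCore.Smooth

/-- indicator of the class `c0` modulo `W0` in `(y, z]` -/
noncomputable def indA (W0 : ℕ) (c0 y z : ℤ) (n : ℤ) : ℂ :=
  if n ∈ Finset.Ioc y z ∧ n % (W0 : ℤ) = c0 then 1 else 0

/-- the sum over `n` of an indicator of a class is a sum over a class in an interval, or zero -/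
theorem SN_indA {N : ℕ} (W0 : ℕ) (c0 y z : ℤ) (a b1 b2 : ℤ) (r : ℕ) (l : ℤ) (d1 d2 : ℕ) (h : ℤ) :
    ‖SN N (indA W0 c0 y z) a b1 b2 r l d1 d2 h‖ ≤
      ‖∑ n ∈ (Finset.Ioc (max 0 (max y (y - l * r))) (min (N : ℤ) (min z (z - l * r)))).filter
          (fun n => n % (W0 : ℤ) = c0), W a b1 b2 r l d1 d2 h n‖ := by
  classical
  by_cases hd : (W0 : ℤ) ∣ l * r
  · have hmod : ∀ n : ℤ, (n + l * r) % (W0 : ℤ) = n % (W0 : ℤ) := by
      intro n
      obtain ⟨t, ht⟩ := hd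
      rw [ht, Int.add_mul_emod_self_left]
    have h1 : SN N (indA W0 c0 y z) a b1 b2 r l d1 d2 h =
        ∑ n ∈ (Finset.Ioc (max 0 (max y (y - l * r))) (min (N : ℤ) (min z (z - l * r)))).filter
          (fun n => n % (W0 : ℤ) = c0), W a b1 b2 r l d1 d2 h n := by
      unfold SN indA
      have h1 : ∀ n ∈ Finset.Icc (1 : ℤ) N,
          (if n ∈ Finset.Ioc y z ∧ n % (W0 : ℤ) = c0 then (1 : ℂ) else 0) *
            (starRingEnd ℂ) (if n + l * r ∈ Finset.Ioc y z ∧ (n + l * r) % (W0 : ℤ) = c0 then (1 : ℂ) else 0) *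
              W a b1 b2 r l d1 d2 h n =
          if ((n ∈ Finset.Ioc y z ∧ n + l * r ∈ Finset.Ioc y z) ∧ n % (W0 : ℤ) = c0) then W a b1 b2 r l d1 d2 h n
            else 0 := by
        intro n _
        rw [hmod n]
        by_cases h3 : n % (W0 : ℤ) = c0
        · by_cases h1 : n ∈ Finset.Ioc y z
          · by_cases h2 : n + l * r ∈ Finset.Ioc y z
            · rw [if_pos ⟨h1, h3⟩, if_pos ⟨h2, h3⟩, if_pos ⟨⟨h1, h2⟩, h3⟩]
              simp
            · have q1 : ¬ (n + l * r ∈ Finset.Ioc y z ∧ n % (W0 : ℤ) = c0) := fun hx => h2 hx.1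
              have q2 : ¬ ((n ∈ Finset.Ioc y z ∧ n + l * r ∈ Finset.Ioc y z) ∧ n % (W0 : ℤ) = c0) := fun hx => h2 hx.1.2
              rw [if_neg q1, if_neg q2]
              simp only [map_zero, mul_zero, zero_mul]
          · have q1 : ¬ (n ∈ Finset.Ioc y z ∧ n % (W0 : ℤ) = c0) := fun hx => h1 hx.1
            have q2 : ¬ ((n ∈ Finset.Ioc y z ∧ n + l * r ∈ Finset.Ioc y z) ∧ n % (W0 : ℤ) = c0) := fun hx => h1 hx.1.1
            rw [if_neg q1, if_neg q2]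
            simp only [zero_mul]
        · have q1 : ¬ (n ∈ Finset.Ioc y z ∧ n % (W0 : ℤ) = c0) := fun hx => h3 hx.2
          have q2 : ¬ ((n ∈ Finset.Ioc y z ∧ n + l * r ∈ Finset.Ioc y z) ∧ n % (W0 : ℤ) = c0) := fun hx => h3 hx.2
          rw [if_neg q1, if_neg q2]
          simp only [zero_mul]
      rw [Finset.sum_congr rfl h1, ← Finset.sum_filter]
      apply Finset.sum_congr _ (fun _ _ => rfl)
      ext n
      simp only [Finset.mem_filter, Finset.mem_Icc, Finset.mem_Ioc, max_lt_iff, le_min_iff]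
      constructor
      · rintro ⟨⟨p1, p2⟩, ⟨⟨p3, p4⟩, p5, p6⟩, p7⟩
        refine ⟨⟨⟨by omega, p3, by linarith⟩, p2, p4, by linarith⟩, p7⟩
      · rintro ⟨⟨⟨p1, p2, p3⟩, p4, p5, p6⟩, p7⟩
        refine ⟨⟨by omega, p4⟩, ⟨⟨p2, p5⟩, by linarith, by linarith⟩, p7⟩
    rw [h1]
  · have h1 : SN N (indA W0 c0 y z) a b1 b2 r l d1 d2 h = 0 := by
      unfold SN indA
      refine Finset.sum_eq_zero fun n _ => ?_
      by_cases h2 : n ∈ Finset.Ioc y z ∧ n % (W0 : ℤ) = c0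
      · have h3 : ¬ (n + l * r ∈ Finset.Ioc y z ∧ (n + l * r) % (W0 : ℤ) = c0) := by
          rintro ⟨_, h4⟩
          apply hd
          have h5 : (n + l * r) % (W0 : ℤ) = n % (W0 : ℤ) := by rw [h4, h2.2]
          have h7 : (W0 : ℤ) ∣ (n + l * r) - n := Int.ModEq.dvd h5.symm
          have h8 : (n + l * r) - n = l * r := by ring
          rwa [h8] at h7
        rw [if_neg h3]
        simp only [map_zero, mul_zero, zero_mul]
      · rw [if_neg h2]
        simp only [zero_mul]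
    rw [h1, norm_zero]
    exact norm_nonneg _

/-- `B-CORE` for `beta` = indicator of a class modulo `W0` in an interval. -/
theorem bcore_smoothW (W0 : ℕ) (hW0 : 1 ≤ W0) : ∃ C : ℝ, 0 < C ∧ ∀ (N R U V H Z : ℕ) (K B Y T : ℝ) (a b1 b2 : ℤ)
    (y z c0 : ℤ) (w : ℕ → ℤ → ℕ → ℕ → ℕ → ℕ → ℤ → ℂ),
    1 ≤ R → 1 ≤ U → 1 ≤ V → 1 ≤ H → 0 < K → K ≤ N → K ^ 3 = R * U ^ 2 * V ^ 2 →
    1 ≤ B → 0 ≤ Y → K * B ≤ Y ^ 2 * N → K ≤ Y ^ 4 * (R * U * V) →
    2 ^ 10 * R * U ^ 2 * V ^ 2 ≤ Z → (∀ m : ℕ, 1 ≤ m → m ≤ Z → (tau m : ℝ) ≤ T) →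
    1 + Real.log Z ≤ T → (∀ r l u1 v1 u2 v2 h, ‖w r l u1 v1 u2 v2 h‖ ≤ 1) →
    (∀ r l u1 v1 u2 v2 h, w r l u1 v1 u2 v2 h ≠ 0 → Good a b1 b2 r u1 v1 u2 v2 ∧
      WinS H K B (r * (u1 * v1)) ∧ Nat.Coprime (Pm r (u1 * v1) (u2 * v2)) W0) →
    ‖Tot N R U V H (indA W0 c0 y z) a b1 b2 w‖ ≤
      C * T ^ 4 * (N : ℝ) ^ 2 * (U : ℝ) ^ 2 * (V : ℝ) ^ 2 * (H * Y) := by
  obtain ⟨C, hC, hss⟩ := ss1W W0 hW0
  refine ⟨16 * C, by linarith, ?_⟩
  intro N R U V H Z K B Y T a b1 b2 y z c0 w hR hU hV hH hK hKN hK3 hB hY hKB hKY hZ htau hlogZ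
    hw1 hw2
  have hZ1 : 1 ≤ Z := by
    refine le_trans ?_ hZ
    have : 0 < 2 ^ 10 * R * U ^ 2 * V ^ 2 := by positivity
    exact this
  have hT0 : 0 ≤ T := by
    have h1 := htau 1 le_rfl hZ1
    have h2 : (0 : ℝ) ≤ tau 1 := Nat.cast_nonneg _
    linarith
  have hNR : (0 : ℝ) ≤ N := Nat.cast_nonneg N
  have hHR : (0 : ℝ) ≤ H := Nat.cast_nonneg H
  have hRR : (0 : ℝ) < R := by exact_mod_cast hR
  have hCb : 0 ≤ C * T ^ 3 * N * Y := by positivity
  set E : ℝ := 2 * C * T ^ 4 * N * Y * H with hE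
  have hE0 : 0 ≤ E := by positivity
  -- inner sum over h
  have hinner : ∀ r ∈ Finset.Ioc R (2 * R), ∀ l ∈ Lr N r, ∀ u1 ∈ Finset.Icc U (2 * U),
      ∀ v1 ∈ Finset.Ioc V (2 * V), ∀ u2 ∈ Finset.Icc U (2 * U), ∀ v2 ∈ Finset.Ioc V (2 * V),
      ‖∑ h ∈ Hr H (Nat.gcd (u1 * v1) (u2 * v2)),
        w r l u1 v1 u2 v2 h * ((Nat.gcd (u1 * v1) (u2 * v2) : ℕ) : ℂ) *
          SN N (indA W0 c0 y z) a b1 b2 r l (u1 * v1) (u2 * v2) h‖ ≤ E := by
    intro r hr l hl u1 hu1 v1 hv1 u2 hu2 v2 hv2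
    have hr' := Finset.mem_Ioc.1 hr
    have hu1' := Finset.mem_Icc.1 hu1
    have hv1' := Finset.mem_Ioc.1 hv1
    have hu2' := Finset.mem_Icc.1 hu2
    have hv2' := Finset.mem_Ioc.1 hv2
    have hd1 : 0 < u1 * v1 := Nat.mul_pos (by omega) (by omega)
    have hd2 : 0 < u2 * v2 := Nat.mul_pos (by omega) (by omega)
    set g := Nat.gcd (u1 * v1) (u2 * v2) with hg
    have hgpos : 1 ≤ g := Nat.gcd_pos_of_pos_left _ hd1
    have hgR : (0 : ℝ) < g := by exact_mod_cast hgpos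
    set P := Pm r (u1 * v1) (u2 * v2) with hP
    have hPpos : 1 ≤ P := by
      rw [hP]; unfold Pm
      exact Nat.mul_pos (by omega) (Nat.lcm_pos hd1 hd2)
    have hPle : P ≤ 32 * (R * U ^ 2 * V ^ 2) := by
      rw [hP]; unfold Pm
      calc r * Nat.lcm (u1 * v1) (u2 * v2) ≤ (2 * R) * ((u1 * v1) * (u2 * v2)) :=
            Nat.mul_le_mul hr'.2 (lcm_le _ _)
        _ ≤ (2 * R) * (((2 * U) * (2 * V)) * ((2 * U) * (2 * V))) := by
            apply Nat.mul_le_mul_left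
            exact Nat.mul_le_mul (Nat.mul_le_mul hu1'.2 hv1'.2) (Nat.mul_le_mul hu2'.2 hv2'.2)
        _ = 32 * (R * U ^ 2 * V ^ 2) := by ring
    have hPZ : P ≤ Z := by
      refine hPle.trans (le_trans ?_ hZ)
      calc 32 * (R * U ^ 2 * V ^ 2) ≤ 2 ^ 10 * (R * U ^ 2 * V ^ 2) :=
            Nat.mul_le_mul_right _ (by norm_num)
        _ = 2 ^ 10 * R * U ^ 2 * V ^ 2 := by ring
    have hterm : ∀ h ∈ Hr H g, ‖w r l u1 v1 u2 v2 h * ((g : ℕ) : ℂ) *
        SN N (indA W0 c0 y z) a b1 b2 r l (u1 * v1) (u2 * v2) h‖ ≤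
        g * (C * T ^ 3 * N * Y * (Int.gcd h ((P : ℕ) : ℤ) : ℝ)) := by
      intro h hh
      rw [Hr, Finset.mem_filter] at hh
      by_cases hw0 : w r l u1 v1 u2 v2 h = 0
      · rw [hw0]
        simp only [zero_mul, norm_zero]
        positivity
      · obtain ⟨hGood, hWin, hcW⟩ := hw2 r l u1 v1 u2 v2 h hw0
        have hgH : g ≤ H := by
          have h1 : (1 : ℤ) ≤ |h| := Int.one_le_abs hh.2.1
          have h2 : (g : ℤ) ≤ H := by
            calc (g : ℤ) = 1 * g := by ring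
              _ ≤ |h| * g := mul_le_mul_of_nonneg_right h1 (by positivity)
              _ ≤ H := hh.2.2
          exact_mod_cast h2
        have hb := hss N R U V H Z K B Y T a b1 b2 r u1 u2 v1 v2 g l h
          (max 0 (max y (y - l * r))) (min (N : ℤ) (min z (z - l * r))) c0
          hR hU hV hH hK hKN hK3 hB hY hKB hKY hZ htau hlogZ hr hu1 hu2 hv1 hv2 hGood hcW hg.symm hgH
          hWin hh.2.1 (by
            have h1 := le_max_left (0 : ℤ) (max y (y - l * r))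
            have h2 := min_le_left (N : ℤ) (min z (z - l * r))
            linarith)
        rw [norm_mul, norm_mul]
        replace hb := (SN_indA (N := N) W0 c0 y z a b1 b2 r l (u1 * v1) (u2 * v2) h).trans hb
        have hgn : ‖((g : ℕ) : ℂ)‖ = (g : ℝ) := by simp
        rw [hgn]
        calc ‖w r l u1 v1 u2 v2 h‖ * (g : ℝ) * _ ≤ 1 * (g : ℝ) *
              (C * T ^ 3 * N * Y * (Int.gcd h ((P : ℕ) : ℤ) : ℝ)) := by
              apply mul_le_mul _ hb (norm_nonneg _) (by positivity)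
              exact mul_le_mul_of_nonneg_right (hw1 _ _ _ _ _ _ _) hgR.le
          _ = _ := by ring
    refine (norm_sum_le _ _).trans ((Finset.sum_le_sum hterm).trans ?_)
    rw [← Finset.mul_sum, ← Finset.mul_sum]
    have hgs := gcd_sum (H := H) hgpos hPpos
    have htP : (tau P : ℝ) ≤ T := htau P hPpos hPZ
    calc (g : ℝ) * (C * T ^ 3 * N * Y * ∑ h ∈ Hr H g, (Int.gcd h ((P : ℕ) : ℤ) : ℝ)) ≤
          g * (C * T ^ 3 * N * Y * (2 * (H : ℝ) / g * T)) := by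
          apply mul_le_mul_of_nonneg_left _ hgR.le
          apply mul_le_mul_of_nonneg_left _ hCb
          refine hgs.trans ?_
          apply mul_le_mul_of_nonneg_left htP
          positivity
      _ = E := by
          rw [hE]
          field_simp
  -- summation
  have hcardU : ((Finset.Icc U (2 * U)).card : ℝ) ≤ 2 * U := by
    rw [Nat.card_Icc]
    have : 2 * U + 1 - U ≤ 2 * U := by omega
    exact_mod_cast this
  have hcardV : ((Finset.Ioc V (2 * V)).card : ℝ) = V := by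
    rw [Nat.card_Ioc]
    have : 2 * V - V = V := by omega
    rw [this]
  have hcardR : ((Finset.Ioc R (2 * R)).card : ℝ) = R := by
    rw [Nat.card_Ioc]
    have : 2 * R - R = R := by omega
    rw [this]
  have sumle : ∀ (s : Finset ℕ) (f : ℕ → ℂ) (M : ℝ), (∀ i ∈ s, ‖f i‖ ≤ M) →
      ‖∑ i ∈ s, f i‖ ≤ (s.card : ℝ) * M := by
    intro s f M hf
    refine (norm_sum_le _ _).trans ((Finset.sum_le_sum hf).trans ?_)
    rw [Finset.sum_const, nsmul_eq_mul]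
  have hl : ∀ r ∈ Finset.Ioc R (2 * R),
      ‖∑ l ∈ Lr N r,
    ∑ u1 ∈ Finset.Icc U (2 * U), ∑ v1 ∈ Finset.Ioc V (2 * V),
    ∑ u2 ∈ Finset.Icc U (2 * U), ∑ v2 ∈ Finset.Ioc V (2 * V),
    ∑ h ∈ Hr H (Nat.gcd (u1 * v1) (u2 * v2)),
      w r l u1 v1 u2 v2 h * ((Nat.gcd (u1 * v1) (u2 * v2) : ℕ) : ℂ) *
        SN N (indA W0 c0 y z) a b1 b2 r l (u1 * v1) (u2 * v2) h‖ ≤
        2 * (N : ℝ) / R * (2 * U * (V * (2 * U * (V * E)))) := by
    intro r hr
    have hr' := Finset.mem_Ioc.1 hr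
    have hq : ∀ l ∈ Lr N r, ‖∑ u1 ∈ Finset.Icc U (2 * U), ∑ v1 ∈ Finset.Ioc V (2 * V),
    ∑ u2 ∈ Finset.Icc U (2 * U), ∑ v2 ∈ Finset.Ioc V (2 * V),
    ∑ h ∈ Hr H (Nat.gcd (u1 * v1) (u2 * v2)),
      w r l u1 v1 u2 v2 h * ((Nat.gcd (u1 * v1) (u2 * v2) : ℕ) : ℂ) *
        SN N (indA W0 c0 y z) a b1 b2 r l (u1 * v1) (u2 * v2) h‖ ≤ 2 * U * (V * (2 * U * (V * E))) := by
      intro l hl
      have e1 := sumle (Finset.Icc U (2 * U)) (fun u1 => ∑ v1 ∈ Finset.Ioc V (2 * V),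
        ∑ u2 ∈ Finset.Icc U (2 * U), ∑ v2 ∈ Finset.Ioc V (2 * V),
        ∑ h ∈ Hr H (Nat.gcd (u1 * v1) (u2 * v2)),
          w r l u1 v1 u2 v2 h * ((Nat.gcd (u1 * v1) (u2 * v2) : ℕ) : ℂ) *
            SN N (indA W0 c0 y z) a b1 b2 r l (u1 * v1) (u2 * v2) h) (V * (2 * U * (V * E))) (by
        intro u1 hu1
        have e2 := sumle (Finset.Ioc V (2 * V)) (fun v1 =>
          ∑ u2 ∈ Finset.Icc U (2 * U), ∑ v2 ∈ Finset.Ioc V (2 * V),
          ∑ h ∈ Hr H (Nat.gcd (u1 * v1) (u2 * v2)),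
            w r l u1 v1 u2 v2 h * ((Nat.gcd (u1 * v1) (u2 * v2) : ℕ) : ℂ) *
              SN N (indA W0 c0 y z) a b1 b2 r l (u1 * v1) (u2 * v2) h) (2 * U * (V * E)) (by
          intro v1 hv1
          have e3 := sumle (Finset.Icc U (2 * U)) (fun u2 => ∑ v2 ∈ Finset.Ioc V (2 * V),
            ∑ h ∈ Hr H (Nat.gcd (u1 * v1) (u2 * v2)),
              w r l u1 v1 u2 v2 h * ((Nat.gcd (u1 * v1) (u2 * v2) : ℕ) : ℂ) *
                SN N (indA W0 c0 y z) a b1 b2 r l (u1 * v1) (u2 * v2) h) (V * E) (by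
            intro u2 hu2
            have e4 := sumle (Finset.Ioc V (2 * V)) (fun v2 =>
              ∑ h ∈ Hr H (Nat.gcd (u1 * v1) (u2 * v2)),
                w r l u1 v1 u2 v2 h * ((Nat.gcd (u1 * v1) (u2 * v2) : ℕ) : ℂ) *
                  SN N (indA W0 c0 y z) a b1 b2 r l (u1 * v1) (u2 * v2) h) E
              (fun v2 hv2 => hinner r hr l hl u1 hu1 v1 hv1 u2 hu2 v2 hv2)
            rw [hcardV] at e4
            exact e4)
          exact e3.trans (mul_le_mul_of_nonneg_right hcardU (by positivity)))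
        rw [hcardV] at e2
        exact e2)
      exact e1.trans (mul_le_mul_of_nonneg_right hcardU (by positivity))
    refine (norm_sum_le _ _).trans ((Finset.sum_le_sum hq).trans ?_)
    rw [Finset.sum_const, nsmul_eq_mul]
    apply mul_le_mul_of_nonneg_right (card_Lr hR hr'.1)
    positivity
  unfold Tot
  have hfin := sumle (Finset.Ioc R (2 * R)) _ _ hl
  rw [hcardR] at hfin
  refine hfin.trans (le_of_eq ?_)
  rw [hE]
  field_simp
  ring

end Pool.Agent.S43
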