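import Pool.Agent.S43.Shell
import Pool.Agent.MT.TwoTh

/-! The two-sided criterion for linear forms `s_i n + h_i` (helper35, after `MT/TwoTh`). -/

set_option autoImplicit false

namespace Pool.Agent.S43

open Finset Filter Topology Pool.Agent.MT Pool.Agent.SL

variable {k : ℕ}

open Two (Sh rad sh inc wt vt wt_inner vt_inner sh_none sh_false sh_true rad_update) in
open TwoTh in
theorem twoSidedTh (sl h : Fin k → ℕ) (hnd : Nondeg sl h) (hadm : Adm sl h) (M M2 N1 P Rc J : ℕ)
    (hM : M = 2 * M2) (hP : P + N1 = M2) (hRc : Rc + (k - 1) = N1) (U : ℕ → ℕ) (hU0 : U 0 = 0) (hU : Monotone U)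
    (hUJ : U J < P)
    (mm : ℕ → ℝ) (hm0 : 0 ≤ mm 0) (hm : Monotone mm) (s : ℝ) (Y : (Fin k → ℕ) → ℝ) (hs : ∀ v, |Y v| ≤ s)
    (hY1 : ∀ v, Y v ≠ 0 → ∀ m, rad m v < Rc + U J) (hY2 : ∀ v, Y v ≠ 0 → ∑ i, v i + k < M2)
    (κ : ℕ → ℝ) (hκ0 : ∀ r, r + U J < Rc → κ r = 1)
    (hκs : ∀ j < J, ∀ r, Rc ≤ r + U (j + 1) → r + U j < Rc → κ r =
      mm j * Cs M P U j / (Cs M P U j - 1) / (1 + mm j * Cs M P U j / (Cs M P U j - 1)))
    (hκt : ∀ j < J, ∀ r, Rc + U j ≤ r → r < Rc + U (j + 1) → κ r = -(mm j * Ct M P U j))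
    (hIJ : (M : ℝ) * ∑ v ∈ grid k M, Y v ^ 2 <
      ∑ m, ∑ v ∈ grid k M, κ (rad m v) * (Y v * ∑ x ∈ range M, Y (Function.update v m x)))
    (hEH : ∀ D b, SL.Large sl h D → SL.Good sl h D b → ∀ m v v', Y v ≠ 0 → Y v' ≠ 0 → rad m v + rad m v' < 2 * Rc →
      SL.EH sl h (primorial D) b m (fun i => ((v i : ℝ) + 1) / M) (fun i => ((v' i : ℝ) + 1) / M)) :
    ∀ x : ℕ, ∃ n ≥ x, ∃ i j, i ≠ j ∧ (sl i * n + h i).Prime ∧ (sl j * n + h j).Prime := by
  classical
  have hM1 : 1 ≤ M := by omega
  have hM0 : (0 : ℝ) < (M : ℝ) := by exact_mod_cast hM1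
  have hMr : (M : ℝ) = 2 * M2 := by rw [hM]; push_cast; ring
  -- grid
  have hgrid : Grid M s Y := by
    refine ⟨fun v hv i => ?_, hs⟩
    have h1 := hY2 v hv
    have h2 : v i ≤ ∑ j, v j := Finset.single_le_sum (fun j _ => Nat.zero_le _) (Finset.mem_univ i)
    omega
  have hsum1 : ∀ (v : Fin k → ℕ), ∑ i, ((v i : ℝ) + 1) / M = ((∑ i, v i + k : ℕ) : ℝ) / M := by
    intro v
    rw [← Finset.sum_div, Finset.sum_add_distrib]
    push_cast
    simp
  have hcard : ∀ m : Fin k, ((univ.erase m : Finset (Fin k))).card = k - 1 := by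
    intro m
    rw [Finset.card_erase_of_mem (Finset.mem_univ m), Finset.card_univ, Fintype.card_fin]
  have hrad1 : ∀ (m : Fin k) (v : Fin k → ℕ), ∑ i ∈ univ.erase m, ((v i : ℝ) + 1) = ((rad m v + (k - 1) : ℕ) : ℝ) := by
    intro m v
    rw [Finset.sum_add_distrib, Finset.sum_const, hcard m]
    unfold rad
    push_cast
    simp
  set θ : ℝ := ((M2 - 1 : ℕ) : ℝ) / M with hθd
  have hθ : θ < 1 / 2 := by
    rw [hθd, div_lt_div_iff₀ hM0 (by norm_num), hMr]
    have : ((M2 - 1 : ℕ) : ℝ) = M2 - 1 := by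
      rw [Nat.cast_sub (by omega)]; push_cast; ring
    rw [this]
    linarith
  have hsplit : ∀ (m : Fin k) (f : Fin k → ℝ) (c : ℝ), ∑ j, (if j = m then c else f j) =
      c + ∑ j ∈ univ.erase m, f j := by
    intro m f c
    rw [← Finset.add_sum_erase _ _ (Finset.mem_univ m)]
    rw [if_pos rfl]
    congr 1
    exact Finset.sum_congr rfl fun j hj => if_neg (Finset.ne_of_mem_erase hj)
  refine discrete2 sl h hnd hadm M hM1 s θ Y hgrid ?_ hθ (fun m v => sh Rc J U (rad m v))
    (fun m v x => by rw [rad_update]) (J + 1) (KK M P U mm) (vvv M P U mm) (www M P U mm) (fun i j => rfl)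
    (lev P U) ?_ ?_ ?_ ?_ ?_
  · intro v hv
    rw [hsum1, hθd]
    refine div_le_div_of_nonneg_right ?_ hM0.le
    exact_mod_cast (by have := hY2 v hv; omega)
  · intro a ha
    rcases a with _ | ⟨_ | _, j⟩
    · exact absurd rfl ha
    · show 1 ≤ P + U j
      omega
    · show 1 ≤ P - U (j + 1)
      have h1 : U ((j : ℕ) + 1) ≤ U J := hU (by have := j.2; omega)
      omega
  · intro a ha
    rcases a with _ | ⟨_ | _, j⟩
    · exact absurd rfl ha
    · show P + U j ≤ M
      have h1 : U (j : ℕ) ≤ U J := hU (by have := j.2; omega)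
      omega
    · show P - U (j + 1) ≤ M
      omega
  · -- levels
    intro m v hv hw
    rw [hsplit m (fun j => ((v j : ℝ) + 1) / M), ← Finset.sum_div, hrad1, ← add_div, hθd]
    refine div_le_div_of_nonneg_right ?_ hM0.le
    have hr := hY1 v hv m
    rcases hsh : sh Rc J U (rad m v) with _ | ⟨_ | _, j⟩
    · rw [hsh] at hw
      exact absurd rfl hw
    · have h1 := sh_false hsh
      have : lev P U (some (false, j)) = P + U j := rfl
      rw [this]
      exact_mod_cast (by omega)
    · have h1 := sh_true hsh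
      have : lev P U (some (true, j)) = P - U (j + 1) := rfl
      rw [this]
      have h2 : U ((j : ℕ) + 1) ≤ U J := hU (by have := j.2; omega)
      exact_mod_cast (by omega)
  · -- the inequality
    have hcoef : ∀ m v, Y v ≠ 0 → coef M P U mm (sh Rc J U (rad m v)) = κ (rad m v) := by
      intro m v hv
      have hr := hY1 v hv m
      rcases hsh : sh Rc J U (rad m v) with _ | ⟨_ | _, j⟩
      · rw [coef_none, hκ0 _ (sh_none hU0 hr hsh)]
      · have h1 := sh_false hsh
        have h2 : U (j : ℕ) ≤ U J := hU (by have := j.2; omega)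
        rw [coef_s M P U mm hm0 hm j (by omega) (by omega), hκs j j.2 _ h1.1 h1.2]
      · have h1 := sh_true hsh
        have h2 : U ((j : ℕ) + 1) ≤ U J := hU (by have := j.2; omega)
        rw [coef_t M P U mm hm0 hm j (by omega), hκt j j.2 _ h1.1 h1.2]
    have hT1 : T1 M (fun _ => 1 / (M : ℝ)) Y = (1 / (M : ℝ)) ^ (k + 1) * ((M : ℝ) * ∑ v ∈ grid k M, Y v ^ 2) := by
      unfold T1
      simp only [Finset.prod_const, Finset.card_univ, Fintype.card_fin]
      rw [← Finset.sum_mul, pow_succ]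
      field_simp
    have hT2 : ∀ m, ∑ a, (KK M P U mm a a - (∑ l, www M P U mm a l ^ 2) * ((M : ℝ) / lev P U a)) *
        T2 M (fun _ => 1 / (M : ℝ)) m (low {v | sh Rc J U (rad m v) = a} Y) Y = (1 / (M : ℝ)) ^ (k + 1) *
        ∑ v ∈ grid k M, κ (rad m v) * (Y v * ∑ x ∈ range M, Y (Function.update v m x)) := by
      intro m
      have h1 : ∀ a : Sh J, (KK M P U mm a a - (∑ l, www M P U mm a l ^ 2) * ((M : ℝ) / lev P U a)) = coef M P U mm a :=
        fun a => rfl
      simp only [h1]
      unfold T2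
      simp only [Finset.prod_const, Finset.card_univ, Fintype.card_fin]
      simp only [Finset.mul_sum]
      rw [Finset.sum_comm]
      refine Finset.sum_congr rfl fun v _ => ?_
      rw [Finset.sum_eq_single (sh Rc J U (rad m v))]
      · by_cases hv : Y v = 0
        · refine Finset.sum_congr rfl fun x _ => ?_
          have h2 : low {v | sh Rc J U (rad m v) = sh Rc J U (rad m v)} Y v = 0 := by
            unfold low
            split_ifs <;> simp [hv]
          have h3 : low {v_1 | sh Rc J U (rad m v_1) = sh Rc J U (rad m v)} Y v = 0 := by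
            unfold low
            split_ifs
            · exact hv
            · rfl
          rw [h3, hv]
          ring
        · rw [hcoef m v hv]
          refine Finset.sum_congr rfl fun x _ => ?_
          have h3 : low {v_1 | sh Rc J U (rad m v_1) = sh Rc J U (rad m v)} Y v = Y v := if_pos rfl
          rw [h3, pow_succ]
          ring
      · intro a _ ha
        refine Finset.sum_eq_zero fun x _ => ?_
        have h3 : low {v_1 | sh Rc J U (rad m v_1) = a} Y v = 0 := if_neg fun h0 => ha (Eq.symm h0)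
        rw [h3]
        ring
      · intro h0; exact absurd (Finset.mem_univ _) h0
    rw [hT1, Finset.sum_congr rfl fun m _ => hT2 m, ← Finset.mul_sum]
    exact mul_lt_mul_of_pos_left hIJ (by positivity)
  · -- equidistribution
    intro D b hL hG m v v' hv hv' hK
    have hr := hY1 v hv m
    have hr' := hY1 v' hv' m
    have key : rad m v + rad m v' < 2 * Rc := by
      rcases hsh : sh Rc J U (rad m v) with _ | ⟨_ | _, j⟩
      · have := sh_none hU0 hr hsh
        omega
      · have h2 := sh_false hsh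
        rcases hsh' : sh Rc J U (rad m v') with _ | ⟨_ | _, i⟩
        · have := sh_none hU0 hr' hsh'
          have h3 : U (j : ℕ) ≤ U J := hU (by have := j.2; omega)
          omega
        · have h3 := sh_false hsh'
          omega
        · have h3 := sh_true hsh'
          by_cases hji : j ≤ i
          · exfalso
            apply hK
            simp only [hsh, hsh']
            exact KK_st M P U mm hm0 hm j i hji
          · have h4 : U ((i : ℕ) + 1) ≤ U j := hU (by
              have : (i : ℕ) < j := not_le.1 hji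
              omega)
            omega
      · have h2 := sh_true hsh
        rcases hsh' : sh Rc J U (rad m v') with _ | ⟨_ | _, i⟩
        · have := sh_none hU0 hr' hsh'
          omega
        · have h3 := sh_false hsh'
          by_cases hji : i ≤ j
          · exfalso
            apply hK
            simp only [hsh, hsh']
            rw [KK_symm]
            exact KK_st M P U mm hm0 hm i j hji
          · have h4 : U ((j : ℕ) + 1) ≤ U i := hU (by
              have : (j : ℕ) < i := not_le.1 hji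
              omega)
            omega
        · exfalso
          apply hK
          simp only [hsh, hsh']
          exact KK_tt M P U mm j i
    exact hEH D b hL hG m v v' hv hv' key

open Two (Sh rad sh inc wt vt wt_inner vt_inner sh_none sh_false sh_true rad_update) in
open TwoTh in
/-- symmetric version: one term -/
theorem twoSidedTh_symm (sl h : Fin k → ℕ) (hnd : Nondeg sl h) (hadm : Adm sl h) (M M2 N1 P Rc J : ℕ)
    (hM : M = 2 * M2) (hP : P + N1 = M2) (hRc : Rc + (k - 1) = N1) (U : ℕ → ℕ) (hU0 : U 0 = 0) (hU : Monotone U)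
    (hUJ : U J < P)
    (mm : ℕ → ℝ) (hm0 : 0 ≤ mm 0) (hm : Monotone mm) (s : ℝ) (Y : (Fin k → ℕ) → ℝ) (hs : ∀ v, |Y v| ≤ s)
    (hsym : ∀ (e : Equiv.Perm (Fin k)) (v : Fin k → ℕ), Y (v ∘ e) = Y v)
    (hY1 : ∀ v, Y v ≠ 0 → ∀ m, rad m v < Rc + U J) (hY2 : ∀ v, Y v ≠ 0 → ∑ i, v i + k < M2)
    (κ : ℕ → ℝ) (hκ0 : ∀ r, r + U J < Rc → κ r = 1)
    (hκs : ∀ j < J, ∀ r, Rc ≤ r + U (j + 1) → r + U j < Rc → κ r =
      mm j * Cs M P U j / (Cs M P U j - 1) / (1 + mm j * Cs M P U j / (Cs M P U j - 1)))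
    (hκt : ∀ j < J, ∀ r, Rc + U j ≤ r → r < Rc + U (j + 1) → κ r = -(mm j * Ct M P U j)) (m0 : Fin k)
    (hIJ : (M : ℝ) * ∑ v ∈ grid k M, Y v ^ 2 < k * term M κ Y m0)
    (hEH : ∀ D b, SL.Large sl h D → SL.Good sl h D b → ∀ m v v', Y v ≠ 0 → Y v' ≠ 0 → rad m v + rad m v' < 2 * Rc →
      SL.EH sl h (primorial D) b m (fun i => ((v i : ℝ) + 1) / M) (fun i => ((v' i : ℝ) + 1) / M)) :
    ∀ x : ℕ, ∃ n ≥ x, ∃ i j, i ≠ j ∧ (sl i * n + h i).Prime ∧ (sl j * n + h j).Prime := by
  refine twoSidedTh sl h hnd hadm M M2 N1 P Rc J hM hP hRc U hU0 hU hUJ mm hm0 hm s Y hs hY1 hY2 κ hκ0 hκs hκt ?_ hEH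
  have h1 : ∑ m, term M κ Y m = k * term M κ Y m0 := by
    rw [Finset.sum_congr rfl fun m _ => term_symm M κ Y hsym m m0, Finset.sum_const, Finset.card_univ,
      Fintype.card_fin, nsmul_eq_mul]
  unfold term at h1
  rw [h1]
  exact hIJ

end Pool.Agent.S43
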